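import Mathlib
import Pool.Agent.H410R2.ACIface

/-!
Positive proportion theorem for clusters of primes surrounded by empty space (project PP):
interface of the part specific to clusters (mixed signs).  The sieve engine is helper410's
(`Pool.Agent.H410R2.ENIface`).

Notation: `P1 H J` the primes of the rough part, `P2 J z` the primes of the Selberg part.
-/

set_option autoImplicit false

open Finset

namespace Pool.Agent.H361R2.PP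

open Pool.Agent.H410R2.AC (wt GG cfg term WW pos Inj coef)

/-- the primes in `(H, 2^(2^J))` -/
def P1 (H J : ℕ) : Finset ℕ := (range (2 ^ 2 ^ J)).filter (fun p => p.Prime ∧ H < p)

/-- the primes in `[2^(2^J), z]` -/
def P2 (J z : ℕ) : Finset ℕ := (range (z + 1)).filter (fun p => p.Prime ∧ 2 ^ 2 ^ J ≤ p)

/-- small sieving limit -/
noncomputable def HH (X : ℕ) : ℕ := ⌊Real.log (Real.log X) / 4⌋₊

/-- `2^(2^JJ) ≤ X^δ < 2^(2^(JJ+1))` -/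
noncomputable def JJ (δ : ℝ) (X : ℕ) : ℕ := Nat.log 2 (Nat.log 2 ⌊(X : ℝ) ^ δ⌋₊)

/-- the modulus -/
noncomputable def Wm (X : ℕ) : ℕ := primorial (HH X)

/-- the number of primes in `[X, 2X)` -/
noncomputable def Pr (X : ℕ) : ℝ := (((Ico X (2 * X)).filter Nat.Prime).card : ℝ)

/-- the shifts surviving the small primes, for the class `b` -/
noncomputable def BB (X b N : ℕ) : Finset ℕ :=
  (Icc 1 N).filter (fun a => (b + a).Coprime (Wm X))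

/-- number of primes `n + a` with `a ∈ A` -/
def Np (A : Finset ℕ) (n : ℕ) : ℕ := (A.filter (fun a => (n + a).Prime)).card

/-! ### Combinatorics of configurations -/

/-- coefficient after one prime of sign and size `γ` -/
noncomputable def co1 {t : ℕ} (γ : ℝ) (β : Fin t → ℝ) (σ : Fin t → Option ℕ) : ℝ :=
  1 + γ * ∑ τ, (if σ τ = none then β τ else 0)

/-- coefficient after two primes of signs and sizes `γ`, `γ'` -/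
noncomputable def co2 {t : ℕ} (γ γ' : ℝ) (β : Fin t → ℝ) (σ : Fin t → Option ℕ) : ℝ :=
  1 + (γ + γ') * ∑ τ, (if σ τ = none then β τ else 0) +
    γ * γ' * ((∑ τ, (if σ τ = none then β τ else 0)) ^ 2 -
      ∑ τ, (if σ τ = none then β τ ^ 2 else 0))

/-- COL: the weight at a point where one or two of the shifts give primes -/
def Col : Prop := ∀ (t : ℕ) (B : Finset ℕ) (β : Fin t → ℝ) (x : Fin t → ℕ → ℝ) (cf : ℕ → ℝ),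
  (∀ a₀ ∈ B, (∀ τ, x τ a₀ = cf a₀ * β τ) →
    WW B (fun _ => 1) x = WW (B.erase a₀) (co1 (cf a₀) β) x) ∧
  (∀ a₀ ∈ B, ∀ b₀ ∈ B, a₀ ≠ b₀ → (∀ τ, x τ a₀ = cf a₀ * β τ ∧ x τ b₀ = cf b₀ * β τ) →
    WW B (fun _ => 1) x = WW ((B.erase a₀).erase b₀) (co2 (cf a₀) (cf b₀) β) x)

/-- COB: bounds of the coefficients -/
def Cob : Prop := ∀ (t : ℕ) (β : Fin t → ℝ), (∀ τ, 0 ≤ β τ) → ∑ τ, β τ = 1 →
  (∀ σ : Fin t → Option ℕ, co1 (-1) β σ = coef β σ ∧ 0 ≤ coef β σ ∧ coef β σ ≤ 1) ∧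
  (∀ c : ℝ, 0 ≤ c → ∀ σ : Fin t → Option ℕ,
    (1 + c) ^ 2 - 2 * c * (1 + c) * coef β σ ≤ co1 c β σ ^ 2 ∧
    0 ≤ co1 c β σ ∧ co1 c β σ ≤ 1 + c ∧ 0 ≤ co2 c c β σ ∧ co2 c c β σ ≤ (1 + c) ^ 2)

/-- MNI: sums over configurations with nonnegative weights -/
def Mni : Prop := ∀ (t : ℕ) (B : Finset ℕ) (β : Fin t → ℝ) (q : Fin t → ℕ → ℝ) (η : ℝ), 0 ≤ η →
  (∀ τ, 0 ≤ β τ) → ∑ τ, β τ = 1 → (∀ τ a, 0 ≤ q τ a) → (∀ τ, ∑ a ∈ B, q τ a ≤ η) →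
  1 ≤ ∑ σ ∈ cfg t B, term q σ ∧ ∑ σ ∈ cfg t B, term q σ ≤ (1 + η) ^ t ∧
  ∀ B' ⊆ B,
    ∑ σ ∈ cfg t B', coef β σ * term q σ ≤ η * ∑ σ ∈ cfg t B, term q σ ∧
    ∑ σ ∈ cfg t B', coef β σ ^ 2 * term q σ ≤ η * ∑ σ ∈ cfg t B, term q σ ∧
    ∑ σ ∈ cfg t B', term q σ ≤ ∑ σ ∈ cfg t B, term q σ ∧
    (1 - ∑ τ, ∑ a ∈ B \ B', q τ a) * ∑ σ ∈ cfg t B, term q σ ≤ ∑ σ ∈ cfg t B', term q σ

/-! ### Number theory -/

/-- GGS: the sharp lower bound of the Selberg sum over rough numbers -/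
def GGSharp : Prop := ∀ (J z Y : ℕ), 1 ≤ Y → Y ≤ z →
  Real.log Y * ∏ p ∈ (range (2 ^ 2 ^ J)).filter Nat.Prime, (1 - 1 / (p : ℝ)) ≤
    GG ((P2 J z).powerset.filter (fun R : Finset ℕ => ∏ p ∈ R, p ≤ Y))

/-- WTX: the parameters are in the expected ranges -/
def Wtx : Prop :=
  (∀ X : ℕ, 16 ≤ X → (Wm X : ℝ) ≤ Real.log X ^ (7 / 20 : ℝ)) ∧
  (∀ δ : ℝ, 0 < δ → δ ≤ 1 → ∃ X₀ : ℕ, ∀ X : ℕ, X₀ ≤ X →
    (2 : ℝ) ^ 2 ^ JJ δ X ≤ (X : ℝ) ^ δ ∧ (X : ℝ) ^ (δ / 2) ≤ (2 : ℝ) ^ 2 ^ JJ δ X ∧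
    HH X < 2 ^ 2 ^ JJ δ X)

/-- CNT: the shifts in an interval which survive the small primes (uniformly in the class) -/
def Cnt : Prop := ∀ (s κ Λ : ℝ), 0 < s → 0 < κ → 0 < Λ → ∃ X₀ : ℕ, ∀ X : ℕ, X₀ ≤ X → ∀ b : ℕ,
  ∀ u v : ℝ, 0 ≤ u → u + κ * Real.log X ≤ v → v ≤ Λ * Real.log X →
  |(((BB X b ⌊Λ * Real.log X⌋₊).filter (fun a : ℕ => u < a ∧ (a : ℝ) ≤ v)).card : ℝ) -
    (v - u) * (Nat.totient (Wm X) / Wm X)| ≤ s * ((v - u) * (Nat.totient (Wm X) / Wm X))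

/-- PNT: the number of primes in `[X, 2X)` -/
def PntX : Prop := ∀ s : ℝ, 0 < s → ∃ X₀ : ℕ, ∀ X : ℕ, X₀ ≤ X →
  |Pr X * Real.log X - X| ≤ s * X

/-- MER: Mertens type bounds for `V = ∏_{H < p < 2^(2^J)} (1 - 1/p)` -/
def Mer : Prop := ∃ C : ℝ, 1 ≤ C ∧ ∀ δ : ℝ, 0 < δ → δ ≤ 1 → ∃ X₀ : ℕ, ∀ X : ℕ, X₀ ≤ X →
  0 < ∏ p ∈ P1 (HH X) (JJ δ X), (1 - 1 / (p : ℝ)) ∧
  (∏ p ∈ P1 (HH X) (JJ δ X), (1 - 1 / (p : ℝ))) * ((Nat.totient (Wm X) : ℝ) / Wm X) *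
    (δ * Real.log X) ≤ C ∧
  ∏ p ∈ (range (2 ^ 2 ^ JJ δ X)).filter Nat.Prime, (1 - 1 / (p : ℝ)) =
    (∏ p ∈ P1 (HH X) (JJ δ X), (1 - 1 / (p : ℝ))) * ((Nat.totient (Wm X) : ℝ) / Wm X)

/-- MRV: `V → 0` -/
def Mrv : Prop := ∀ δ s : ℝ, 0 < δ → δ ≤ 1 → 0 < s → ∃ X₀ : ℕ, ∀ X : ℕ, X₀ ≤ X →
  ∏ p ∈ P1 (HH X) (JJ δ X), (1 - 1 / (p : ℝ)) ≤ s

/-- GGT: the two-sided bound of the Selberg sums needed for `Types` -/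
def GGTypes : Prop := ∃ C : ℝ, 1 ≤ C ∧ ∀ δ : ℝ, 0 < δ → δ ≤ 1 / 8 → ∃ X₀ : ℕ, ∀ X : ℕ, X₀ ≤ X →
  ∀ t : ℝ, δ ≤ t → t ≤ 1 / 8 →
  t / (C * δ) ≤ ∑ R ∈ (P2 (JJ δ X) X).powerset.filter
      (fun R : Finset ℕ => Real.log (∏ p ∈ R, (p : ℝ)) ≤ t * Real.log X), wt R ∧
  ∑ R ∈ (P2 (JJ δ X) X).powerset.filter
      (fun R : Finset ℕ => Real.log (∏ p ∈ R, (p : ℝ)) ≤ t * Real.log X), wt R ≤ C * t / δ

/-- GBD: crude bound of multiplicative sums over the Selberg primes -/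
def Gbd : Prop := ∀ K : ℕ, ∃ C : ℕ, 1 ≤ C ∧ ∀ δ : ℝ, 0 < δ → δ ≤ 1 / 8 → ∃ X₀ : ℕ, ∀ X : ℕ,
  X₀ ≤ X → ∏ p ∈ P2 (JJ δ X) X, (1 + (K : ℝ) / ((p : ℝ) - 1)) ≤ (C / δ) ^ C

/-- the class condition -/
def ok (o : Option ℕ) (p n : ℕ) : Prop := ∀ a ∈ o, ¬ p ∣ n + a

/-- number of admissible classes -/
noncomputable def ph (o : Option ℕ) (p : ℕ) : ℝ := if o = none then (p : ℝ) else (p : ℝ) - 1

/-- equidistribution of a set of integers in the classes modulo products of primes of `P` -/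
def Eqd (o : Option ℕ) (P S : Finset ℕ) (Ω : ℝ) (Er : Finset ℕ → ℝ) : Prop :=
  (∀ n ∈ S, ∀ p ∈ P, ok o p n) ∧ (∀ D, 0 ≤ Er D) ∧
  ∀ D ⊆ P, ∀ r : ℕ, (∀ p ∈ D, ok o p r) →
    |((S.filter (fun n => ∀ p ∈ D, n % p = r % p)).card : ℝ) - Ω / ∏ p ∈ D, ph o p| ≤ Er D

/-- the primes in `(HH X, X]` -/
noncomputable def PX (X : ℕ) : Finset ℕ := (range (X + 1)).filter (fun p => p.Prime ∧ HH X < p)

/-- EQI: the integers in a class modulo `Wm X` -/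
def EqInt : Prop := ∀ (K A : ℕ) (θ : ℝ), 0 < θ → ∃ X₀ : ℕ, ∀ X : ℕ, X₀ ≤ X → ∀ b : ℕ, b < Wm X →
  ∃ Er : Finset ℕ → ℝ,
    Eqd none ((PX X).filter (fun p : ℕ => (p : ℝ) ≤ (X : ℝ) ^ (1 / 2 : ℝ)))
      ((Ico X (2 * X)).filter (fun n => n % Wm X = b)) ((X : ℝ) / Wm X) Er ∧
    ∑ D ∈ (PX X).powerset.filter (fun D : Finset ℕ => ∏ p ∈ D, (p : ℝ) ≤ (X : ℝ) ^ (1 - θ)),
      (K : ℝ) ^ D.card * Er D ≤ (X : ℝ) / Wm X / Real.log X ^ A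

/-- EQP: the integers `n` in a class modulo `Wm X` with `n + a₀` prime (Bombieri-Vinogradov) -/
def EqPrime : Prop := ∀ (K A : ℕ) (θ Λ : ℝ), 0 < θ → 0 < Λ → ∃ X₀ : ℕ, ∀ X : ℕ, X₀ ≤ X →
  ∀ b : ℕ, b < Wm X → ∀ a₀ ∈ BB X b ⌊Λ * Real.log X⌋₊,
  ∃ Er : Finset ℕ → ℝ,
    Eqd (some a₀) ((PX X).filter (fun p : ℕ => (p : ℝ) ≤ (X : ℝ) ^ (1 / 2 : ℝ)))
      ((Ico X (2 * X)).filter (fun n => n % Wm X = b ∧ (n + a₀).Prime))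
      (Pr X / Nat.totient (Wm X)) Er ∧
    ∑ D ∈ (PX X).powerset.filter (fun D : Finset ℕ => ∏ p ∈ D, (p : ℝ) ≤ (X : ℝ) ^ (1 / 2 - θ)),
      (K : ℝ) ^ D.card * Er D ≤ Pr X / Nat.totient (Wm X) / Real.log X ^ A

/-! ### Final analysis -/

/-- PZ: the Paley-Zygmund type inequality for weighted sums -/
def Pz : Prop := ∀ (S : Finset ℕ) (w : ℕ → ℝ) (N : ℕ → ℕ) (m : ℕ) (A μ s q : ℝ),
  (∀ n ∈ S, 0 ≤ w n) → 0 < A → 0 ≤ s → s ≤ 1 → 0 < μ → 0 ≤ q →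
  (1 + s) * (m : ℝ) ≤ (1 - s) * μ →
  ∑ n ∈ S, w n ≤ (1 + s) * A → (1 - s) * μ * A ≤ ∑ n ∈ S, w n * N n →
  ∑ n ∈ S, w n * N n ≤ (1 + s) * μ * A →
  ∑ n ∈ S, w n * (N n * ((N n : ℝ) - 1)) ≤ q * μ ^ 2 * A →
  ((1 - s) * μ - (1 + s) * m) ^ 2 / (q * μ ^ 2 + (1 + s) * μ) * A ≤
    ∑ n ∈ S.filter (fun n => m ≤ N n), w n

/-- CS: from the weighted sum to the number of good points -/
def Cs : Prop := ∀ (S : Finset ℕ) (V : ℕ → ℝ) (G : ℕ → Prop) [DecidablePred G] (a b : ℝ),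
  0 ≤ a → 0 < b → a ≤ ∑ n ∈ S.filter G, V n ^ 2 → ∑ n ∈ S, V n ^ 4 ≤ b →
  a ^ 2 / b ≤ ((S.filter G).card : ℝ)

end Pool.Agent.H361R2.PP
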