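import Pool.Agent.H361R2.PP.Asm1
import Pool.Agent.H862R2.PP.Sm5
import Pool.Agent.H403R2.PP.Tra
import Pool.Agent.H379R2.PP.Icl
import Pool.Agent.H30R2.PP.Rat
import Pool.Agent.H837R2.PP.Fiv

namespace Pool.Agent.H361R2.PP

theorem sm : SM :=
  Pool.Agent.H862R2.PPSm5.sm_of Pool.Agent.H804R2.PPSm2.sm2 sm4_final Pool.Agent.H20R2.eqInt
    Pool.Agent.H96R2.EQP.eqPrime (Pool.Agent.H488R2.mer Pool.Agent.H325R2.wtx)
    (Pool.Agent.H488R2.mrv Pool.Agent.H325R2.wtx) (Pool.Agent.H488R2.gbd Pool.Agent.H325R2.wtx)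
    Pool.Agent.H325R2.wtx Pool.Agent.H363R2.PPCnt.cnt

theorem masterT : MasterT := masterT_final sm

theorem masterU : MasterU := masterU_final sm

theorem poissonP : PoissonP := poissonP_final sm

theorem gamP : GamP := gamP_final sm

theorem icl : Icl := Pool.Agent.H379R2.PP.icl_of masterT Pool.Agent.H403R2.PP.tra

theorem rat2 : Rat2 := Pool.Agent.H30R2.PP.rat_of masterT Pool.Agent.H403R2.PP.tra

theorem fiv : Fiv := fiv_of masterT Pool.Agent.H403R2.PP.tra

end Pool.Agent.H361R2.PP
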