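import Pool.Agent.H361R2.PP.Cor1b
import Pool.Agent.Helper923.PNT

/-! Corollary for the intervals `[k, k + 1 + floor (log k)]`. -/

set_option autoImplicit false

open Finset

namespace Pool.Agent.H361R2.PP

/-- the density of the primes is zero, in the form needed here -/
theorem pi_small (s : ℝ) (hs : 0 < s) : ∃ N₀ : ℕ, ∀ N : ℕ, N₀ ≤ N →
    (Nat.primeCounting N : ℝ) ≤ s * N := by
  have h1 := Pool.Agent.Helper923.PNT.pi_tendsto
  have h2 := h1.eventually (gt_mem_nhds (show (1 : ℝ) < 2 by norm_num))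
  have h3 := (Real.tendsto_log_atTop.comp (tendsto_natCast_atTop_atTop (R := ℝ))).eventually_ge_atTop
    (2 / s)
  have h4 := (tendsto_natCast_atTop_atTop (R := ℝ)).eventually h2
  obtain ⟨N₀, h⟩ := Filter.eventually_atTop.1 ((h4.and h3).and (Filter.eventually_ge_atTop 1))
  refine ⟨N₀, fun N hN => ?_⟩
  obtain ⟨⟨h5, h6⟩, h7⟩ := h N hN
  simp only [Function.comp_apply] at h6
  have hN0 : (0 : ℝ) < N := by exact_mod_cast h7
  have hL : 0 < Real.log N := lt_of_lt_of_le (by positivity) h6
  have h8 : (Nat.primeCounting N : ℝ) * Real.log N < 2 * N := by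
    simp only [Nat.floor_natCast] at h5
    rw [div_lt_iff₀ hN0] at h5
    exact h5
  have h9 : 2 ≤ s * Real.log N := by
    rw [div_le_iff₀ hs] at h6
    linarith
  by_contra hcon
  push Not at hcon
  have h10 : s * N * Real.log N < (Nat.primeCounting N : ℝ) * Real.log N :=
    mul_lt_mul_of_pos_right hcon hL
  nlinarith

/-- the number of primes in `[k, k + 1 + floor (log k)]` -/
noncomputable def cnt (k : ℕ) : ℕ := ((Icc k (k + 1 + ⌊Real.log k⌋₊)).filter Nat.Prime).card

open Classical in
/-- positive proportion of `k` with exactly `j` primes in `[k, k + 1 + floor (log k)]` -/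
def GamP : Prop := ∀ j : ℕ, ∃ c : ℝ, 0 < c ∧ ∃ N₀ : ℕ, ∀ N : ℕ, N₀ ≤ N →
  c * N ≤ (((Icc 1 N).filter (fun k => cnt k = j)).card : ℝ)

open Classical in
theorem gam_of (h : PoissonP) : GamP := by
  intro j
  obtain ⟨c, hc, N1, h1⟩ := h 1 0 j one_pos le_rfl
  obtain ⟨N2, h2⟩ := pi_small (c / 16) (by positivity)
  refine ⟨c / 2, by positivity, N1 + N2 + 4, fun N hN => ?_⟩
  have h3 := h1 N (by omega)
  have h4 := h2 (2 * N) (by omega)
  have hsub : (Icc 1 N).filter (fun n => Ex 1 0 j n) ⊆
      (Icc 1 N).filter (fun k => cnt k = j) ∪ ((Icc 1 N).filter (fun k => k.Prime) ∪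
        (Icc 1 N).filter (fun k : ℕ => (k + 1 + ⌊Real.log k⌋₊).Prime)) := by
    intro k hk
    rw [mem_filter] at hk
    obtain ⟨hkN, hE⟩ := hk
    rw [mem_union, mem_union, mem_filter, mem_filter, mem_filter]
    by_cases hp : k.Prime
    · exact Or.inr (Or.inl ⟨hkN, hp⟩)
    by_cases hq : (k + 1 + ⌊Real.log k⌋₊).Prime
    · exact Or.inr (Or.inr ⟨hkN, hq⟩)
    left
    refine ⟨hkN, ?_⟩
    unfold Ex at hE
    have h5 : ⌊(k : ℝ) + 1 * Real.log k⌋₊ = k + ⌊Real.log k⌋₊ := by
      rw [one_mul, add_comm, Nat.floor_add_natCast (Real.log_natCast_nonneg k), add_comm]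
    rw [h5, pi_add (Nat.le_add_right _ _)] at hE
    have h6 : ((Ioc k (k + ⌊Real.log k⌋₊)).filter Nat.Prime).card = j := by
      have := hE.1
      omega
    unfold cnt
    rw [← h6]
    congr 1
    ext p
    simp only [mem_filter, mem_Icc, mem_Ioc]
    constructor
    · rintro ⟨⟨a1, a2⟩, a3⟩
      refine ⟨⟨?_, ?_⟩, a3⟩
      · rcases Nat.lt_or_ge k p with h | h
        · exact h
        · exfalso
          have : p = k := le_antisymm h a1
          rw [this] at a3
          exact hp a3
      · rcases Nat.lt_or_ge (k + ⌊Real.log k⌋₊) p with h | h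
        · exfalso
          have : p = k + 1 + ⌊Real.log k⌋₊ := by omega
          rw [this] at a3
          exact hq a3
        · exact h
    · rintro ⟨⟨a1, a2⟩, a3⟩
      exact ⟨⟨by omega, by omega⟩, a3⟩
  have h5 : ((Icc 1 N).filter (fun k => k.Prime)).card ≤ Nat.primeCounting (2 * N) := by
    unfold Nat.primeCounting Nat.primeCounting'
    rw [Nat.count_eq_card_filter_range]
    apply card_le_card
    intro p hp
    rw [mem_filter, mem_Icc] at hp
    rw [mem_filter, mem_range]
    exact ⟨by omega, hp.2⟩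
  have h6 : ((Icc 1 N).filter (fun k : ℕ => (k + 1 + ⌊Real.log k⌋₊).Prime)).card ≤
      Nat.primeCounting (2 * N) := by
    unfold Nat.primeCounting Nat.primeCounting'
    rw [Nat.count_eq_card_filter_range]
    apply card_le_card_of_injOn (fun k : ℕ => k + 1 + ⌊Real.log k⌋₊)
    · intro k hk
      rw [coe_filter, Set.mem_ofPred_eq, mem_Icc] at hk
      rw [coe_filter, Set.mem_ofPred_eq, mem_range]
      refine ⟨?_, hk.2⟩
      change k + 1 + ⌊Real.log k⌋₊ < 2 * N + 1
      have h7 : ⌊Real.log k⌋₊ < k := by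
        rw [Nat.floor_lt (Real.log_natCast_nonneg k)]
        have hk0 : (0 : ℝ) < k := by exact_mod_cast hk.1.1
        have := Real.log_le_sub_one_of_pos hk0
        linarith
      omega
    · intro k hk l hl hkl
      rw [coe_filter, Set.mem_ofPred_eq, mem_Icc] at hk hl
      have hkl' : k + 1 + ⌊Real.log k⌋₊ = l + 1 + ⌊Real.log l⌋₊ := hkl
      rcases lt_trichotomy k l with h | h | h
      · exfalso
        have h8 : ⌊Real.log k⌋₊ ≤ ⌊Real.log l⌋₊ := by
          apply Nat.floor_mono
          apply Real.log_le_log (by exact_mod_cast hk.1.1)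
          exact_mod_cast h.le
        omega
      · exact h
      · exfalso
        have h8 : ⌊Real.log l⌋₊ ≤ ⌊Real.log k⌋₊ := by
          apply Nat.floor_mono
          apply Real.log_le_log (by exact_mod_cast hl.1.1)
          exact_mod_cast h.le
        omega
  have h7 := (card_le_card hsub).trans ((card_union_le _ _).trans
    (Nat.add_le_add_left (card_union_le _ _) _))
  have h8 : (((Icc 1 N).filter (fun n => Ex 1 0 j n)).card : ℝ) ≤
      (((Icc 1 N).filter (fun k => cnt k = j)).card : ℝ) +
        ((Nat.primeCounting (2 * N) : ℝ) + Nat.primeCounting (2 * N)) := by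
    have : ((Icc 1 N).filter (fun n => Ex 1 0 j n)).card ≤
        ((Icc 1 N).filter (fun k => cnt k = j)).card +
          (Nat.primeCounting (2 * N) + Nat.primeCounting (2 * N)) := by
      omega
    exact_mod_cast this
  push_cast at h4
  linarith

end Pool.Agent.H361R2.PP
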