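import Pool.Agent.H361R2.PP.Main3
import Pool.Agent.H361R2.PP.Cor5
import Pool.Agent.H212R2.AC4b
import Pool.Agent.H909R2.EN3
import Pool.Agent.H602R2.MomW
import Pool.Agent.H415R2.ACLocal
import Pool.Agent.H488R2.EN.D
import Pool.Agent.H911R2.EN.SumW
import Pool.Agent.H20R2.EN.FLem
import Pool.Agent.H575R2.EN4
import Pool.Agent.H708R2.ACTypes
import Pool.Agent.H488R2.PPM.Mer
import Pool.Agent.H96R2.EQP.Main
import Pool.Agent.H20R2.PP.EQI
import Pool.Agent.H633R2.PP.GGS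
import Pool.Agent.H325R2.PPWtx
import Pool.Agent.H325R2.PPPnt
import Pool.Agent.H363R2.PPCnt
import Pool.Agent.H872R2.Collapse2
import Pool.Agent.H433R2.PPMni
import Pool.Agent.H909R2.PPpz
import Pool.Agent.H379R2.PP.Sm1
import Pool.Agent.H804R2.PPSm2
import Pool.Agent.H372R2.PPSM4

namespace Pool.Agent.H361R2.PP

theorem secondW_final : Pool.Agent.H410R2.EN.SecondW :=
  Pool.Agent.H909R2.EN3.secondW_of Pool.Agent.H212R2.AC4b.countMaps
    (Pool.Agent.H602R2.momW_of (Pool.Agent.H488R2.EN2a.expandW_of Pool.Agent.H20R2.fLem)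
      Pool.Agent.H911R2.EN.sumW Pool.Agent.H415R2.ACLocal.localSum)

theorem fourthW_final : Pool.Agent.H410R2.EN.FourthW :=
  Pool.Agent.H575R2.EN4.fourthW_of Pool.Agent.H212R2.AC4b.countMaps
    (Pool.Agent.H488R2.EN2a.expandW_of Pool.Agent.H20R2.fLem)

theorem sm4_final : Sm4 :=
  Pool.Agent.H372R2.PPSM4.sm4 secondW_final fourthW_final Pool.Agent.H379R2.PP.sm1
    Pool.Agent.H379R2.PP.sm3

theorem masterT_final (h : SM) : MasterT :=
  master_of h Pool.Agent.H708R2.types (Pool.Agent.H488R2.ggtypes Pool.Agent.H325R2.wtx)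
    Pool.Agent.H633R2.ggSharp (Pool.Agent.H488R2.mer Pool.Agent.H325R2.wtx)
    (Pool.Agent.H488R2.mrv Pool.Agent.H325R2.wtx) Pool.Agent.H363R2.PPCnt.cnt
    Pool.Agent.H325R2.pnt Pool.Agent.H872R2.PPCol.col Pool.Agent.H872R2.PPCol.cob
    Pool.Agent.H433R2.PPMni.mni Pool.Agent.H909R2.pz_holds Pool.Agent.H909R2.cs_holds
    Pool.Agent.H325R2.wtx

theorem masterU_final (h : SM) : MasterU :=
  masterU_of (masterT_final h) (close_of h Pool.Agent.H633R2.ggSharp
    (Pool.Agent.H488R2.mer Pool.Agent.H325R2.wtx) Pool.Agent.H363R2.PPCnt.cnt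
    Pool.Agent.H325R2.pnt Pool.Agent.H325R2.wtx)

theorem poissonP_final (h : SM) : PoissonP := poisson_of (masterU_final h)

theorem gamP_final (h : SM) : GamP := gam_of (poissonP_final h)

end Pool.Agent.H361R2.PP
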