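import Pool.Agent.H361R2.PP.Pv

/-! The abstract probabilistic step for a union of many short clusters. -/

set_option autoImplicit false

open Finset

namespace Pool.Agent.H361R2.PP

theorem pv2 (hPz : Pz) (hCs : Cs) (k m : ℕ) (S : Finset ℕ) (V : ℕ → ℝ) (N : Fin k → ℕ → ℕ)
    (NU Q : ℕ → ℕ) (A μ μU s q r C : ℝ) (hA : 0 < A) (hs : 0 ≤ s) (hs1 : s ≤ 1) (hμ : 0 < μU)
    (hq : 0 ≤ q) (hm : (1 + s) * (m : ℝ) ≤ (1 - s) * μU)
    (h1 : ∑ n ∈ S, V n ^ 2 ≤ (1 + s) * A)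
    (h2 : (1 - s) * μU * A ≤ ∑ n ∈ S, V n ^ 2 * NU n)
    (h2' : ∑ n ∈ S, V n ^ 2 * NU n ≤ (1 + s) * μU * A)
    (h3 : ∑ n ∈ S, V n ^ 2 * (NU n * ((NU n : ℝ) - 1)) ≤ q * μU ^ 2 * A)
    (h3i : ∀ i, ∑ n ∈ S, V n ^ 2 * (N i n * ((N i n : ℝ) - 1)) ≤ q * μ ^ 2 * A)
    (h4 : ∑ n ∈ S, V n ^ 2 * Q n ≤ r * A)
    (h5 : ∑ n ∈ S, V n ^ 4 ≤ C) (hC : 0 < C)
    (hfin : 1 / 16 ≤ ((1 - s) * μU - (1 + s) * m) ^ 2 / (q * μU ^ 2 + (1 + s) * μU) - r -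
      k * (q * μ ^ 2)) :
    (A / 16) ^ 2 / C ≤
      ((S.filter (fun n => m ≤ NU n ∧ Q n = 0 ∧ ∀ i, N i n ≤ 1)).card : ℝ) := by
  apply hCs S V (fun n => m ≤ NU n ∧ Q n = 0 ∧ ∀ i, N i n ≤ 1) _ C (by positivity) hC _ h5
  have hw : ∀ n ∈ S, 0 ≤ V n ^ 2 := fun n _ => sq_nonneg _
  have hpz := hPz S (fun n => V n ^ 2) NU m A μU s q hw hA hs hs1 hμ hq hm h1 h2 h2' h3
  have hnn : ∀ x : ℕ, (0 : ℝ) ≤ x * ((x : ℝ) - 1) := by
    intro x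
    rcases Nat.eq_zero_or_pos x with h | h
    · rw [h]; norm_num
    · have : (1 : ℝ) ≤ x := by exact_mod_cast h
      nlinarith
  have hpt : ∀ n ∈ S, (if m ≤ NU n then V n ^ 2 else 0) - V n ^ 2 * Q n -
      ∑ i, V n ^ 2 * (N i n * ((N i n : ℝ) - 1)) ≤
      if (m ≤ NU n ∧ Q n = 0 ∧ ∀ i, N i n ≤ 1) then V n ^ 2 else 0 := by
    intro n _
    have hsum0 : 0 ≤ ∑ i, V n ^ 2 * (N i n * ((N i n : ℝ) - 1)) :=
      sum_nonneg fun i _ => mul_nonneg (sq_nonneg _) (hnn _)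
    have hQ0 : 0 ≤ V n ^ 2 * (Q n : ℝ) := mul_nonneg (sq_nonneg _) (Nat.cast_nonneg _)
    split_ifs with ha hb hb
    · linarith
    · by_cases hQ : Q n = 0
      · have : ∃ i, ¬ N i n ≤ 1 := by
          by_contra hcon
          push Not at hcon
          exact hb ⟨ha, hQ, hcon⟩
        obtain ⟨i, hi⟩ := this
        push Not at hi
        have h6 : (2 : ℝ) ≤ N i n := by exact_mod_cast hi
        have h7 : V n ^ 2 * 1 ≤ V n ^ 2 * (N i n * ((N i n : ℝ) - 1)) := by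
          apply mul_le_mul_of_nonneg_left _ (sq_nonneg _)
          nlinarith
        have h8 := single_le_sum (f := fun i => V n ^ 2 * (N i n * ((N i n : ℝ) - 1)))
          (fun i _ => mul_nonneg (sq_nonneg _) (hnn _)) (mem_univ i)
        linarith
      · have h6 : (1 : ℝ) ≤ Q n := by exact_mod_cast Nat.one_le_iff_ne_zero.2 hQ
        have h7 : V n ^ 2 * 1 ≤ V n ^ 2 * (Q n : ℝ) :=
          mul_le_mul_of_nonneg_left h6 (sq_nonneg _)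
        linarith
    · exact absurd hb.1 ha
    · linarith
  have hsum := sum_le_sum hpt
  rw [← sum_filter, sum_sub_distrib, sum_sub_distrib, ← sum_filter, sum_comm] at hsum
  refine le_trans ?_ hsum
  have h9 : ∑ i, ∑ n ∈ S, V n ^ 2 * (N i n * ((N i n : ℝ) - 1)) ≤ k * (q * μ ^ 2 * A) := by
    calc ∑ i, ∑ n ∈ S, V n ^ 2 * (N i n * ((N i n : ℝ) - 1)) ≤ ∑ _i : Fin k, q * μ ^ 2 * A :=
          sum_le_sum fun i _ => h3i i
      _ = _ := by rw [sum_const, card_univ, Fintype.card_fin, nsmul_eq_mul]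
  have h10 := mul_le_mul_of_nonneg_right hfin hA.le
  linarith [hpz]

end Pool.Agent.H361R2.PP
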