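import Pool.Agent.H361R2.PP.Cls3
import Pool.Agent.H361R2.PP.Pv2

/-! One class: a union of many short clusters. -/

set_option autoImplicit false

open Finset

namespace Pool.Agent.H361R2.PP

open Pool.Agent.H410R2.AC (wt GG cfg term WW pos Inj coef)

open Classical in
/-- the surviving shifts of the clusters -/
noncomputable def UU {k : ℕ} (X b N : ℕ) (α : Fin k → ℝ) (ε : ℝ) : Finset ℕ :=
  (BB X b N).filter (fun a : ℕ => ∃ i, CL (α i) ε (Real.log X) a)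

open Classical in
/-- the good integers: every cluster contains at most one prime, at least `m` clusters contain a
prime, and there is no further prime in the window -/
def GoodS {k : ℕ} (m : ℕ) (α : Fin k → ℝ) (ε Λ : ℝ) (X n : ℕ) : Prop :=
  m ≤ ((univ : Finset (Fin k)).filter (fun i => 1 =
      ((Icc 1 ⌊Λ * Real.log X⌋₊).filter (fun a =>
        CL (α i) ε (Real.log X) a ∧ (n + a).Prime)).card)).card ∧
    (∀ i, ((Icc 1 ⌊Λ * Real.log X⌋₊).filter (fun a =>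
        CL (α i) ε (Real.log X) a ∧ (n + a).Prime)).card ≤ 1) ∧
    ∀ a ∈ Icc 1 ⌊Λ * Real.log X⌋₊, (n + a).Prime → ∃ i, CL (α i) ε (Real.log X) a

theorem UU_eq {k : ℕ} (X b N : ℕ) (α : Fin k → ℝ) (ε : ℝ) :
    UU X b N α ε = (univ : Finset (Fin k)).biUnion (fun i => AA X b N (α i) ε) := by
  ext a
  unfold UU AA CL
  simp only [mem_filter, mem_biUnion, mem_univ, true_and]
  constructor
  · rintro ⟨h1, i, h2⟩
    exact ⟨i, h1, h2⟩
  · rintro ⟨i, h1, h2⟩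
    exact ⟨h1, i, h2⟩

open Classical in
theorem goodS_of {k : ℕ} (m : ℕ) (α : Fin k → ℝ) (ε Λ : ℝ) {X b n : ℕ} (hX : HH X < X)
    (hn : n ∈ SI X b)
    (h1 : m ≤ Np (UU X b ⌊Λ * Real.log X⌋₊ α ε) n)
    (h2 : Np (EE X b ⌊Λ * Real.log X⌋₊ α ε) n = 0)
    (h3 : ∀ i, Np (AA X b ⌊Λ * Real.log X⌋₊ (α i) ε) n ≤ 1) : GoodS m α ε Λ X n := by
  have hAA : ∀ i, (Icc 1 ⌊Λ * Real.log X⌋₊).filter (fun a =>
        CL (α i) ε (Real.log X) a ∧ (n + a).Prime) =
      (AA X b ⌊Λ * Real.log X⌋₊ (α i) ε).filter (fun a => (n + a).Prime) := by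
    intro i
    ext a
    unfold AA CL
    simp only [mem_filter, mem_Icc, mem_BB]
    constructor
    · rintro ⟨⟨h4, h5⟩, h6, h7⟩
      have := prime_BB hX hn h4 h5 h7
      rw [mem_BB] at this
      exact ⟨⟨this, h6⟩, h7⟩
    · rintro ⟨⟨⟨h4, h5, _⟩, h6⟩, h7⟩
      exact ⟨⟨h4, h5⟩, h6, h7⟩
  refine ⟨?_, ?_, ?_⟩
  · refine h1.trans ?_
    have h4 : (UU X b ⌊Λ * Real.log X⌋₊ α ε).filter (fun a => (n + a).Prime) ⊆
        ((univ : Finset (Fin k)).filter (fun i => 1 =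
        ((Icc 1 ⌊Λ * Real.log X⌋₊).filter (fun a =>
          CL (α i) ε (Real.log X) a ∧ (n + a).Prime)).card)).biUnion
          (fun i => (AA X b ⌊Λ * Real.log X⌋₊ (α i) ε).filter (fun a => (n + a).Prime)) := by
      intro a ha
      rw [mem_filter, UU_eq, mem_biUnion] at ha
      obtain ⟨⟨i, -, hi⟩, hp⟩ := ha
      rw [mem_biUnion]
      have hmem : a ∈ (AA X b ⌊Λ * Real.log X⌋₊ (α i) ε).filter (fun a => (n + a).Prime) :=
        mem_filter.2 ⟨hi, hp⟩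
      refine ⟨i, ?_, hmem⟩
      rw [mem_filter]
      refine ⟨mem_univ _, ?_⟩
      rw [hAA i]
      have h5 := h3 i
      unfold Np at h5
      have h6 : 0 < ((AA X b ⌊Λ * Real.log X⌋₊ (α i) ε).filter
        (fun a => (n + a).Prime)).card := card_pos.2 ⟨a, hmem⟩
      omega
    unfold Np
    refine (card_le_card h4).trans ?_
    refine (card_biUnion_le).trans ?_
    calc _ ≤ ∑ _i ∈ (univ : Finset (Fin k)).filter (fun i => 1 =
        ((Icc 1 ⌊Λ * Real.log X⌋₊).filter (fun a =>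
          CL (α i) ε (Real.log X) a ∧ (n + a).Prime)).card), 1 :=
          sum_le_sum fun i _ => h3 i
      _ = _ := by rw [sum_const, smul_eq_mul, mul_one]
  · intro i
    rw [hAA i]
    exact h3 i
  · intro a ha hp
    by_contra hcon
    rw [mem_Icc] at ha
    have h4 : a ∈ (EE X b ⌊Λ * Real.log X⌋₊ α ε).filter (fun a => (n + a).Prime) := by
      rw [mem_filter]
      refine ⟨?_, hp⟩
      unfold EE
      rw [mem_filter]
      exact ⟨prime_BB hX hn ha.1 ha.2 hp, hcon⟩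
    unfold Np at h2
    rw [card_eq_zero] at h2
    rw [h2] at h4
    exact absurd h4 (notMem_empty a)

open Classical in
theorem cls2 (hCol : Col) (hCob : Cob) (hMni : Mni) (hPz : Pz) (hCs : Cs)
    {t : ℕ} {u : Fin t → ℝ} {c0 δ : ℝ} {X : ℕ} {Λ θ s C η c : ℝ} {b : ℕ}
    {β : Fin t → ℝ} {D : Dat t u c0 δ X} (h : Sit Λ θ s C η c b β D) (hX : 1 ≤ X)
    (hHX : HH X < X) (hL : 0 < Real.log X)
    (hθ0 : 0 < θ) (hθ : θ ≤ 1 / 32) (hC : 0 < C) (hΛ : 0 < Λ)
    (k m : ℕ) (hk : 1 ≤ k) (α : Fin k → ℝ) (ε : ℝ) (hε : 0 < ε)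
    (hdis : ∀ i j, i ≠ j → α i + ε ≤ α j ∨ α j + ε ≤ α i)
    (hcf : ∀ a, D.cf a = if ∃ i, CL (α i) ε (Real.log X) a then c else -1)
    (hcA : ∀ i, |((AA X b ⌊Λ * Real.log X⌋₊ (α i) ε).card : ℝ) -
      ε * Real.log X * (Nat.totient (Wm X) / Wm X)| ≤
      s * (ε * Real.log X * (Nat.totient (Wm X) / Wm X)))
    (hcB : ((BB X b ⌊Λ * Real.log X⌋₊).card : ℝ) ≤
      (1 + s) * (Λ * Real.log X * (Nat.totient (Wm X) / Wm X)))
    (hpnt : |Pr X * Real.log X - X| ≤ s * X)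
    (hVG : VV δ X / GG (S1 δ θ X) * (((Nat.totient (Wm X) : ℝ) / Wm X) *
      ((1 / 4 - 3 * θ) * Real.log X)) ≤ 1)
    (s' μ : ℝ) (hs' : 7 * s ≤ s') (hs'1 : s' ≤ 1) (hμ : μ = ε * (1 + c) ^ 2)
    (hm : (1 + s') * (m : ℝ) ≤ (1 - s') * (k * μ))
    (hfin : 1 / 16 ≤ ((1 - s') * (k * μ) - (1 + s') * m) ^ 2 /
      ((1 + s) ^ 4 / (1 / 4 - 3 * θ) * (k * μ) ^ 2 + (1 + s') * (k * μ)) - 20 * Λ * s -
      k * ((1 + s) ^ 4 / (1 / 4 - 3 * θ) * μ ^ 2)) :
    (X : ℝ) / Wm X / (256 * C) ≤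
      (((SI X b).filter (fun n => GoodS m α ε Λ X n)).card : ℝ) := by
  set N := ⌊Λ * Real.log X⌋₊ with hN
  set B := BB X b N with hB
  set M := ZZ D B (fun _ => 1) with hM
  set Ω := (X : ℝ) / Wm X with hΩ
  set Ω' := Pr X / Nat.totient (Wm X) with hΩ'
  set L := Real.log X with hLd
  set f := (Nat.totient (Wm X) : ℝ) / Wm X with hf
  set V : ℕ → ℝ := fun n => WW B (fun _ => 1) (xx D n) with hV
  have hs0 := h.s0
  have hs1 := h.s1
  have hc := h.c00
  have hk0 : (1 : ℝ) ≤ k := by exact_mod_cast hk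
  have hW0 : (0 : ℝ) < Wm X := by exact_mod_cast Wm_pos X
  have hφ0 : (0 : ℝ) < Nat.totient (Wm X) := by exact_mod_cast Nat.totient_pos.2 (Wm_pos X)
  have hX0 : (0 : ℝ) < X := by exact_mod_cast hX
  have hΩ0 : 0 < Ω := div_pos hX0 hW0
  have hΩ'0 : 0 ≤ Ω' := Om'_nonneg X
  have hf0 : 0 < f := div_pos hφ0 hW0
  have hM1 : 1 ≤ M := by
    rw [hM, ZZ_one]
    exact (hMni t B β (qq D) η h.η0 h.β0 h.β1 (fun τ a => qq_nonneg h.v0 τ a) h.hη).1
  have hM0 : 0 < M := by linarith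
  have hLf : L * f * Ω' = Pr X * L / Wm X := by
    rw [hf, hΩ']
    field_simp
  have hLf1 : L * f * Ω' ≤ (1 + s) * Ω := by
    rw [hLf, hΩ, ← mul_div_assoc]
    apply div_le_div_of_nonneg_right _ hW0.le
    have := (abs_le.1 hpnt).2
    linarith
  have hLf2 : (1 - s) * Ω ≤ L * f * Ω' := by
    rw [hLf, hΩ, ← mul_div_assoc]
    apply div_le_div_of_nonneg_right _ hW0.le
    have := (abs_le.1 hpnt).1
    linarith
  have hθ4 : 5 / 32 ≤ 1 / 4 - 3 * θ := by linarith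
  set v := VV δ X / GG (S1 δ θ X) with hv
  have hG1 : 1 ≤ GG (S1 δ θ X) := GG1_ge hX hθ
  have hv0 : 0 ≤ v := div_nonneg h.v0 (by linarith)
  set w4 := 1 / 4 - 3 * θ with hw4
  have hw40 : 0 < w4 := by linarith
  have hvL : v * (f * L) ≤ 1 / w4 := by
    rw [le_div_iff₀ hw40]
    calc v * (f * L) * w4 = v * (f * (w4 * L)) := by ring
      _ ≤ 1 := hVG
  have hμ0 : 0 < μ := by rw [hμ]; positivity
  have hcov : ∀ i, ∀ a ∈ AA X b N (α i) ε, a ∈ B ∧ D.cf a = c := by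
    intro i a ha
    unfold AA at ha
    rw [mem_filter] at ha
    refine ⟨ha.1, ?_⟩
    rw [hcf a, if_pos ⟨i, ha.2⟩]
  have hcovU : ∀ a ∈ UU X b N α ε, a ∈ B ∧ D.cf a = c := by
    intro a ha
    rw [UU_eq, mem_biUnion] at ha
    obtain ⟨i, -, hi⟩ := ha
    exact hcov i a hi
  -- cardinalities
  have hA1 : ∀ i, (1 - s) * (ε * L * f) ≤ ((AA X b N (α i) ε).card : ℝ) := by
    intro i
    have := (abs_le.1 (hcA i)).1
    linarith
  have hA2 : ∀ i, ((AA X b N (α i) ε).card : ℝ) ≤ (1 + s) * (ε * L * f) := by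
    intro i
    have := (abs_le.1 (hcA i)).2
    linarith
  have hcU : ((UU X b N α ε).card : ℝ) = ∑ i, ((AA X b N (α i) ε).card : ℝ) := by
    rw [UU_eq, card_biUnion]
    · push_cast
      rfl
    · intro i _ j _ hij
      show Disjoint (AA X b N (α i) ε) (AA X b N (α j) ε)
      rw [disjoint_left]
      intro a ha ha'
      unfold AA at ha ha'
      rw [mem_filter] at ha ha'
      rcases hdis i j hij with h1 | h1
      · have := mul_le_mul_of_nonneg_right h1 hL.le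
        linarith [ha.2.2, ha'.2.1]
      · have := mul_le_mul_of_nonneg_right h1 hL.le
        linarith [ha.2.1, ha'.2.2]
  have hU1 : (1 - s) * (k * ε * L * f) ≤ ((UU X b N α ε).card : ℝ) := by
    rw [hcU]
    calc (1 - s) * (k * ε * L * f) = ∑ _i : Fin k, (1 - s) * (ε * L * f) := by
          rw [sum_const, card_univ, Fintype.card_fin, nsmul_eq_mul]; ring
      _ ≤ _ := sum_le_sum fun i _ => hA1 i
  have hU2 : ((UU X b N α ε).card : ℝ) ≤ (1 + s) * (k * ε * L * f) := by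
    rw [hcU]
    calc _ ≤ ∑ _i : Fin k, (1 + s) * (ε * L * f) := sum_le_sum fun i _ => hA2 i
      _ = (1 + s) * (k * ε * L * f) := by
          rw [sum_const, card_univ, Fintype.card_fin, nsmul_eq_mul]; ring
  have hLf0 : 0 < L * f := mul_pos hL hf0
  -- second moment
  have hsm := (h.sm B (Subset.refl _) (fun _ => 1) (by
    intro σ
    rw [abs_one]
    have := h.cc0
    nlinarith))
  have hsm1 := abs_le.1 hsm.1
  have hsM : s * Ω ≤ s * (Ω * M) := by
    apply mul_le_mul_of_nonneg_left _ hs0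
    nlinarith
  obtain ⟨A, hA⟩ : ∃ A : ℝ, A = Ω * M := ⟨_, rfl⟩
  rw [← hA] at hsM
  have hsm2 : ∑ n ∈ SI X b, V n ^ 2 ≤ A + s * Ω := by
    rw [hA]
    linarith [hsm1.2]
  have hsm3 : A - s * Ω ≤ ∑ n ∈ SI X b, V n ^ 2 := by
    rw [hA]
    linarith [hsm1.1]
  have hA0 : 0 < A := by
    rw [hA]
    exact mul_pos hΩ0 hM0
  obtain ⟨h1, h1'⟩ := in4 hs' hs0 hA0 hsM hsm2 hsm3
  have hs'0 : 0 ≤ s' := by linarith
  -- first moment, lower bound
  have key1 : ∀ (S' : Finset ℕ) (e : ℝ), 0 < e → (∀ a ∈ S', a ∈ B ∧ D.cf a = c) →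
      (1 - s) * (e * L * f) ≤ (S'.card : ℝ) →
      (1 - s') * (e * (1 + c) ^ 2) * A ≤ ∑ n ∈ SI X b, V n ^ 2 * Np S' n := by
    intro S' e he hcov' hcard
    rw [moment1]
    have h3 : (S'.card : ℝ) * (Ω' * ((1 + c) ^ 2 * M * (1 - 3 * s))) ≤
        ∑ a ∈ S', ∑ n ∈ SP X b a, V n ^ 2 := by
      rw [← nsmul_eq_mul, ← sum_const]
      refine sum_le_sum fun a ha => ?_
      exact (E3 hCol hCob hMni h (hcov' a ha).1 (hcov' a ha).2).1
    refine le_trans ?_ h3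
    by_cases hs3 : 1 - 3 * s ≤ 0
    · have h4 : 1 / 3 ≤ s := by linarith
      linarith
    · push Not at hs3
      have h4 : (1 - s) * (e * L * f) * (Ω' * ((1 + c) ^ 2 * M * (1 - 3 * s))) ≤
          (S'.card : ℝ) * (Ω' * ((1 + c) ^ 2 * M * (1 - 3 * s))) := by
        apply mul_le_mul_of_nonneg_right hcard
        exact mul_nonneg hΩ'0 (mul_nonneg (mul_nonneg (sq_nonneg _) hM0.le) hs3.le)
      refine le_trans ?_ h4
      have h5 : (1 - s) * (e * L * f) * (Ω' * ((1 + c) ^ 2 * M * (1 - 3 * s))) =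
          (L * f * Ω') * ((1 - s) * (1 - 3 * s) * (e * (1 + c) ^ 2 * M)) := by
        ring
      rw [h5]
      have h6 : (1 - s) * Ω * ((1 - s) * (1 - 3 * s) * (e * (1 + c) ^ 2 * M)) ≤
          (L * f * Ω') * ((1 - s) * (1 - 3 * s) * (e * (1 + c) ^ 2 * M)) := by
        apply mul_le_mul_of_nonneg_right hLf2
        have : 0 ≤ e * (1 + c) ^ 2 * M := by positivity
        have h8 : 0 ≤ (1 - s) * (1 - 3 * s) := mul_nonneg (by linarith) hs3.le
        exact mul_nonneg h8 this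
      refine le_trans ?_ h6
      have h7 : 1 - s' ≤ (1 - s) * ((1 - s) * (1 - 3 * s)) := in1 hs0 hs1 hs'
      calc (1 - s') * (e * (1 + c) ^ 2) * A = (1 - s') * (e * (1 + c) ^ 2 * (Ω * M)) := by
            rw [hA]; ring
        _ ≤ (1 - s) * ((1 - s) * (1 - 3 * s)) * (e * (1 + c) ^ 2 * (Ω * M)) := by
            apply mul_le_mul_of_nonneg_right h7
            positivity
        _ = _ := by ring
  -- first moment, upper bound
  have key2 : ∀ (S' : Finset ℕ) (e : ℝ), 0 < e → (∀ a ∈ S', a ∈ B ∧ D.cf a = c) →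
      (S'.card : ℝ) ≤ (1 + s) * (e * L * f) →
      ∑ n ∈ SI X b, V n ^ 2 * Np S' n ≤ (1 + s') * (e * (1 + c) ^ 2) * A := by
    intro S' e he hcov' hcard
    rw [moment1]
    have h3 : ∑ a ∈ S', ∑ n ∈ SP X b a, V n ^ 2 ≤
        (S'.card : ℝ) * (Ω' * ((1 + c) ^ 2 * M * (1 + s))) := by
      rw [← nsmul_eq_mul, ← sum_const]
      refine sum_le_sum fun a ha => ?_
      exact (E3 hCol hCob hMni h (hcov' a ha).1 (hcov' a ha).2).2
    refine h3.trans ?_
    have h4 : (S'.card : ℝ) * (Ω' * ((1 + c) ^ 2 * M * (1 + s))) ≤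
        (1 + s) * (e * L * f) * (Ω' * ((1 + c) ^ 2 * M * (1 + s))) := by
      apply mul_le_mul_of_nonneg_right hcard
      exact mul_nonneg hΩ'0 (mul_nonneg (mul_nonneg (sq_nonneg _) hM0.le) (by linarith))
    refine h4.trans ?_
    have h5 : (1 + s) * (e * L * f) * (Ω' * ((1 + c) ^ 2 * M * (1 + s))) =
        (L * f * Ω') * ((1 + s) * (1 + s) * (e * (1 + c) ^ 2 * M)) := by
      ring
    rw [h5]
    have h6 : (L * f * Ω') * ((1 + s) * (1 + s) * (e * (1 + c) ^ 2 * M)) ≤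
        (1 + s) * Ω * ((1 + s) * (1 + s) * (e * (1 + c) ^ 2 * M)) := by
      apply mul_le_mul_of_nonneg_right hLf1
      positivity
    refine h6.trans ?_
    have h7 : (1 + s) * ((1 + s) * (1 + s)) ≤ 1 + s' := in2 hs0 hs1 hs'
    calc (1 + s) * Ω * ((1 + s) * (1 + s) * (e * (1 + c) ^ 2 * M)) =
        (1 + s) * ((1 + s) * (1 + s)) * (e * (1 + c) ^ 2 * (Ω * M)) := by ring
      _ ≤ (1 + s') * (e * (1 + c) ^ 2 * (Ω * M)) := by
          apply mul_le_mul_of_nonneg_right h7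
          positivity
      _ = _ := by rw [hA]; ring
  -- second factorial moment
  have key3 : ∀ (S' : Finset ℕ) (e : ℝ), 0 < e → (∀ a ∈ S', a ∈ B ∧ D.cf a = c) →
      (S'.card : ℝ) ≤ (1 + s) * (e * L * f) →
      ∑ n ∈ SI X b, V n ^ 2 * (Np S' n * ((Np S' n : ℝ) - 1)) ≤
        (1 + s) ^ 4 / w4 * (e * (1 + c) ^ 2) ^ 2 * A := by
    intro S' e he hcov' hcard
    rw [moment2]
    obtain ⟨T, hT⟩ : ∃ T : ℝ, T = Ω' * v * ((1 + c) ^ 4 * M * (1 + s)) := ⟨_, rfl⟩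
    have hT0 : 0 ≤ T := by
      rw [hT]
      exact mul_nonneg (mul_nonneg hΩ'0 hv0) (by positivity)
    have h4 : ∑ a ∈ S', ∑ a' ∈ S'.erase a,
        ∑ n ∈ (SP X b a).filter (fun n => (n + a').Prime), V n ^ 2 ≤
        ∑ a ∈ S', ∑ a' ∈ S', T := by
      refine sum_le_sum fun a ha => ?_
      refine le_trans ?_ (sum_le_sum_of_subset_of_nonneg (erase_subset a _)
        fun _ _ _ => hT0)
      refine sum_le_sum fun a' ha' => ?_
      rw [mem_erase] at ha'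
      rw [hT]
      exact E4 hCol hCob hMni h hX hθ (hcov' a ha).1 (hcov' a' ha'.2).1 ha'.1.symm
        (hcov' a ha).2 (hcov' a' ha'.2).2
    refine h4.trans ?_
    rw [sum_const, sum_const, nsmul_eq_mul, nsmul_eq_mul, ← mul_assoc]
    have hcA0 : (0 : ℝ) ≤ (S'.card : ℝ) := Nat.cast_nonneg _
    have h5 : (S'.card : ℝ) * (S'.card : ℝ) ≤
        (1 + s) * (e * L * f) * ((1 + s) * (e * L * f)) :=
      mul_le_mul hcard hcard hcA0 (by positivity)
    refine (mul_le_mul_of_nonneg_right h5 hT0).trans ?_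
    have h6 : (1 + s) * (e * L * f) * ((1 + s) * (e * L * f)) * T =
        (L * f * Ω') * (v * (f * L)) * ((1 + s) ^ 3 * ((e * (1 + c) ^ 2) ^ 2 * M)) := by
      rw [hT]; ring
    rw [h6]
    have h7 : (L * f * Ω') * (v * (f * L)) ≤ (1 + s) * Ω * (1 / w4) :=
      mul_le_mul hLf1 hvL (by positivity) (by positivity)
    calc (L * f * Ω') * (v * (f * L)) * ((1 + s) ^ 3 * ((e * (1 + c) ^ 2) ^ 2 * M)) ≤
        (1 + s) * Ω * (1 / w4) * ((1 + s) ^ 3 * ((e * (1 + c) ^ 2) ^ 2 * M)) :=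
          mul_le_mul_of_nonneg_right h7 (by positivity)
      _ = _ := by rw [hA]; ring
  have hkε : 0 < (k : ℝ) * ε := by positivity
  have hkμ : (k : ℝ) * ε * (1 + c) ^ 2 = k * μ := by rw [hμ]; ring
  have h2 := key1 (UU X b N α ε) (k * ε) hkε hcovU hU1
  have h2' := key2 (UU X b N α ε) (k * ε) hkε hcovU hU2
  have h3 := key3 (UU X b N α ε) (k * ε) hkε hcovU hU2
  rw [hkμ] at h2 h2' h3
  have h3i : ∀ i, ∑ n ∈ SI X b, V n ^ 2 * (Np (AA X b N (α i) ε) n *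
      ((Np (AA X b N (α i) ε) n : ℝ) - 1)) ≤ (1 + s) ^ 4 / w4 * μ ^ 2 * A := by
    intro i
    rw [hμ]
    exact key3 (AA X b N (α i) ε) ε hε (hcov i) (hA2 i)
  -- the empty part
  have h4 : ∑ n ∈ SI X b, V n ^ 2 * Np (EE X b N α ε) n ≤ (20 * Λ * s) * A := by
    rw [moment1]
    obtain ⟨T, hT⟩ : ∃ T : ℝ, T = Ω * v * ((η + s) * M) := ⟨_, rfl⟩
    have hη0 := h.η0
    have hT0 : 0 ≤ T := by
      rw [hT]
      exact mul_nonneg (mul_nonneg hΩ0.le hv0) (by positivity)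
    have h5 : ∑ a ∈ EE X b N α ε, ∑ n ∈ SP X b a, V n ^ 2 ≤ ∑ a ∈ B, T := by
      have hsub : EE X b N α ε ⊆ B := by
        unfold EE
        exact filter_subset _ _
      refine le_trans ?_ (sum_le_sum_of_subset_of_nonneg hsub fun _ _ _ => hT0)
      refine sum_le_sum fun a ha => ?_
      have haB := hsub ha
      unfold EE at ha
      rw [mem_filter] at ha
      rw [hT]
      exact E2 hCol hCob hMni h hX hθ haB (by rw [hcf a, if_neg ha.2])
    refine h5.trans ?_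
    rw [sum_const, nsmul_eq_mul]
    refine (mul_le_mul_of_nonneg_right hcB hT0).trans ?_
    have h6 : (1 + s) * (Λ * L * f) * T = (v * (f * L)) * ((1 + s) * Λ * (η + s) * A) := by
      rw [hT, hA]; ring
    rw [h6]
    have h7 : v * (f * L) ≤ 32 / 5 := by
      refine hvL.trans ?_
      rw [div_le_iff₀ hw40]
      linarith
    have h8 : 0 ≤ (1 + s) * Λ * (η + s) * A := by positivity
    refine (mul_le_mul_of_nonneg_right h7 h8).trans ?_
    have h9 : (1 + s) * (η + s) ≤ 3 * s := in3 hs0 hs1 h.ηs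
    calc 32 / 5 * ((1 + s) * Λ * (η + s) * A) = 32 / 5 * (Λ * A) * ((1 + s) * (η + s)) := by ring
      _ ≤ 32 / 5 * (Λ * A) * (3 * s) := mul_le_mul_of_nonneg_left h9 (by positivity)
      _ = 96 / 5 * (Λ * A * s) := by ring
      _ ≤ 20 * (Λ * A * s) := mul_le_mul_of_nonneg_right (by norm_num) (by positivity)
      _ = _ := by ring
  have h5 : ∑ n ∈ SI X b, V n ^ 4 ≤ C * Ω := hsm.2.2.2.2
  have hkμ0 : 0 < (k : ℝ) * μ := by positivity
  have hkey := pv2 hPz hCs k m (SI X b) V (fun i => Np (AA X b N (α i) ε))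
    (Np (UU X b N α ε)) (Np (EE X b N α ε)) A μ (k * μ) s' ((1 + s) ^ 4 / w4) (20 * Λ * s)
    (C * Ω) hA0 hs'0 hs'1 hkμ0 (by positivity) hm h1 h2 h2' h3 h3i h4 h5 (by positivity) hfin
  have h6 : Ω / (256 * C) ≤ (A / 16) ^ 2 / (C * Ω) := by
    have h7 : Ω ≤ A := by rw [hA]; nlinarith
    have h8 : Ω / (256 * C) = (Ω / 16) ^ 2 / (C * Ω) := by
      field_simp
      ring
    rw [h8]
    gcongr
  refine h6.trans (hkey.trans ?_)
  have h9 : (SI X b).filter (fun n => m ≤ Np (UU X b N α ε) n ∧ Np (EE X b N α ε) n = 0 ∧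
      ∀ i, Np (AA X b N (α i) ε) n ≤ 1) ⊆ (SI X b).filter (fun n => GoodS m α ε Λ X n) := by
    intro n hn
    rw [mem_filter] at hn ⊢
    exact ⟨hn.1, goodS_of m α ε Λ hHX hn.1 hn.2.1 hn.2.2.1 hn.2.2.2⟩
  exact_mod_cast card_le_card h9

end Pool.Agent.H361R2.PP
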