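import Pool.Agent.H361R2.PP.Main3
import Pool.Agent.H361R2.PP.Cls4

/-! Many short clusters, at most one prime in each. -/

set_option autoImplicit false

open Finset

namespace Pool.Agent.H361R2.PP

open Classical in
/-- SPA: among sufficiently many places in the window there are primes at exactly one place each
in at least `m` of them, and nowhere else, for a positive proportion of integers -/
def Spa : Prop := ∀ (k m : ℕ) (α : Fin k → ℝ) (ε Λ : ℝ), 10 ^ 7 * (m + 1) ^ 2 ≤ k → 0 < ε →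
  0 < Λ → (∀ i, 0 ≤ α i ∧ α i + ε ≤ Λ) → (∀ i j, i ≠ j → α i + ε ≤ α j ∨ α j + ε ≤ α i) →
  ∃ c : ℝ, 0 < c ∧ ∃ X₀ : ℕ, ∀ X : ℕ, X₀ ≤ X →
  c * X ≤ (((Ico X (2 * X)).filter (fun n => GoodS m α ε Λ X n)).card : ℝ)

open Classical in
theorem goodS_mono {k m : ℕ} {α : Fin k → ℝ} {ε ε' Λ : ℝ} {X n : ℕ} (hε : ε' ≤ ε)
    (hL : 0 ≤ Real.log X)
    (hdis : ∀ i j, i ≠ j → α i + ε ≤ α j ∨ α j + ε ≤ α i) (h : GoodS m α ε' Λ X n) :
    GoodS m α ε Λ X n := by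
  have hCL : ∀ i a, CL (α i) ε' (Real.log X) a → CL (α i) ε (Real.log X) a := by
    intro i a ha
    refine ⟨ha.1, ha.2.trans ?_⟩
    exact mul_le_mul_of_nonneg_right (by linarith) hL
  have heq : ∀ i, (Icc 1 ⌊Λ * Real.log X⌋₊).filter (fun a =>
        CL (α i) ε (Real.log X) a ∧ (n + a).Prime) =
      (Icc 1 ⌊Λ * Real.log X⌋₊).filter (fun a =>
        CL (α i) ε' (Real.log X) a ∧ (n + a).Prime) := by
    intro i
    ext a
    simp only [mem_filter]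
    constructor
    · rintro ⟨h1, h2, h3⟩
      refine ⟨h1, ?_, h3⟩
      obtain ⟨j, hj⟩ := h.2.2 a h1 h3
      by_cases hij : j = i
      · rw [← hij]; exact hj
      · exfalso
        have hj' := hCL j a hj
        unfold CL at h2 hj'
        rcases hdis i j (fun h => hij h.symm) with h4 | h4
        · have := mul_le_mul_of_nonneg_right h4 hL
          linarith [h2.2, hj'.1]
        · have := mul_le_mul_of_nonneg_right h4 hL
          linarith [h2.1, hj'.2]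
    · rintro ⟨h1, h2, h3⟩
      exact ⟨h1, hCL i a h2, h3⟩
  refine ⟨?_, ?_, ?_⟩
  · refine h.1.trans (card_le_card ?_)
    intro i hi
    rw [mem_filter] at hi ⊢
    rw [heq i]
    exact hi
  · intro i
    rw [heq i]
    exact h.2.1 i
  · intro a ha hp
    obtain ⟨i, hi⟩ := h.2.2 a ha hp
    exact ⟨i, hCL i a hi⟩

open Classical in
theorem sum_classes2 {k : ℕ} (m : ℕ) (α : Fin k → ℝ) (ε Λ : ℝ) (X : ℕ) (q : ℝ)
    (h : ∀ b < Wm X, (X : ℝ) / Wm X * q ≤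
      (((SI X b).filter (fun n => GoodS m α ε Λ X n)).card : ℝ)) :
    q * X ≤ (((Ico X (2 * X)).filter (fun n => GoodS m α ε Λ X n)).card : ℝ) := by
  have hW := Wm_pos X
  have h1 : ((Ico X (2 * X)).filter (fun n => GoodS m α ε Λ X n)).card =
      ∑ b ∈ range (Wm X), ((SI X b).filter (fun n => GoodS m α ε Λ X n)).card := by
    rw [card_eq_sum_card_fiberwise (f := fun n => n % Wm X) (t := range (Wm X))]
    · refine sum_congr rfl fun b _ => ?_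
      congr 1
      ext n
      simp only [mem_filter, mem_SI, mem_Ico]
      tauto
    · intro n _
      simp only [coe_range, Set.mem_Iio]
      exact Nat.mod_lt _ hW
  rw [h1]
  push_cast
  calc q * X = ∑ b ∈ range (Wm X), (X : ℝ) / Wm X * q := by
        rw [sum_const, card_range, nsmul_eq_mul]
        have : (Wm X : ℝ) ≠ 0 := by exact_mod_cast hW.ne'
        field_simp
    _ ≤ _ := sum_le_sum fun b hb => h b (mem_range.1 hb)

/-- the final inequality -/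
theorem spa_ineq {k m : ℕ} {s s' Λ μU μ w4 : ℝ} (hk : 10 ^ 7 * (m + 1) ^ 2 ≤ k)
    (hs' : s' = 1 / 8 / 16) (hΛ : 0 < Λ) (hs : s = 1 / 8 / (3000 * (Λ + 1)))
    (hμU : μU = 2 * ((m : ℝ) + 1) / s') (hμ : μ = μU / k)
    (hq : (1 + s) ^ 4 / w4 ≤ 4 * (1 + 1 / 8))
    (h1 : 1 / 4 - 1 / 8 ≤ ((1 - s') * μU - (1 + s') * m) ^ 2 /
      ((1 + s) ^ 4 / w4 * μU ^ 2 + (1 + s') * μU)) :
    1 / 16 ≤ ((1 - s') * (k * μ) - (1 + s') * m) ^ 2 /
      ((1 + s) ^ 4 / w4 * (k * μ) ^ 2 + (1 + s') * (k * μ)) - 20 * Λ * s -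
      k * ((1 + s) ^ 4 / w4 * μ ^ 2) := by
  have hk1 : (10 ^ 7 * ((m : ℝ) + 1) ^ 2) ≤ k := by exact_mod_cast hk
  have hm0 : (0 : ℝ) ≤ m := Nat.cast_nonneg m
  have hk0 : (0 : ℝ) < k := lt_of_lt_of_le (by positivity) hk1
  have hkμ : (k : ℝ) * μ = μU := by rw [hμ]; field_simp
  rw [hkμ]
  have hμU' : μU = 256 * ((m : ℝ) + 1) := by rw [hμU, hs']; ring
  have h2 : (k : ℝ) * ((1 + s) ^ 4 / w4 * μ ^ 2) ≤ 1 / 32 := by
    have h3 : (k : ℝ) * ((1 + s) ^ 4 / w4 * μ ^ 2) = (1 + s) ^ 4 / w4 * (μU ^ 2 / k) := by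
      rw [hμ]; field_simp
    rw [h3]
    have h4 : μU ^ 2 / k ≤ 65536 / 10 ^ 7 := by
      rw [div_le_iff₀ hk0, hμU']
      nlinarith
    calc (1 + s) ^ 4 / w4 * (μU ^ 2 / k) ≤ 4 * (1 + 1 / 8) * (65536 / 10 ^ 7) :=
          mul_le_mul hq h4 (by positivity) (by norm_num)
      _ ≤ 1 / 32 := by norm_num
  have h5 : 20 * Λ * s ≤ 1 / 1000 := by
    rw [hs]
    have : Λ * (1 / 8 / (3000 * (Λ + 1))) ≤ 1 / 24000 := by
      rw [div_div, mul_one_div, div_le_div_iff₀ (by positivity) (by norm_num)]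
      nlinarith
    nlinarith
  linarith

open Classical in
theorem spa_small (hSM : SM) (hTy : Pool.Agent.H410R2.AC.Types) (hGGT : GGTypes)
    (hGGS : GGSharp) (hMer : Mer) (hMrv : Mrv) (hCnt : Cnt) (hPnt : PntX) (hCol : Col)
    (hCob : Cob) (hMni : Mni) (hPz : Pz) (hCs : Cs) (hWtx : Wtx) (k m : ℕ) (α : Fin k → ℝ)
    (ε Λ : ℝ) (hkm : 10 ^ 7 * (m + 1) ^ 2 ≤ k) (hε : 0 < ε) (hΛ : 0 < Λ)
    (hα : ∀ i, 0 ≤ α i ∧ α i + ε ≤ Λ)
    (hdis : ∀ i j, i ≠ j → α i + ε ≤ α j ∨ α j + ε ≤ α i)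
    (hεμ : ε ≤ 256 * ((m : ℝ) + 1) / k) :
    ∃ c : ℝ, 0 < c ∧ ∃ X₀ : ℕ, ∀ X : ℕ, X₀ ≤ X →
    c * X ≤ (((Ico X (2 * X)).filter (fun n => GoodS m α ε Λ X n)).card : ℝ) := by
  obtain ⟨ξ, hξ⟩ : ∃ ξ : ℝ, ξ = 1 / 8 := ⟨_, rfl⟩
  have hk1 : 1 ≤ k := le_trans (Nat.one_le_iff_ne_zero.2 (by positivity)) hkm
  have hk0 : (0 : ℝ) < k := by exact_mod_cast hk1
  have hξ0 : 0 < ξ := by rw [hξ]; positivity
  have hξ1 : ξ ≤ 1 / 8 := by rw [hξ]
  obtain ⟨s', hs'⟩ : ∃ s' : ℝ, s' = ξ / 16 := ⟨_, rfl⟩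
  obtain ⟨s, hs⟩ : ∃ s : ℝ, s = ξ / (3000 * (Λ + 1)) := ⟨_, rfl⟩
  obtain ⟨θ, hθ⟩ : ∃ θ : ℝ, θ = ξ / 96 := ⟨_, rfl⟩
  have hs'0 : 0 < s' := by rw [hs']; linarith
  have hs0 : 0 < s := by rw [hs]; positivity
  have hθ0 : 0 < θ := by rw [hθ]; linarith
  have hθ1 : θ ≤ 1 / 32 := by rw [hθ]; linarith
  have hsξ : s ≤ ξ / 3000 := by
    rw [hs]
    apply div_le_div_of_nonneg_left hξ0.le (by norm_num)
    linarith
  have hs1 : s ≤ 1 := by linarith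
  have h7 : 7 * s ≤ s' := by rw [hs']; linarith
  obtain ⟨μU, hμUd⟩ : ∃ μ : ℝ, μ = 2 * ((m : ℝ) + 1) / s' := ⟨_, rfl⟩
  obtain ⟨μ, hμd⟩ : ∃ μ : ℝ, μ = μU / k := ⟨_, rfl⟩
  obtain ⟨hm, hμU0, hξi⟩ := xi_ineq (m := m) hξ0 hξ1 hs' hs0.le hsξ hμUd.ge
  have hμ0 : 0 < μ := by rw [hμd]; positivity
  have hμ2 : ε ≤ μ := by
    rw [hμd, hμUd, hs', hξ]
    refine hεμ.trans (le_of_eq ?_)
    ring
  obtain ⟨c, hcd⟩ : ∃ c : ℝ, c = Real.sqrt (μ / ε) - 1 := ⟨_, rfl⟩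
  have hμε : 1 ≤ μ / ε := by rwa [le_div_iff₀ hε, one_mul]
  have hc : 0 ≤ c := by
    rw [hcd, sub_nonneg]
    exact Real.one_le_sqrt.2 hμε
  have hμc : μ = ε * (1 + c) ^ 2 := by
    rw [hcd, add_sub_cancel, Real.sq_sqrt (by positivity)]
    field_simp
  obtain ⟨CT, hCT1, hCT⟩ := hGGT
  obtain ⟨CM, hCM1, hCM⟩ := hMer
  obtain ⟨η', hη'⟩ : ∃ η' : ℝ, η' = s / 2 / (2 * (1 + c) ^ 2 * Λ * CM) := ⟨_, rfl⟩
  have hη'0 : 0 < η' := by rw [hη']; positivity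
  obtain ⟨t, u, β, V₀, hV₀, huβ, hβ1, hu, hty⟩ := hTy CT η' (θ / 2) hCT1 hη'0 (by linarith)
  have h1c : (1 : ℝ) ≤ (1 + c) ^ 2 := by nlinarith
  obtain ⟨δ₀, hδ₀, hsm⟩ := hSM t u ((1 + c) ^ 2) Λ θ s (fun τ => (huβ τ).1) hu hθ0 hθ1 h1c hΛ hs0
  obtain ⟨dβ, hdβ0, hdβ⟩ : ∃ d : ℝ, 0 < d ∧ ∀ τ, d ≤ β τ / η' := by
    refine ⟨1 / (∑ τ, η' / β τ + 1), ?_, fun τ => ?_⟩
    · have : 0 ≤ ∑ τ, η' / β τ := sum_nonneg fun τ _ => (div_pos hη'0 (huβ τ).2).le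
      positivity
    · have h1 : η' / β τ ≤ ∑ τ, η' / β τ :=
        single_le_sum (f := fun τ => η' / β τ) (fun τ _ => (div_pos hη'0 (huβ τ).2).le)
          (mem_univ τ)
      have h2 : 0 < η' / β τ := div_pos hη'0 (huβ τ).2
      calc 1 / (∑ τ, η' / β τ + 1) ≤ 1 / (η' / β τ) :=
            one_div_le_one_div_of_le h2 (by linarith)
        _ = β τ / η' := by rw [one_div_div]
  obtain ⟨δ, hδd⟩ : ∃ δ : ℝ, δ = min (min δ₀ V₀) (min (1 / 8) dβ) := ⟨_, rfl⟩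
  have hδ0 : 0 < δ := by
    rw [hδd]
    exact lt_min (lt_min hδ₀ hV₀) (lt_min (by norm_num) hdβ0)
  have hδ1 : δ ≤ δ₀ := by rw [hδd]; exact (min_le_left _ _).trans (min_le_left _ _)
  have hδ2 : δ ≤ V₀ := by rw [hδd]; exact (min_le_left _ _).trans (min_le_right _ _)
  have hδ3 : δ ≤ 1 / 8 := by rw [hδd]; exact (min_le_right _ _).trans (min_le_left _ _)
  have hδ4 : δ ≤ dβ := by rw [hδd]; exact (min_le_right _ _).trans (min_le_right _ _)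
  obtain ⟨C, X1, hC, hSMX⟩ := hsm δ hδ0 hδ1
  obtain ⟨X2, hGX⟩ := hCT δ hδ0 hδ3
  obtain ⟨X3, hMX⟩ := hCM δ hδ0 (by linarith)
  obtain ⟨X4, hVX⟩ := hMrv δ (s / ((1 + c) ^ 2 * η' * δ * t + 1)) hδ0 (by linarith)
    (by positivity)
  obtain ⟨X5, hCX⟩ := hCnt s (min ε Λ) Λ hs0 (lt_min hε hΛ) hΛ
  obtain ⟨X6, hPX⟩ := hPnt s hs0
  obtain ⟨X7, hWX⟩ := hWtx.2 δ hδ0 (by linarith)
  obtain ⟨X8, hFX⟩ := log_floor (a := 1 / 4 - 2 * θ) (θ := θ) (by linarith) hθ0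
  refine ⟨1 / (256 * C), by positivity,
    X1 + X2 + X3 + X4 + X5 + X6 + X7 + X8 + 2, fun X hX => ?_⟩
  have hX2 : 2 ≤ X := by omega
  have hX1 : 1 ≤ X := by omega
  have hL : 0 < Real.log X := Real.log_pos (by exact_mod_cast hX2)
  obtain ⟨hw1, -, hw3⟩ := hWX X (by omega)
  have hJ : 2 ^ 2 ^ JJ δ X ≤ X := by
    have h1 : (X : ℝ) ^ δ ≤ (X : ℝ) ^ (1 : ℝ) :=
      Real.rpow_le_rpow_of_exponent_le (by exact_mod_cast hX1) (by linarith)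
    rw [Real.rpow_one] at h1
    exact_mod_cast hw1.trans h1
  have hHX : HH X < X := lt_of_lt_of_le hw3 hJ
  obtain ⟨hV0, hM1, hM2⟩ := hMX X (by omega)
  obtain ⟨hF1, hF2⟩ := hFX X (by omega)
  apply sum_classes2
  intro b hb
  rw [mul_one_div]
  -- families
  obtain ⟨S, hS1, hS2, hS3, hS4⟩ := fam_of (X := X) (T := θ / 2) hδ0 hL (by linarith)
    (hty δ · · · hδ0 hδ2) (hGX X (by omega))
  have hBcnt : ((BB X b ⌊Λ * Real.log X⌋₊).card : ℝ) ≤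
      (1 + s) * (Λ * Real.log X * (Nat.totient (Wm X) / Wm X)) := by
    have h1 := hCX X (by omega) b 0 (Λ * Real.log X) le_rfl (by
      rw [zero_add]
      exact mul_le_mul_of_nonneg_right (min_le_right _ _) hL.le) le_rfl
    rw [sub_zero] at h1
    have h2 : (BB X b ⌊Λ * Real.log X⌋₊).filter
        (fun a : ℕ => (0 : ℝ) < a ∧ (a : ℝ) ≤ Λ * Real.log X) = BB X b ⌊Λ * Real.log X⌋₊ := by
      apply filter_true_of_mem
      intro a ha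
      rw [mem_BB] at ha
      refine ⟨by exact_mod_cast ha.1, ?_⟩
      exact (Nat.le_floor_iff (by positivity)).1 ha.2.1
    rw [h2] at h1
    linarith [(abs_le.1 h1).2]
  obtain ⟨D, hsit, hDcf⟩ := sit_of (CM := CM) (X := X) (b := b) (θ := θ) (C := C) hc hs0 hs1 hδ0
    hη'0 hΛ (by linarith) hη' (fun τ => (huβ τ).2) hβ1 (fun τ => hδ4.trans (hdβ τ)) hL S hS1
    hS2 hS3 hS4
    (fun a => if ∃ i, CL (α i) ε (Real.log X) a then c else -1)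
    (by intro a; split_ifs; exacts [Or.inl rfl, Or.inr rfl])
    (fun D B hB c hc => hSMX X (by omega) b hb D B hB c hc) hBcnt hV0 hM1 (hVX X (by omega)) hJ
  have hq := xi_aux hξ0 hξ1 hs0.le hsξ
  have hkμ : (k : ℝ) * μ = μU := by rw [hμd]; field_simp
  refine cls2 hCol hCob hMni hPz hCs hsit hX1 hHX hL hθ0 hθ1 hC hΛ k m hk1 α ε hε hdis
    (fun a => by rw [hDcf]) ?_ hBcnt (hPX X (by omega))
    (VG_le hGGS hθ0 hθ1 hX1 hM2 hV0 hF1 hF2) s' μ h7 (by linarith) hμc (by rw [hkμ]; exact hm) ?_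
  · intro i
    have h1 := hCX X (by omega) b (α i * Real.log X) ((α i + ε) * Real.log X)
      (mul_nonneg (hα i).1 hL.le) (by
        have h2 : min ε Λ * Real.log X ≤ ε * Real.log X :=
          mul_le_mul_of_nonneg_right (min_le_left _ _) hL.le
        linarith) (mul_le_mul_of_nonneg_right (hα i).2 hL.le)
    have h2 : (α i + ε) * Real.log X - α i * Real.log X = ε * Real.log X := by ring
    rw [h2] at h1
    exact h1
  · apply spa_ineq (μU := μU) hkm (by rw [hs', hξ]) hΛ (by rw [hs, hξ]) hμUd hμd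
    · rw [hθ]
      refine hq.trans (le_of_eq ?_)
      rw [hξ]
    · rw [hθ]
      rw [hξ] at hξi ⊢
      exact hξi

open Classical in
theorem spa_of (hSM : SM) (hTy : Pool.Agent.H410R2.AC.Types) (hGGT : GGTypes)
    (hGGS : GGSharp) (hMer : Mer) (hMrv : Mrv) (hCnt : Cnt) (hPnt : PntX) (hCol : Col)
    (hCob : Cob) (hMni : Mni) (hPz : Pz) (hCs : Cs) (hWtx : Wtx) : Spa := by
  intro k m α ε Λ hkm hε hΛ hα hdis
  have hk1 : 1 ≤ k := le_trans (Nat.one_le_iff_ne_zero.2 (by positivity)) hkm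
  have hk0 : (0 : ℝ) < k := by exact_mod_cast hk1
  obtain ⟨ε', hε'⟩ : ∃ ε' : ℝ, ε' = min ε (256 * ((m : ℝ) + 1) / k) := ⟨_, rfl⟩
  have h0 : 0 < ε' := by rw [hε']; exact lt_min hε (by positivity)
  have h1 : ε' ≤ ε := by rw [hε']; exact min_le_left _ _
  have h2 : ε' ≤ 256 * ((m : ℝ) + 1) / k := by rw [hε']; exact min_le_right _ _
  obtain ⟨c, hc, X₀, h⟩ := spa_small hSM hTy hGGT hGGS hMer hMrv hCnt hPnt hCol hCob hMni hPz hCs
    hWtx k m α ε' Λ hkm h0 hΛ (fun i => ⟨(hα i).1, by linarith [(hα i).2]⟩)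
    (fun i j hij => by rcases hdis i j hij with h3 | h3 <;> [left; right] <;> linarith) h2
  refine ⟨c, hc, X₀, fun X hX => (h X hX).trans (Nat.cast_le.2 (card_le_card ?_))⟩
  intro n hn
  rw [mem_filter] at hn ⊢
  exact ⟨hn.1, goodS_mono h1 (Real.log_natCast_nonneg X) hdis hn.2⟩

end Pool.Agent.H361R2.PP
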