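import Pool.Agent.H361R2.PP.Iface4
import Pool.Agent.H361R2.PP.Main4

/-!
Project PP: runs of consecutive gaps (interface).  `Spa` (Main4.lean) gives, among many places,
at least `m` places with exactly one prime each, and no other prime in the window.
-/

set_option autoImplicit false

open Finset

namespace Pool.Agent.H361R2.PP

/-- EXT: the first primes after `n` lie in clusters with increasing indices -/
def Ext : Prop := ∀ (k m : ℕ) (α : Fin k → ℝ) (ε Λ : ℝ) (X n : ℕ), 0 < ε → 0 < Λ → 2 ≤ X → X ≤ n →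
  (∀ i j, i < j → α i + ε ≤ α j) → GoodS (m + 1) α ε Λ X n →
  ∃ (j : ℕ) (a : ℕ → ℕ) (c : ℕ → Fin k),
    (∀ i ≤ m, P (j + i) = n + a i ∧ 1 ≤ a i ∧ (a i : ℝ) ≤ Λ * Real.log X ∧
      CL (α (c i)) ε (Real.log X) (a i)) ∧
    (∀ i < m, c i < c (i + 1)) ∧ (∀ j' < j, P j' ≤ n)

open Classical in
/-- RUNI: a positive proportion of the gaps exceed `K log p`, and each of the next `r` gaps is at
least `K` times the preceding one -/
def RunInc : Prop := ∀ (K : ℝ) (r : ℕ), ∃ c : ℝ, 0 < c ∧ ∃ N₀ : ℕ, ∀ N : ℕ, N₀ ≤ N →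
  c * N ≤ (((range N).filter (fun j =>
    K * Real.log (P j) ≤ (P (j + 1) : ℝ) - P j ∧
    ∀ i < r, K * ((P (j + i + 1) : ℝ) - P (j + i)) ≤ (P (j + i + 2) : ℝ) - P (j + i + 1))).card : ℝ)

open Classical in
/-- RUND: the same with decreasing gaps -/
def RunDec : Prop := ∀ (K : ℝ) (r : ℕ), ∃ c : ℝ, 0 < c ∧ ∃ N₀ : ℕ, ∀ N : ℕ, N₀ ≤ N →
  c * N ≤ (((range N).filter (fun j =>
    K * Real.log (P j) ≤ (P (j + r + 1) : ℝ) - P (j + r) ∧
    ∀ i < r, K * ((P (j + i + 2) : ℝ) - P (j + i + 1)) ≤ (P (j + i + 1) : ℝ) - P (j + i))).card : ℝ)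

end Pool.Agent.H361R2.PP
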