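import Pool.Agent.H361R2.PP.Asm3
import Pool.Agent.H361R2.PP.Iface5
import Pool.Agent.H804R2.PP.Ext
import Pool.Agent.H662R2.PPRun

/-! Runs of consecutive gaps, unconditional. -/

set_option autoImplicit false

open Finset

namespace Pool.Agent.H361R2.PP

theorem runInc : RunInc :=
  Pool.Agent.H662R2.PPRun.runInc_of spa Pool.Agent.H804R2.PP.ext Pool.Agent.H403R2.PP.tra

theorem log_P_add (j i : ℕ) (h : 2 ^ i ≤ P j) :
    Real.log (P (j + i)) ≤ 2 * Real.log (P j) := by
  have hpr : ∀ l, (P l).Prime := fun l => Nat.prime_nth_prime l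
  have hstep : ∀ l, P (l + 1) ≤ 2 * P l := by
    intro l
    obtain ⟨p, hp, h1, h2⟩ := Nat.exists_prime_lt_and_le_two_mul (P l) (hpr l).pos.ne'
    refine le_trans ?_ h2
    unfold P at *
    have h3 : Nat.count Nat.Prime p ≥ l + 1 := by
      by_contra hcon
      push Not at hcon
      have h4 : Nat.count Nat.Prime p ≤ l := by omega
      have h5 : Nat.nth Nat.Prime (Nat.count Nat.Prime p) ≤ Nat.nth Nat.Prime l :=
        Nat.nth_monotone Nat.infinite_setOfPred_prime h4
      rw [Nat.nth_count hp] at h5
      omega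
    have h5 : Nat.nth Nat.Prime (l + 1) ≤ Nat.nth Nat.Prime (Nat.count Nat.Prime p) :=
      Nat.nth_monotone Nat.infinite_setOfPred_prime h3
    rw [Nat.nth_count hp] at h5
    exact h5
  have hmul : ∀ i, P (j + i) ≤ 2 ^ i * P j := by
    intro i
    induction i with
    | zero => simp
    | succ i ih =>
      have := hstep (j + i)
      rw [pow_succ]
      calc P (j + (i + 1)) ≤ 2 * P (j + i) := this
        _ ≤ 2 * (2 ^ i * P j) := Nat.mul_le_mul_left _ ih
        _ = _ := by ring
  have h1 : P (j + i) ≤ P j * P j := (hmul i).trans (Nat.mul_le_mul_right _ h)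
  have h2 : (P (j + i) : ℝ) ≤ (P j : ℝ) * P j := by exact_mod_cast h1
  have h3 : (0 : ℝ) < P (j + i) := by exact_mod_cast (hpr _).pos
  have h4 : (0 : ℝ) < P j := by exact_mod_cast (hpr _).pos
  calc Real.log (P (j + i)) ≤ Real.log ((P j : ℝ) * P j) := Real.log_le_log h3 h2
    _ = 2 * Real.log (P j) := by rw [Real.log_mul h4.ne' h4.ne']; ring

open Classical in
/-- chains of large gaps -/
theorem chains (lam : ℝ) (r : ℕ) : ∃ c : ℝ, 0 < c ∧ ∃ N₀ : ℕ, ∀ N : ℕ, N₀ ≤ N →
    c * N ≤ (((range N).filter (fun j => ∀ i < r,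
      lam * Real.log (P (j + i)) ≤ (P (j + i + 1) : ℝ) - P (j + i))).card : ℝ) := by
  obtain ⟨K, hK⟩ : ∃ K : ℝ, K = 2 * |lam| + 1 := ⟨_, rfl⟩
  have hK1 : 1 ≤ K := by rw [hK]; have := abs_nonneg lam; linarith
  obtain ⟨c, hc, N1, h1⟩ := runInc K r
  obtain ⟨M, hM⟩ := exists_nat_ge (2 * ((2 ^ r : ℕ) : ℝ) / c)
  refine ⟨c / 2, by linarith, N1 + M, fun N hN => ?_⟩
  have h2 := h1 N (by omega)
  have h3 : ((range N).filter (fun j =>
      K * Real.log (P j) ≤ (P (j + 1) : ℝ) - P j ∧
      ∀ i < r, K * ((P (j + i + 1) : ℝ) - P (j + i)) ≤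
        (P (j + i + 2) : ℝ) - P (j + i + 1))).card ≤ 2 ^ r + ((range N).filter (fun j =>
        ∀ i < r, lam * Real.log (P (j + i)) ≤ (P (j + i + 1) : ℝ) - P (j + i))).card := by
    rw [← card_range (2 ^ r)]
    refine le_trans (card_le_card ?_) (card_union_le _ _)
    intro j hj
    rw [mem_filter, mem_range] at hj
    obtain ⟨hjN, hj1, hj2⟩ := hj
    rw [mem_union, mem_range]
    by_cases hjr : j < 2 ^ r
    · left; exact hjr
    · right
      rw [mem_filter, mem_range]
      refine ⟨hjN, fun i hi => ?_⟩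
      have hPj : j < P j := by
        have h5 : j ≤ Nat.nth Nat.Prime j :=
          (Nat.nth_strictMono Nat.infinite_setOfPred_prime).le_apply
        have h6 : Nat.nth Nat.Prime j ≠ j := by
          intro h7
          have h8 : Nat.nth Nat.Prime 0 = 2 := Nat.nth_prime_zero_eq_two
          have h9 : j + 2 ≤ Nat.nth Nat.Prime j := by
            clear h7
            clear h5 hjr hjN hj1 hj2
            induction j with
            | zero => omega
            | succ j ih =>
              have : Nat.nth Nat.Prime j < Nat.nth Nat.Prime (j + 1) :=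
                Nat.nth_strictMono Nat.infinite_setOfPred_prime (Nat.lt_succ_self j)
              omega
          omega
        unfold P
        omega
      have h5 : 2 ^ i ≤ P j :=
        (Nat.pow_le_pow_right (by norm_num) hi.le).trans (by omega)
      have h6 := log_P_add j i h5
      have hL0 : 0 ≤ Real.log (P j) := Real.log_natCast_nonneg _
      have h7 : ∀ l ≤ i, K * Real.log (P j) ≤ (P (j + l + 1) : ℝ) - P (j + l) := by
        intro l hl
        induction l with
        | zero => simpa using hj1
        | succ l ih =>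
          have h8 := ih (by omega)
          have h9 := hj2 l (by omega)
          have h10 : (0 : ℝ) ≤ (P (j + l + 1) : ℝ) - P (j + l) := by
            have : P (j + l) ≤ P (j + l + 1) :=
              Nat.nth_monotone Nat.infinite_setOfPred_prime (Nat.le_succ _)
            have h11 : (P (j + l) : ℝ) ≤ P (j + l + 1) := by exact_mod_cast this
            linarith
          have h12 : (P (j + l + 1) : ℝ) - P (j + l) ≤
              K * ((P (j + l + 1) : ℝ) - P (j + l)) := by nlinarith
          have h13 : j + (l + 1) + 1 = j + l + 2 := by ring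
          rw [h13]
          have h14 : j + (l + 1) = j + l + 1 := by ring
          rw [h14]
          linarith
      have h8 := h7 i le_rfl
      have h9 : lam * Real.log (P (j + i)) ≤ |lam| * Real.log (P (j + i)) :=
        mul_le_mul_of_nonneg_right (le_abs_self _) (Real.log_natCast_nonneg _)
      have h10 : |lam| * Real.log (P (j + i)) ≤ |lam| * (2 * Real.log (P j)) :=
        mul_le_mul_of_nonneg_left h6 (abs_nonneg _)
      have h11 : |lam| * (2 * Real.log (P j)) ≤ K * Real.log (P j) := by
        rw [hK]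
        nlinarith
      linarith
  have h4 : (((range N).filter (fun j =>
      K * Real.log (P j) ≤ (P (j + 1) : ℝ) - P j ∧
      ∀ i < r, K * ((P (j + i + 1) : ℝ) - P (j + i)) ≤
        (P (j + i + 2) : ℝ) - P (j + i + 1))).card : ℝ) ≤ ((2 ^ r : ℕ) : ℝ) +
        (((range N).filter (fun j => ∀ i < r, lam * Real.log (P (j + i)) ≤
          (P (j + i + 1) : ℝ) - P (j + i))).card : ℝ) := by
    exact_mod_cast h3
  have h5 : 2 * ((2 ^ r : ℕ) : ℝ) / c ≤ N := hM.trans (by exact_mod_cast (by omega : M ≤ N))
  rw [div_le_iff₀ hc] at h5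
  linarith

end Pool.Agent.H361R2.PP
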