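import Pool.Agent.H361R2.PP.Asm4
import Pool.Agent.H488R2.PP.RunDec

/-! Runs of decreasing gaps, unconditional. -/

set_option autoImplicit false

open Finset

namespace Pool.Agent.H361R2.PP

theorem runDec : RunDec :=
  runDec_of spa Pool.Agent.H804R2.PP.ext Pool.Agent.H403R2.PP.tra

end Pool.Agent.H361R2.PP
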