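import Pool.Agent.H361R2.PP.Iface

/-! The abstract probabilistic step. -/

set_option autoImplicit false

open Finset

namespace Pool.Agent.H361R2.PP

/-- number of clusters with at least `m` primes -/
def Gd {k : ℕ} (m : ℕ) (N : Fin k → ℕ → ℕ) (n : ℕ) : ℕ :=
  ((univ : Finset (Fin k)).filter (fun i => m ≤ N i n)).card

theorem Gd_le {k : ℕ} (m : ℕ) (N : Fin k → ℕ → ℕ) (n : ℕ) : Gd m N n ≤ k := by
  unfold Gd
  refine (card_filter_le _ _).trans ?_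
  simp

theorem pv_sum {k : ℕ} (m : ℕ) (N : Fin k → ℕ → ℕ) (S : Finset ℕ) (w : ℕ → ℝ) :
    ∑ n ∈ S, w n * (Gd m N n : ℝ) = ∑ i, ∑ n ∈ S.filter (fun n => m ≤ N i n), w n := by
  have h1 : ∀ n ∈ S, w n * (Gd m N n : ℝ) = ∑ i : Fin k, if m ≤ N i n then w n else 0 := by
    intro n _
    unfold Gd
    rw [← sum_filter, sum_const, nsmul_eq_mul, mul_comm]
  rw [sum_congr rfl h1, sum_comm]
  refine sum_congr rfl fun i _ => ?_
  rw [sum_filter]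

theorem pv (hPz : Pz) (hCs : Cs) (k m : ℕ) (S : Finset ℕ) (V : ℕ → ℝ) (N : Fin k → ℕ → ℕ)
    (Q : ℕ → ℕ) (A μ s q r C ξ : ℝ) (hA : 0 < A) (hs : 0 ≤ s) (hs1 : s ≤ 1) (hμ : 0 < μ)
    (hq : 0 ≤ q) (hm : (1 + s) * (m : ℝ) ≤ (1 - s) * μ)
    (h1 : ∑ n ∈ S, V n ^ 2 ≤ (1 + s) * A) (h1' : (1 - s) * A ≤ ∑ n ∈ S, V n ^ 2)
    (h2 : ∀ i, (1 - s) * μ * A ≤ ∑ n ∈ S, V n ^ 2 * N i n)
    (h2' : ∀ i, ∑ n ∈ S, V n ^ 2 * N i n ≤ (1 + s) * μ * A)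
    (h3 : ∀ i, ∑ n ∈ S, V n ^ 2 * (N i n * ((N i n : ℝ) - 1)) ≤ q * μ ^ 2 * A)
    (h4 : ∑ n ∈ S, V n ^ 2 * Q n ≤ r * A)
    (h5 : ∑ n ∈ S, V n ^ 4 ≤ C) (hC : 0 < C)
    (hξ : 1 / 4 - ξ ≤ ((1 - s) * μ - (1 + s) * m) ^ 2 / (q * μ ^ 2 + (1 + s) * μ))
    (hfin : 4 * k * ξ + (k + 1) * s + 4 * (k + 1) * r ≤ 3 / 4) :
    (A / (4 * (3 * k + 1))) ^ 2 / C ≤
      ((S.filter (fun n => k ≤ 4 * Gd m N n ∧ Q n = 0)).card : ℝ) := by
  apply hCs S V (fun n => k ≤ 4 * Gd m N n ∧ Q n = 0) _ C (by positivity) hC _ h5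
  -- the lower bound for each cluster
  have hw : ∀ n ∈ S, 0 ≤ V n ^ 2 := fun n _ => sq_nonneg _
  have hcl : ∀ i, (1 / 4 - ξ) * A ≤ ∑ n ∈ S.filter (fun n => m ≤ N i n), V n ^ 2 := by
    intro i
    refine le_trans ?_ (hPz S (fun n => V n ^ 2) (N i) m A μ s q hw hA hs hs1 hμ hq hm h1
      (h2 i) (h2' i) (h3 i))
    exact mul_le_mul_of_nonneg_right hξ hA.le
  have hG : (k : ℝ) * ((1 / 4 - ξ) * A) ≤ ∑ n ∈ S, V n ^ 2 * (Gd m N n : ℝ) := by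
    rw [pv_sum]
    calc (k : ℝ) * ((1 / 4 - ξ) * A) = ∑ i : Fin k, ((1 / 4 - ξ) * A) := by
          rw [sum_const, card_univ, Fintype.card_fin, nsmul_eq_mul]
      _ ≤ _ := sum_le_sum fun i _ => hcl i
  have hk0 : (0 : ℝ) ≤ k := Nat.cast_nonneg k
  -- pointwise
  have hpt : ∀ n ∈ S, V n ^ 2 * (4 * (Gd m N n : ℝ) - (k - 1) - 4 * (k + 1) * Q n) ≤
      if (k ≤ 4 * Gd m N n ∧ Q n = 0) then (3 * (k : ℝ) + 1) * V n ^ 2 else 0 := by
    intro n _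
    have hGk : (Gd m N n : ℝ) ≤ k := by exact_mod_cast Gd_le m N n
    split_ifs with h
    · rw [mul_comm]
      apply mul_le_mul_of_nonneg_right _ (sq_nonneg _)
      rw [h.2]
      push_cast
      linarith
    · apply mul_nonpos_of_nonneg_of_nonpos (sq_nonneg _)
      by_cases hQ : Q n = 0
      · have h6 : 4 * Gd m N n < k := by
          by_contra h7
          exact h ⟨by omega, hQ⟩
        have h7 : 4 * (Gd m N n : ℝ) + 1 ≤ k := by exact_mod_cast h6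
        rw [hQ]
        push_cast
        linarith
      · have h6 : (1 : ℝ) ≤ Q n := by exact_mod_cast Nat.one_le_iff_ne_zero.2 hQ
        nlinarith
  have hsum := sum_le_sum hpt
  rw [← sum_filter, ← mul_sum] at hsum
  have hexp : ∑ n ∈ S, V n ^ 2 * (4 * (Gd m N n : ℝ) - (k - 1) - 4 * (k + 1) * Q n) =
      4 * (∑ n ∈ S, V n ^ 2 * (Gd m N n : ℝ)) - (k - 1) * ∑ n ∈ S, V n ^ 2 -
        4 * (k + 1) * ∑ n ∈ S, V n ^ 2 * Q n := by
    rw [mul_sum, mul_sum, mul_sum, ← sum_sub_distrib, ← sum_sub_distrib]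
    refine sum_congr rfl fun n _ => ?_
    ring
  rw [hexp] at hsum
  set W0 := ∑ n ∈ S, V n ^ 2 with hW0
  have hkW : ((k : ℝ) - 1) * W0 ≤ (k - 1) * A + (k + 1) * s * A := by
    have h7 : |W0 - A| ≤ s * A := by
      rw [abs_le]
      constructor <;> nlinarith
    have h8 : ((k : ℝ) - 1) * (W0 - A) ≤ (k + 1) * (s * A) := by
      calc ((k : ℝ) - 1) * (W0 - A) ≤ |((k : ℝ) - 1) * (W0 - A)| := le_abs_self _
        _ = |(k : ℝ) - 1| * |W0 - A| := abs_mul _ _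
        _ ≤ (k + 1) * (s * A) := by
            apply mul_le_mul _ h7 (abs_nonneg _) (by positivity)
            rw [abs_le]
            constructor <;> linarith
    nlinarith
  have h9 : A / 4 ≤ (3 * (k : ℝ) + 1) * ∑ n ∈ S.filter (fun n => k ≤ 4 * Gd m N n ∧ Q n = 0),
      V n ^ 2 := by
    refine le_trans ?_ hsum
    have h10 : 4 * ((k : ℝ) + 1) * ∑ n ∈ S, V n ^ 2 * Q n ≤ 4 * (k + 1) * (r * A) :=
      mul_le_mul_of_nonneg_left h4 (by positivity)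
    have h11 : (4 * k * ξ + (k + 1) * s + 4 * (k + 1) * r) * A ≤ 3 / 4 * A :=
      mul_le_mul_of_nonneg_right hfin hA.le
    nlinarith
  rw [div_le_iff₀ (by positivity)]
  linarith

end Pool.Agent.H361R2.PP
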