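import Pool.Agent.H361R2.PP.Iface2
import Pool.Agent.H361R2.PP.Pv

/-! One class: elementary facts. -/

set_option autoImplicit false

open Finset

namespace Pool.Agent.H361R2.PP

open Pool.Agent.H410R2.AC (wt GG cfg term WW pos Inj coef)

theorem mem_P2 {J z p : ℕ} : p ∈ P2 J z ↔ p ≤ z ∧ p.Prime ∧ 2 ^ 2 ^ J ≤ p := by
  unfold P2
  rw [mem_filter, mem_range]
  constructor <;> rintro ⟨h1, h2⟩ <;> exact ⟨by omega, h2⟩

theorem mem_P1 {H J p : ℕ} : p ∈ P1 H J ↔ p < 2 ^ 2 ^ J ∧ p.Prime ∧ H < p := by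
  unfold P1
  rw [mem_filter, mem_range]

theorem wt_nonneg {P : Finset ℕ} (hP : ∀ p ∈ P, p.Prime) {R : Finset ℕ} (hR : R ⊆ P) :
    0 ≤ wt R := by
  unfold wt
  refine prod_nonneg fun p hp => ?_
  have h1 : (2 : ℝ) ≤ p := by exact_mod_cast (hP p (hR hp)).two_le
  apply one_div_nonneg.2
  linarith

theorem GG_nonneg {P : Finset ℕ} (hP : ∀ p ∈ P, p.Prime) {S : Finset (Finset ℕ)}
    (hS : ∀ R ∈ S, R ⊆ P) : 0 ≤ GG S :=
  sum_nonneg fun R hR => wt_nonneg hP (hS R hR)

/-- at a prime the rough indicator is one -/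
theorem rg_prime {P : Finset ℕ} {a n : ℕ} (hP : ∀ p ∈ P, p.Prime ∧ p < n + a)
    (hp : (n + a).Prime) : rg P a n = 1 := by
  unfold rg
  rw [if_pos]
  intro p hpP hd
  rcases (Nat.dvd_prime hp).1 hd with h | h
  · exact (hP p hpP).1.one_lt.ne' h
  · have := (hP p hpP).2
    omega

/-- at a prime the Selberg function is its mass -/
theorem FS_prime {P : Finset ℕ} {S : Finset (Finset ℕ)} {a n : ℕ}
    (hP : ∀ p ∈ P, p.Prime ∧ p < n + a) (hS : ∀ R ∈ S, R ⊆ P) (hp : (n + a).Prime) :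
    FS S a n = GG S := by
  unfold FS GG
  refine sum_congr rfl fun R hR => ?_
  rw [prod_eq_one, mul_one]
  intro p hpR
  rw [if_neg]
  intro hd
  have hpP := hP p (hS R hR hpR)
  rcases (Nat.dvd_prime hp).1 hd with h | h
  · exact hpP.1.one_lt.ne' h
  · have := hpP.2
    omega

theorem mem_BB {X b N a : ℕ} : a ∈ BB X b N ↔ 1 ≤ a ∧ a ≤ N ∧ (b + a).Coprime (Wm X) := by
  unfold BB
  rw [mem_filter, mem_Icc, and_assoc]

theorem mem_SI {X b n : ℕ} : n ∈ SI X b ↔ X ≤ n ∧ n < 2 * X ∧ n % Wm X = b := by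
  unfold SI
  rw [mem_filter, mem_Ico, and_assoc]

theorem mem_SP {X b a n : ℕ} :
    n ∈ SP X b a ↔ X ≤ n ∧ n < 2 * X ∧ n % Wm X = b ∧ (n + a).Prime := by
  unfold SP
  rw [mem_filter, mem_Ico, and_assoc]

theorem SP_eq {X b a : ℕ} : SP X b a = (SI X b).filter (fun n => (n + a).Prime) := by
  ext n
  rw [mem_filter, mem_SP, mem_SI]
  tauto

theorem SP_sub {X b a : ℕ} : SP X b a ⊆ SI X b := by
  rw [SP_eq]
  exact filter_subset _ _

/-- primes lie on surviving shifts -/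
theorem prime_BB {X b N a n : ℕ} (hX : HH X < X) (hn : n ∈ SI X b) (ha : 1 ≤ a) (haN : a ≤ N)
    (hp : (n + a).Prime) : a ∈ BB X b N := by
  rw [mem_SI] at hn
  rw [mem_BB]
  refine ⟨ha, haN, ?_⟩
  have h1 : (n + a).Coprime (Wm X) := by
    unfold Wm primorial
    rw [Nat.coprime_prod_right_iff]
    intro q hq
    rw [mem_filter, mem_range] at hq
    rw [Nat.coprime_primes hp hq.2]
    omega
  have h2 : (b + a) % Wm X = (n + a) % Wm X := by
    rw [Nat.add_mod n a, hn.2.2, Nat.add_mod b a]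
    congr 2
    rw [← hn.2.2]
    exact Nat.mod_mod _ _
  have h3 : Nat.gcd (b + a) (Wm X) = Nat.gcd (n + a) (Wm X) := by
    rw [Nat.gcd_comm (b + a), Nat.gcd_comm (n + a), Nat.gcd_rec (Wm X) (b + a),
      Nat.gcd_rec (Wm X) (n + a), h2]
  unfold Nat.Coprime at h1 ⊢
  rw [h3]
  exact h1

/-- counting primes, first moment -/
theorem moment1 (X b : ℕ) (A : Finset ℕ) (w : ℕ → ℝ) :
    ∑ n ∈ SI X b, w n * (Np A n : ℝ) = ∑ a ∈ A, ∑ n ∈ SP X b a, w n := by
  have h1 : ∀ n ∈ SI X b, w n * (Np A n : ℝ) = ∑ a ∈ A, if (n + a).Prime then w n else 0 := by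
    intro n _
    unfold Np
    rw [← sum_filter, sum_const, nsmul_eq_mul, mul_comm]
  rw [sum_congr rfl h1, sum_comm]
  refine sum_congr rfl fun a _ => ?_
  rw [SP_eq, sum_filter]

/-- counting primes, second factorial moment -/
theorem moment2 (X b : ℕ) (A : Finset ℕ) (w : ℕ → ℝ) :
    ∑ n ∈ SI X b, w n * ((Np A n : ℝ) * ((Np A n : ℝ) - 1)) =
      ∑ a ∈ A, ∑ a' ∈ A.erase a, ∑ n ∈ (SP X b a).filter (fun n => (n + a').Prime), w n := by
  have h1 : ∀ n ∈ SI X b, w n * ((Np A n : ℝ) * ((Np A n : ℝ) - 1)) =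
      ∑ a ∈ A, ∑ a' ∈ A.erase a, if (n + a).Prime ∧ (n + a').Prime then w n else 0 := by
    intro n _
    have h2 : ∀ a ∈ A, (∑ a' ∈ A.erase a, if (n + a).Prime ∧ (n + a').Prime then w n else 0) =
        if (n + a).Prime then w n * ((Np A n : ℝ) - 1) else 0 := by
      intro a ha
      split_ifs with hp
      · simp only [hp, true_and]
        have h3 : (A.erase a).filter (fun a' => (n + a').Prime) =
            (A.filter (fun a' => (n + a').Prime)).erase a := by
          ext x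
          simp only [mem_filter, mem_erase]
          tauto
        have h4 : a ∈ A.filter (fun a' => (n + a').Prime) := mem_filter.2 ⟨ha, hp⟩
        rw [← sum_filter, sum_const, nsmul_eq_mul, mul_comm, h3, card_erase_of_mem h4]
        have h5 : 1 ≤ (A.filter (fun a' => (n + a').Prime)).card := card_pos.2 ⟨a, h4⟩
        unfold Np
        rw [Nat.cast_sub h5]
        norm_num
      · apply sum_eq_zero
        intro x _
        rw [if_neg]
        tauto
    rw [sum_congr rfl h2, ← sum_filter, sum_const, nsmul_eq_mul]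
    unfold Np
    ring
  rw [sum_congr rfl h1, sum_comm]
  refine sum_congr rfl fun a _ => ?_
  rw [sum_comm]
  refine sum_congr rfl fun a' _ => ?_
  rw [SP_eq, filter_filter, sum_filter]

end Pool.Agent.H361R2.PP
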