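import Pool.Agent.H361R2.PP.Cls1

/-! One class: the weighted sums over primes. -/

set_option autoImplicit false

open Finset

namespace Pool.Agent.H361R2.PP

open Pool.Agent.H410R2.AC (wt GG cfg term WW pos Inj coef)

/-- the conclusion of `SM` for one class -/
def SMc {t : ℕ} {u : Fin t → ℝ} {c0 δ : ℝ} {X : ℕ} (Λ θ s C : ℝ) (b : ℕ)
    (D : Dat t u c0 δ X) : Prop :=
  ∀ B ⊆ BB X b ⌊Λ * Real.log X⌋₊, ∀ c : (Fin t → Option ℕ) → ℝ, (∀ σ, |c σ| ≤ c0) →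
    |∑ n ∈ SI X b, WW B c (xx D n) ^ 2 - (X : ℝ) / Wm X * ZZ D B c| ≤ s * ((X : ℝ) / Wm X) ∧
    (∀ a ∈ BB X b ⌊Λ * Real.log X⌋₊ \ B,
      |∑ n ∈ SI X b, (spec δ θ X a n * WW B c (xx D n)) ^ 2 -
        (X : ℝ) / Wm X * (VV δ X * GG (S1 δ θ X) * ZZ D B c)| ≤ s * ((X : ℝ) / Wm X * VV δ X)) ∧
    (∀ a ∈ BB X b ⌊Λ * Real.log X⌋₊ \ B,
      |∑ n ∈ SP X b a, WW B c (xx D n) ^ 2 - Pr X / Nat.totient (Wm X) * ZZ D B c| ≤
        s * (Pr X / Nat.totient (Wm X))) ∧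
    (∀ a ∈ BB X b ⌊Λ * Real.log X⌋₊ \ B, ∀ a' ∈ BB X b ⌊Λ * Real.log X⌋₊ \ B, a ≠ a' →
      |∑ n ∈ SP X b a, (spec δ θ X a' n * WW B c (xx D n)) ^ 2 -
        Pr X / Nat.totient (Wm X) * (VV δ X * GG (S1 δ θ X) * ZZ D B c)| ≤
        s * (Pr X / Nat.totient (Wm X) * VV δ X)) ∧
    ∑ n ∈ SI X b, WW B c (xx D n) ^ 4 ≤ C * ((X : ℝ) / Wm X)

/-- the standing situation for one class -/
structure Sit {t : ℕ} {u : Fin t → ℝ} {c0 δ : ℝ} {X : ℕ} (Λ θ s C η c : ℝ) (b : ℕ)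
    (β : Fin t → ℝ) (D : Dat t u c0 δ X) : Prop where
  sm : SMc Λ θ s C b D
  s0 : 0 ≤ s
  s1 : s ≤ 1
  c00 : 0 ≤ c
  cc0 : (1 + c) ^ 2 ≤ c0
  β0 : ∀ τ, 0 ≤ β τ
  β1 : ∑ τ, β τ = 1
  gg : ∀ τ, 0 < GG (D.S τ)
  g : ∀ τ, D.g τ = β τ / GG (D.S τ)
  η0 : 0 ≤ η
  hη : ∀ τ, ∑ a ∈ BB X b ⌊Λ * Real.log X⌋₊, qq D τ a ≤ η
  hq : ∀ a, ∑ τ, qq D τ a ≤ s
  pJ : 2 ^ 2 ^ JJ δ X ≤ X
  v0 : 0 ≤ VV δ X
  ηs : η ≤ s / 2

section

variable {t : ℕ} {u : Fin t → ℝ} {c0 δ : ℝ} {X : ℕ} {Λ θ s C η c : ℝ} {b : ℕ}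
    {β : Fin t → ℝ} {D : Dat t u c0 δ X}

theorem P1_lt (hJ : 2 ^ 2 ^ JJ δ X ≤ X) {n a : ℕ} (hn : X ≤ n) (ha : 1 ≤ a) :
    ∀ p ∈ P1 (HH X) (JJ δ X), p.Prime ∧ p < n + a := by
  intro p hp
  rw [mem_P1] at hp
  exact ⟨hp.2.1, by omega⟩

theorem P2_lt {δ : ℝ} {X : ℕ} {n a : ℕ} (hn : X ≤ n) (ha : 1 ≤ a) :
    ∀ p ∈ P2 (JJ δ X) X, p.Prime ∧ p < n + a := by
  intro p hp
  rw [mem_P2] at hp
  exact ⟨hp.2.1, by omega⟩

theorem xx_prime (h : Sit Λ θ s C η c b β D) {n a : ℕ} (hn : X ≤ n) (ha : 1 ≤ a)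
    (hp : (n + a).Prime) (τ : Fin t) : xx D n τ a = D.cf a * β τ := by
  unfold xx
  rw [rg_prime (P1_lt h.pJ hn ha) hp, FS_prime (P2_lt hn ha) (fun R hR => (D.hS τ R hR).1) hp,
    h.g τ, one_mul]
  have := (h.gg τ).ne'
  field_simp

theorem S1_sub (R : Finset ℕ) (hR : R ∈ S1 δ θ X) : R ⊆ P2 (JJ δ X) X := by
  unfold S1 at hR
  rw [mem_filter, mem_powerset] at hR
  exact hR.1

theorem spec_prime (h : Sit Λ θ s C η c b β D) {n a : ℕ} (hn : X ≤ n) (ha : 1 ≤ a)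
    (hp : (n + a).Prime) : spec δ θ X a n = GG (S1 δ θ X) := by
  unfold spec
  rw [rg_prime (P1_lt h.pJ hn ha) hp, FS_prime (P2_lt hn ha) S1_sub hp, one_mul]

theorem P2_prime : ∀ p ∈ P2 (JJ δ X) X, p.Prime := fun p hp => (mem_P2.1 hp).2.1

theorem GG1_ge (hX : 1 ≤ X) (hθ : θ ≤ 1 / 32) : 1 ≤ GG (S1 δ θ X) := by
  have h1 : (∅ : Finset ℕ) ∈ S1 δ θ X := by
    unfold S1
    rw [mem_filter, mem_powerset]
    refine ⟨empty_subset _, ?_⟩
    rw [prod_empty]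
    apply Real.one_le_rpow (by exact_mod_cast hX)
    linarith
  calc (1 : ℝ) = wt ∅ := by unfold wt; simp
    _ ≤ GG (S1 δ θ X) := single_le_sum (f := wt) (fun R hR => wt_nonneg P2_prime (S1_sub R hR)) h1

theorem qq_nonneg (hV : 0 ≤ VV δ X) (τ : Fin t) (a : ℕ) : 0 ≤ qq D τ a := by
  unfold qq
  have := GG_nonneg P2_prime (fun R hR => (D.hS τ R hR).1)
  positivity

theorem term_nonneg (hV : 0 ≤ VV δ X) (σ : Fin t → Option ℕ) : 0 ≤ term (qq D) σ := by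
  unfold term
  refine prod_nonneg fun τ _ => ?_
  cases σ τ with
  | none => exact zero_le_one
  | some a => exact qq_nonneg hV τ a

theorem ZZ_one (B : Finset ℕ) : ZZ D B (fun _ => 1) = ∑ σ ∈ cfg t B, term (qq D) σ := by
  unfold ZZ
  refine sum_congr rfl fun σ _ => ?_
  ring

theorem Wm_pos (X : ℕ) : 0 < Wm X := primorial_pos _

theorem Om_nonneg (X : ℕ) : 0 ≤ (X : ℝ) / Wm X := by positivity

theorem Om'_nonneg (X : ℕ) : 0 ≤ Pr X / Nat.totient (Wm X) := by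
  unfold Pr
  positivity

/-- (E3): clusters, one prime -/
theorem E3 (hCol : Col) (hCob : Cob) (hMni : Mni) (h : Sit Λ θ s C η c b β D) {a : ℕ}
    (ha : a ∈ BB X b ⌊Λ * Real.log X⌋₊) (hcf : D.cf a = c) :
    Pr X / Nat.totient (Wm X) * ((1 + c) ^ 2 *
      ZZ D (BB X b ⌊Λ * Real.log X⌋₊) (fun _ => 1) * (1 - 3 * s)) ≤
      ∑ n ∈ SP X b a, WW (BB X b ⌊Λ * Real.log X⌋₊) (fun _ => 1) (xx D n) ^ 2 ∧
    ∑ n ∈ SP X b a, WW (BB X b ⌊Λ * Real.log X⌋₊) (fun _ => 1) (xx D n) ^ 2 ≤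
      Pr X / Nat.totient (Wm X) * ((1 + c) ^ 2 *
      ZZ D (BB X b ⌊Λ * Real.log X⌋₊) (fun _ => 1) * (1 + s)) := by
  set B := BB X b ⌊Λ * Real.log X⌋₊ with hB
  have ha1 : 1 ≤ a := (mem_BB.1 ha).1
  have hc := h.c00
  have hs := h.s0
  have hcoll : ∀ n ∈ SP X b a, WW B (fun _ => 1) (xx D n) ^ 2 =
      WW (B.erase a) (co1 c β) (xx D n) ^ 2 := by
    intro n hn
    rw [mem_SP] at hn
    rw [(hCol t B β (xx D n) D.cf).1 a ha (fun τ => xx_prime h hn.1 ha1 hn.2.2.2 τ), hcf]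
  rw [sum_congr rfl hcoll]
  have hcob := (hCob t β h.β0 h.β1)
  have hc0 : ∀ σ, |co1 c β σ| ≤ c0 := by
    intro σ
    obtain ⟨-, h1, h2, -, -⟩ := hcob.2 c hc σ
    rw [abs_of_nonneg h1]
    have := h.cc0
    nlinarith
  have h3 := (h.sm (B.erase a) (erase_subset _ _) (co1 c β) hc0).2.2.1 a
    (by rw [mem_sdiff]; exact ⟨ha, notMem_erase a B⟩)
  set Ω := Pr X / Nat.totient (Wm X) with hΩ
  have hΩ0 : 0 ≤ Ω := Om'_nonneg X
  obtain ⟨hM1, -, hM⟩ := hMni t B β (qq D) η h.η0 h.β0 h.β1 (fun τ a => qq_nonneg h.v0 τ a) h.hη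
  obtain ⟨hm1, -, hm3, hm4⟩ := hM (B.erase a) (erase_subset _ _)
  rw [ZZ_one]
  set M := ∑ σ ∈ cfg t B, term (qq D) σ with hMdef
  set M' := ∑ σ ∈ cfg t (B.erase a), term (qq D) σ with hM'def
  have hsd : B \ B.erase a = {a} := by
    ext x
    simp only [mem_sdiff, mem_erase, mem_singleton]
    constructor
    · rintro ⟨h1, h2⟩
      by_contra h3
      exact h2 ⟨h3, h1⟩
    · rintro rfl
      exact ⟨ha, fun h => h.1 rfl⟩
  rw [hsd] at hm4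
  simp only [sum_singleton] at hm4
  have hMq := h.hq a
  have hM'1 : (1 - s) * M ≤ M' := by
    refine le_trans ?_ hm4
    apply mul_le_mul_of_nonneg_right _ (by linarith)
    linarith
  -- upper and lower bounds for the main term
  have hup : ZZ D (B.erase a) (co1 c β) ≤ (1 + c) ^ 2 * M := by
    calc ZZ D (B.erase a) (co1 c β) ≤ ∑ σ ∈ cfg t (B.erase a), (1 + c) ^ 2 * term (qq D) σ := by
          unfold ZZ
          refine sum_le_sum fun σ _ => ?_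
          obtain ⟨-, h1, h2, -, -⟩ := hcob.2 c hc σ
          apply mul_le_mul_of_nonneg_right _ (term_nonneg h.v0 σ)
          exact pow_le_pow_left₀ h1 h2 2
      _ = (1 + c) ^ 2 * M' := by rw [mul_sum]
      _ ≤ _ := mul_le_mul_of_nonneg_left hm3 (by positivity)
  have hlow : (1 + c) ^ 2 * M' - 2 * c * (1 + c) * (η * M) ≤ ZZ D (B.erase a) (co1 c β) := by
    calc (1 + c) ^ 2 * M' - 2 * c * (1 + c) * (η * M) ≤
        (1 + c) ^ 2 * M' - 2 * c * (1 + c) * ∑ σ ∈ cfg t (B.erase a), coef β σ * term (qq D) σ := by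
          have := mul_le_mul_of_nonneg_left hm1 (by positivity : 0 ≤ 2 * c * (1 + c))
          linarith
      _ = ∑ σ ∈ cfg t (B.erase a), ((1 + c) ^ 2 - 2 * c * (1 + c) * coef β σ) *
            term (qq D) σ := by
          rw [hM'def, mul_sum, mul_sum, ← sum_sub_distrib]
          refine sum_congr rfl fun σ _ => ?_
          ring
      _ ≤ _ := by
          unfold ZZ
          refine sum_le_sum fun σ _ => ?_
          obtain ⟨h1, -, -, -, -⟩ := hcob.2 c hc σ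
          exact mul_le_mul_of_nonneg_right h1 (term_nonneg h.v0 σ)
  have hM0 : 0 ≤ M := by linarith
  have h1c : (1 : ℝ) ≤ (1 + c) ^ 2 := by nlinarith
  have hsM : s ≤ s * ((1 + c) ^ 2 * M) := by
    have : (1 : ℝ) ≤ (1 + c) ^ 2 * M := by nlinarith
    nlinarith
  have h4 := abs_le.1 h3
  constructor
  · have h5 : (1 + c) ^ 2 * M * (1 - 3 * s) ≤ ZZ D (B.erase a) (co1 c β) - s := by
      have h6 : (1 + c) ^ 2 * ((1 - s) * M) ≤ (1 + c) ^ 2 * M' :=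
        mul_le_mul_of_nonneg_left hM'1 (by positivity)
      have h7 : 2 * c * (1 + c) * (η * M) ≤ s * ((1 + c) ^ 2 * M) := by
        have h8 : 2 * c * (1 + c) * (η * M) ≤ 2 * c * (1 + c) * (s / 2 * M) := by
          apply mul_le_mul_of_nonneg_left _ (by positivity)
          exact mul_le_mul_of_nonneg_right h.ηs hM0
        have h9 : c * (1 + c) * (s * M) ≤ (1 + c) ^ 2 * (s * M) := by
          apply mul_le_mul_of_nonneg_right _ (by positivity)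
          nlinarith
        nlinarith
      nlinarith
    have h6 := mul_le_mul_of_nonneg_left h5 hΩ0
    rw [mul_sub] at h6
    linarith [h4.1]
  · have h5 : ZZ D (B.erase a) (co1 c β) + s ≤ (1 + c) ^ 2 * M * (1 + s) := by nlinarith
    have h6 := mul_le_mul_of_nonneg_left h5 hΩ0
    rw [mul_add] at h6
    linarith [h4.2]

/-- (E4): clusters, two primes -/
theorem E4 (hCol : Col) (hCob : Cob) (hMni : Mni) (h : Sit Λ θ s C η c b β D) (hX : 1 ≤ X)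
    (hθ : θ ≤ 1 / 32) {a a' : ℕ}
    (ha : a ∈ BB X b ⌊Λ * Real.log X⌋₊) (ha' : a' ∈ BB X b ⌊Λ * Real.log X⌋₊) (hne : a ≠ a')
    (hcf : D.cf a = c) (hcf' : D.cf a' = c) :
    ∑ n ∈ (SP X b a).filter (fun n => (n + a').Prime),
        WW (BB X b ⌊Λ * Real.log X⌋₊) (fun _ => 1) (xx D n) ^ 2 ≤
      Pr X / Nat.totient (Wm X) * (VV δ X / GG (S1 δ θ X)) * ((1 + c) ^ 4 *
      ZZ D (BB X b ⌊Λ * Real.log X⌋₊) (fun _ => 1) * (1 + s)) := by
  set B := BB X b ⌊Λ * Real.log X⌋₊ with hB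
  have ha1 : 1 ≤ a := (mem_BB.1 ha).1
  have ha1' : 1 ≤ a' := (mem_BB.1 ha').1
  have hc := h.c00
  have hs := h.s0
  set G := GG (S1 δ θ X) with hG
  have hG1 : 1 ≤ G := GG1_ge hX hθ
  have hGy : ∀ y : ℝ, y ^ 2 = 1 / G ^ 2 * (G * y) ^ 2 := by
    intro y
    have : G ≠ 0 := by linarith
    field_simp
  have hcob := (hCob t β h.β0 h.β1)
  set B' := (B.erase a).erase a' with hB'
  have hB's : B' ⊆ B := (erase_subset _ _).trans (erase_subset _ _)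
  have hc0 : ∀ σ, |co2 c c β σ| ≤ c0 := by
    intro σ
    obtain ⟨-, -, -, h1, h2⟩ := hcob.2 c hc σ
    rw [abs_of_nonneg h1]
    exact h2.trans h.cc0
  have h1 : ∑ n ∈ (SP X b a).filter (fun n => (n + a').Prime), WW B (fun _ => 1) (xx D n) ^ 2 ≤
      1 / G ^ 2 * ∑ n ∈ SP X b a, (spec δ θ X a' n * WW B' (co2 c c β) (xx D n)) ^ 2 := by
    rw [mul_sum]
    calc ∑ n ∈ (SP X b a).filter (fun n => (n + a').Prime), WW B (fun _ => 1) (xx D n) ^ 2 =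
        ∑ n ∈ (SP X b a).filter (fun n => (n + a').Prime),
          1 / G ^ 2 * (spec δ θ X a' n * WW B' (co2 c c β) (xx D n)) ^ 2 := by
          refine sum_congr rfl fun n hn => ?_
          rw [mem_filter, mem_SP] at hn
          rw [(hCol t B β (xx D n) D.cf).2 a ha a' ha' hne (fun τ =>
            ⟨xx_prime h hn.1.1 ha1 hn.1.2.2.2 τ, xx_prime h hn.1.1 ha1' hn.2 τ⟩), hcf, hcf',
            spec_prime h hn.1.1 ha1' hn.2]
          exact hGy _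
      _ ≤ _ := sum_le_sum_of_subset_of_nonneg (filter_subset _ _) fun n _ _ => by positivity
  have h2 := (h.sm B' hB's (co2 c c β) hc0).2.2.2.1 a
    (by rw [mem_sdiff]; exact ⟨ha, fun h => (mem_erase.1 (mem_erase.1 h).2).1 rfl⟩) a'
    (by rw [mem_sdiff]; exact ⟨ha', fun h => (mem_erase.1 h).1 rfl⟩) hne
  set Ω := Pr X / Nat.totient (Wm X) with hΩ
  have hΩ0 : 0 ≤ Ω := Om'_nonneg X
  obtain ⟨hM1, -, hM⟩ := hMni t B β (qq D) η h.η0 h.β0 h.β1 (fun τ a => qq_nonneg h.v0 τ a) h.hη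
  obtain ⟨-, -, hm3, -⟩ := hM B' hB's
  rw [ZZ_one]
  set M := ∑ σ ∈ cfg t B, term (qq D) σ with hMdef
  have hV := h.v0
  have hΩVG : 0 ≤ Ω * (VV δ X * G) :=
    mul_nonneg hΩ0 (mul_nonneg hV (zero_le_one.trans hG1))
  have hup : ZZ D B' (co2 c c β) ≤ (1 + c) ^ 4 * M := by
    calc ZZ D B' (co2 c c β) ≤ ∑ σ ∈ cfg t B', (1 + c) ^ 4 * term (qq D) σ := by
          unfold ZZ
          refine sum_le_sum fun σ _ => ?_
          obtain ⟨-, -, -, h1, h2⟩ := hcob.2 c hc σ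
          apply mul_le_mul_of_nonneg_right _ (term_nonneg h.v0 σ)
          calc co2 c c β σ ^ 2 ≤ ((1 + c) ^ 2) ^ 2 := pow_le_pow_left₀ h1 h2 2
            _ = (1 + c) ^ 4 := by ring
      _ = (1 + c) ^ 4 * ∑ σ ∈ cfg t B', term (qq D) σ := by rw [mul_sum]
      _ ≤ _ := mul_le_mul_of_nonneg_left hm3 (by positivity)
  have h4 := (abs_le.1 h2).2
  have h1c : (1 : ℝ) ≤ (1 + c) ^ 4 := one_le_pow₀ (by linarith)
  have hM0 : 0 ≤ M := by linarith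
  have hsM : s ≤ s * ((1 + c) ^ 4 * M) := by
    have : (1 : ℝ) ≤ (1 + c) ^ 4 * M := by nlinarith
    nlinarith
  refine h1.trans ?_
  have h5 : ∑ n ∈ SP X b a, (spec δ θ X a' n * WW B' (co2 c c β) (xx D n)) ^ 2 ≤
      Ω * (VV δ X * G) * ((1 + c) ^ 4 * M * (1 + s)) := by
    have h6 : s * (Ω * VV δ X) ≤ Ω * (VV δ X * G) * s := by
      have h0 : 0 ≤ s * (Ω * VV δ X) := mul_nonneg hs (mul_nonneg hΩ0 hV)
      calc s * (Ω * VV δ X) = s * (Ω * VV δ X) * 1 := by ring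
        _ ≤ s * (Ω * VV δ X) * G := mul_le_mul_of_nonneg_left hG1 h0
        _ = _ := by ring
    have h7 : Ω * (VV δ X * G * ZZ D B' (co2 c c β)) ≤
        Ω * (VV δ X * G) * ((1 + c) ^ 4 * M) := by
      rw [← mul_assoc]
      exact mul_le_mul_of_nonneg_left hup hΩVG
    have h8 : Ω * (VV δ X * G) * s ≤ Ω * (VV δ X * G) * (s * ((1 + c) ^ 4 * M)) :=
      mul_le_mul_of_nonneg_left hsM hΩVG
    have h9 : Ω * (VV δ X * G) * ((1 + c) ^ 4 * M * (1 + s)) =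
      Ω * (VV δ X * G) * ((1 + c) ^ 4 * M) + Ω * (VV δ X * G) * (s * ((1 + c) ^ 4 * M)) := by
      ring
    rw [h9]
    linarith
  calc 1 / G ^ 2 * ∑ n ∈ SP X b a, (spec δ θ X a' n * WW B' (co2 c c β) (xx D n)) ^ 2
      ≤ 1 / G ^ 2 * (Ω * (VV δ X * G) * ((1 + c) ^ 4 * M * (1 + s))) :=
        mul_le_mul_of_nonneg_left h5 (by positivity)
    _ = _ := by
        have : G ≠ 0 := by linarith
        field_simp

/-- (E2): empty part, one prime -/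
theorem E2 (hCol : Col) (hCob : Cob) (hMni : Mni) (h : Sit Λ θ s C η c b β D) (hX : 1 ≤ X)
    (hθ : θ ≤ 1 / 32) {a : ℕ}
    (ha : a ∈ BB X b ⌊Λ * Real.log X⌋₊) (hcf : D.cf a = -1) :
    ∑ n ∈ SP X b a, WW (BB X b ⌊Λ * Real.log X⌋₊) (fun _ => 1) (xx D n) ^ 2 ≤
      (X : ℝ) / Wm X * (VV δ X / GG (S1 δ θ X)) *
        ((η + s) * ZZ D (BB X b ⌊Λ * Real.log X⌋₊) (fun _ => 1)) := by
  set B := BB X b ⌊Λ * Real.log X⌋₊ with hB
  have ha1 : 1 ≤ a := (mem_BB.1 ha).1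
  have hc := h.c00
  have hs := h.s0
  set G := GG (S1 δ θ X) with hG
  have hG1 : 1 ≤ G := GG1_ge hX hθ
  have hGy : ∀ y : ℝ, y ^ 2 = 1 / G ^ 2 * (G * y) ^ 2 := by
    intro y
    have : G ≠ 0 := by linarith
    field_simp
  have hcob := (hCob t β h.β0 h.β1)
  set B' := B.erase a with hB'
  have hB's : B' ⊆ B := erase_subset _ _
  have hco : co1 (-1) β = coef β := by
    funext σ
    exact (hcob.1 σ).1
  have hc0 : ∀ σ, |coef β σ| ≤ c0 := by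
    intro σ
    obtain ⟨-, h1, h2⟩ := hcob.1 σ
    rw [abs_of_nonneg h1]
    have := h.cc0
    nlinarith
  have h1 : ∑ n ∈ SP X b a, WW B (fun _ => 1) (xx D n) ^ 2 ≤
      1 / G ^ 2 * ∑ n ∈ SI X b, (spec δ θ X a n * WW B' (coef β) (xx D n)) ^ 2 := by
    rw [mul_sum]
    calc ∑ n ∈ SP X b a, WW B (fun _ => 1) (xx D n) ^ 2 =
        ∑ n ∈ SP X b a, 1 / G ^ 2 * (spec δ θ X a n * WW B' (coef β) (xx D n)) ^ 2 := by
          refine sum_congr rfl fun n hn => ?_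
          rw [mem_SP] at hn
          rw [(hCol t B β (xx D n) D.cf).1 a ha (fun τ => xx_prime h hn.1 ha1 hn.2.2.2 τ), hcf,
            hco, spec_prime h hn.1 ha1 hn.2.2.2]
          exact hGy _
      _ ≤ _ := sum_le_sum_of_subset_of_nonneg SP_sub fun n _ _ => by positivity
  have h2 := (h.sm B' hB's (coef β) hc0).2.1 a
    (by rw [mem_sdiff]; exact ⟨ha, notMem_erase a B⟩)
  set Ω := (X : ℝ) / Wm X with hΩ
  have hΩ0 : 0 ≤ Ω := Om_nonneg X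
  obtain ⟨hM1, -, hM⟩ := hMni t B β (qq D) η h.η0 h.β0 h.β1 (fun τ a => qq_nonneg h.v0 τ a) h.hη
  obtain ⟨-, hm2, -, -⟩ := hM B' hB's
  rw [ZZ_one]
  set M := ∑ σ ∈ cfg t B, term (qq D) σ with hMdef
  have hV := h.v0
  have hΩVG : 0 ≤ Ω * (VV δ X * G) :=
    mul_nonneg hΩ0 (mul_nonneg hV (zero_le_one.trans hG1))
  have hup : ZZ D B' (coef β) ≤ η * M := hm2
  have h4 := (abs_le.1 h2).2
  have hM0 : 0 ≤ M := by linarith
  refine h1.trans ?_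
  have h5 : ∑ n ∈ SI X b, (spec δ θ X a n * WW B' (coef β) (xx D n)) ^ 2 ≤
      Ω * (VV δ X * G) * ((η + s) * M) := by
    have h6 : s * (Ω * VV δ X) ≤ Ω * (VV δ X * G) * s := by
      have h0 : 0 ≤ s * (Ω * VV δ X) := mul_nonneg hs (mul_nonneg hΩ0 hV)
      calc s * (Ω * VV δ X) = s * (Ω * VV δ X) * 1 := by ring
        _ ≤ s * (Ω * VV δ X) * G := mul_le_mul_of_nonneg_left hG1 h0
        _ = _ := by ring
    have h7 : Ω * (VV δ X * G * ZZ D B' (coef β)) ≤ Ω * (VV δ X * G) * (η * M) := by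
      rw [← mul_assoc]
      exact mul_le_mul_of_nonneg_left hup hΩVG
    have h8 : Ω * (VV δ X * G) * s ≤ Ω * (VV δ X * G) * (s * M) := by
      apply mul_le_mul_of_nonneg_left _ hΩVG
      nlinarith
    have h9 : Ω * (VV δ X * G) * ((η + s) * M) =
      Ω * (VV δ X * G) * (η * M) + Ω * (VV δ X * G) * (s * M) := by
      ring
    rw [h9]
    linarith
  calc 1 / G ^ 2 * ∑ n ∈ SI X b, (spec δ θ X a n * WW B' (coef β) (xx D n)) ^ 2
      ≤ 1 / G ^ 2 * (Ω * (VV δ X * G) * ((η + s) * M)) :=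
        mul_le_mul_of_nonneg_left h5 (by positivity)
    _ = _ := by
        have : G ≠ 0 := by linarith
        field_simp

end

end Pool.Agent.H361R2.PP
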