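import Pool.Agent.H361R2.PP.Cls2

/-! One class: the number of good integers. -/

set_option autoImplicit false

open Finset

namespace Pool.Agent.H361R2.PP

open Pool.Agent.H410R2.AC (wt GG cfg term WW pos Inj coef)

/-- the shifts of the cluster which survive the small primes -/
noncomputable def AA (X b N : ℕ) (α ε : ℝ) : Finset ℕ :=
  (BB X b N).filter (fun a : ℕ => α * Real.log X < a ∧ (a : ℝ) ≤ (α + ε) * Real.log X)

open Classical in
/-- the surviving shifts outside the clusters -/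
noncomputable def EE {k : ℕ} (X b N : ℕ) (α : Fin k → ℝ) (ε : ℝ) : Finset ℕ :=
  (BB X b N).filter (fun a : ℕ => ¬ ∃ i, CL (α i) ε (Real.log X) a)

open Classical in
/-- the good integers -/
def Good {k : ℕ} (m : ℕ) (α : Fin k → ℝ) (ε Λ : ℝ) (X n : ℕ) : Prop :=
  k ≤ 4 * ((univ : Finset (Fin k)).filter (fun i => m ≤
      ((Icc 1 ⌊Λ * Real.log X⌋₊).filter (fun a =>
        CL (α i) ε (Real.log X) a ∧ (n + a).Prime)).card)).card ∧
    ∀ a ∈ Icc 1 ⌊Λ * Real.log X⌋₊, (n + a).Prime → ∃ i, CL (α i) ε (Real.log X) a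

open Classical in
theorem good_of {k : ℕ} (m : ℕ) (α : Fin k → ℝ) (ε Λ : ℝ) {X b n : ℕ} (hX : HH X < X)
    (hn : n ∈ SI X b)
    (h1 : k ≤ 4 * Gd m (fun i => Np (AA X b ⌊Λ * Real.log X⌋₊ (α i) ε)) n)
    (h2 : Np (EE X b ⌊Λ * Real.log X⌋₊ α ε) n = 0) : Good m α ε Λ X n := by
  constructor
  · refine h1.trans ?_
    apply Nat.mul_le_mul_left
    unfold Gd
    apply card_le_card
    intro i hi
    rw [mem_filter] at hi ⊢
    refine ⟨hi.1, hi.2.trans ?_⟩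
    unfold Np
    apply card_le_card
    intro a ha
    rw [mem_filter] at ha ⊢
    unfold AA at ha
    rw [mem_filter, mem_BB] at ha
    rw [mem_Icc]
    exact ⟨⟨ha.1.1.1, ha.1.1.2.1⟩, ha.1.2, ha.2⟩
  · intro a ha hp
    by_contra hcon
    rw [mem_Icc] at ha
    have h3 : a ∈ (EE X b ⌊Λ * Real.log X⌋₊ α ε).filter (fun a => (n + a).Prime) := by
      rw [mem_filter]
      refine ⟨?_, hp⟩
      unfold EE
      rw [mem_filter]
      exact ⟨prime_BB hX hn ha.1 ha.2 hp, hcon⟩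
    unfold Np at h2
    rw [card_eq_zero] at h2
    rw [h2] at h3
    exact absurd h3 (notMem_empty a)

theorem in1 {s s' : ℝ} (h0 : 0 ≤ s) (h1 : s ≤ 1) (h : 7 * s ≤ s') :
    1 - s' ≤ (1 - s) * ((1 - s) * (1 - 3 * s)) := by
  nlinarith [mul_nonneg h0 h0, mul_nonneg (mul_nonneg h0 h0) (sub_nonneg.2 h1)]

theorem in2 {s s' : ℝ} (h0 : 0 ≤ s) (h1 : s ≤ 1) (h : 7 * s ≤ s') :
    (1 + s) * ((1 + s) * (1 + s)) ≤ 1 + s' := by
  nlinarith [mul_nonneg h0 (sub_nonneg.2 h1), mul_nonneg (mul_nonneg h0 h0) (sub_nonneg.2 h1)]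

theorem in3 {s η : ℝ} (h0 : 0 ≤ s) (h1 : s ≤ 1) (h : η ≤ s / 2) :
    (1 + s) * (η + s) ≤ 3 * s := by
  have h2 : (1 + s) * (η + s) ≤ (1 + s) * (s / 2 + s) :=
    mul_le_mul_of_nonneg_left (by linarith) (by linarith)
  have h3 : (1 + s) * (s / 2 + s) ≤ 2 * (s / 2 + s) :=
    mul_le_mul_of_nonneg_right (by linarith) (by linarith)
  linarith

theorem in4 {s s' A Ω T : ℝ} (hs : 7 * s ≤ s') (h0 : 0 ≤ s) (hA : 0 < A) (h : s * Ω ≤ s * A)
    (h1 : T ≤ A + s * Ω) (h2 : A - s * Ω ≤ T) : T ≤ (1 + s') * A ∧ (1 - s') * A ≤ T := by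
  have h3 : s * A ≤ s' * A := mul_le_mul_of_nonneg_right (by linarith) hA.le
  constructor <;> linarith

open Classical in
theorem cls (hCol : Col) (hCob : Cob) (hMni : Mni) (hPz : Pz) (hCs : Cs)
    {t : ℕ} {u : Fin t → ℝ} {c0 δ : ℝ} {X : ℕ} {Λ θ s C η c : ℝ} {b : ℕ}
    {β : Fin t → ℝ} {D : Dat t u c0 δ X} (h : Sit Λ θ s C η c b β D) (hX : 1 ≤ X)
    (hHX : HH X < X) (hL : 0 < Real.log X)
    (hθ0 : 0 < θ) (hθ : θ ≤ 1 / 32) (hC : 0 < C) (hΛ : 0 < Λ)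
    (k m : ℕ) (α : Fin k → ℝ) (ε : ℝ) (hε : 0 < ε)
    (hcf : ∀ a, D.cf a = if ∃ i, CL (α i) ε (Real.log X) a then c else -1)
    (hcA : ∀ i, |((AA X b ⌊Λ * Real.log X⌋₊ (α i) ε).card : ℝ) -
      ε * Real.log X * (Nat.totient (Wm X) / Wm X)| ≤
      s * (ε * Real.log X * (Nat.totient (Wm X) / Wm X)))
    (hcB : ((BB X b ⌊Λ * Real.log X⌋₊).card : ℝ) ≤
      (1 + s) * (Λ * Real.log X * (Nat.totient (Wm X) / Wm X)))
    (hpnt : |Pr X * Real.log X - X| ≤ s * X)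
    (hVG : VV δ X / GG (S1 δ θ X) * (((Nat.totient (Wm X) : ℝ) / Wm X) *
      ((1 / 4 - 3 * θ) * Real.log X)) ≤ 1)
    (s' μ ξ : ℝ) (hs' : 7 * s ≤ s') (hs'1 : s' ≤ 1) (hμ : μ = ε * (1 + c) ^ 2)
    (hm : (1 + s') * (m : ℝ) ≤ (1 - s') * μ)
    (hξ : 1 / 4 - ξ ≤ ((1 - s') * μ - (1 + s') * m) ^ 2 /
      ((1 + s) ^ 4 / (1 / 4 - 3 * θ) * μ ^ 2 + (1 + s') * μ))
    (hfin : 4 * k * ξ + (k + 1) * s' + 4 * (k + 1) * (20 * Λ * s) ≤ 3 / 4) :
    (X : ℝ) / Wm X / (16 * (3 * k + 1) ^ 2 * C) ≤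
      (((SI X b).filter (fun n => Good m α ε Λ X n)).card : ℝ) := by
  set N := ⌊Λ * Real.log X⌋₊ with hN
  set B := BB X b N with hB
  set M := ZZ D B (fun _ => 1) with hM
  set Ω := (X : ℝ) / Wm X with hΩ
  set Ω' := Pr X / Nat.totient (Wm X) with hΩ'
  set L := Real.log X with hLd
  set f := (Nat.totient (Wm X) : ℝ) / Wm X with hf
  set V : ℕ → ℝ := fun n => WW B (fun _ => 1) (xx D n) with hV
  have hs0 := h.s0
  have hs1 := h.s1
  have hc := h.c00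
  have hW0 : (0 : ℝ) < Wm X := by exact_mod_cast Wm_pos X
  have hφ0 : (0 : ℝ) < Nat.totient (Wm X) := by exact_mod_cast Nat.totient_pos.2 (Wm_pos X)
  have hX0 : (0 : ℝ) < X := by exact_mod_cast hX
  have hΩ0 : 0 < Ω := div_pos hX0 hW0
  have hΩ'0 : 0 ≤ Ω' := Om'_nonneg X
  have hf0 : 0 < f := div_pos hφ0 hW0
  have hM1 : 1 ≤ M := by
    rw [hM, ZZ_one]
    exact (hMni t B β (qq D) η h.η0 h.β0 h.β1 (fun τ a => qq_nonneg h.v0 τ a) h.hη).1
  have hM0 : 0 < M := by linarith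
  have hLf : L * f * Ω' = Pr X * L / Wm X := by
    rw [hf, hΩ']
    field_simp
  have hLf1 : L * f * Ω' ≤ (1 + s) * Ω := by
    rw [hLf, hΩ, ← mul_div_assoc]
    apply div_le_div_of_nonneg_right _ hW0.le
    have := (abs_le.1 hpnt).2
    linarith
  have hLf2 : (1 - s) * Ω ≤ L * f * Ω' := by
    rw [hLf, hΩ, ← mul_div_assoc]
    apply div_le_div_of_nonneg_right _ hW0.le
    have := (abs_le.1 hpnt).1
    linarith
  have hθ4 : 5 / 32 ≤ 1 / 4 - 3 * θ := by linarith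
  set v := VV δ X / GG (S1 δ θ X) with hv
  have hG1 : 1 ≤ GG (S1 δ θ X) := GG1_ge hX hθ
  have hv0 : 0 ≤ v := div_nonneg h.v0 (by linarith)
  set w4 := 1 / 4 - 3 * θ with hw4
  have hw40 : 0 < w4 := by linarith
  have hvL : v * (f * L) ≤ 1 / w4 := by
    rw [le_div_iff₀ hw40]
    calc v * (f * L) * w4 = v * (f * (w4 * L)) := by ring
      _ ≤ 1 := hVG
  have hμ0 : 0 < μ := by rw [hμ]; positivity
  have hcov : ∀ i, ∀ a ∈ AA X b N (α i) ε, a ∈ B ∧ D.cf a = c := by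
    intro i a ha
    unfold AA at ha
    rw [mem_filter] at ha
    refine ⟨ha.1, ?_⟩
    rw [hcf a, if_pos ⟨i, ha.2⟩]
  -- cardinalities
  have hA1 : ∀ i, (1 - s) * (ε * L * f) ≤ ((AA X b N (α i) ε).card : ℝ) := by
    intro i
    have := (abs_le.1 (hcA i)).1
    linarith
  have hA2 : ∀ i, ((AA X b N (α i) ε).card : ℝ) ≤ (1 + s) * (ε * L * f) := by
    intro i
    have := (abs_le.1 (hcA i)).2
    linarith
  have hLf0 : 0 < L * f := mul_pos hL hf0
  -- second moment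
  have hsm := (h.sm B (Subset.refl _) (fun _ => 1) (by
    intro σ
    rw [abs_one]
    have := h.cc0
    nlinarith))
  have hsm1 := abs_le.1 hsm.1
  have hsM : s * Ω ≤ s * (Ω * M) := by
    apply mul_le_mul_of_nonneg_left _ hs0
    nlinarith
  obtain ⟨A, hA⟩ : ∃ A : ℝ, A = Ω * M := ⟨_, rfl⟩
  rw [← hA] at hsM
  have hsm2 : ∑ n ∈ SI X b, V n ^ 2 ≤ A + s * Ω := by
    rw [hA]
    linarith [hsm1.2]
  have hsm3 : A - s * Ω ≤ ∑ n ∈ SI X b, V n ^ 2 := by
    rw [hA]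
    linarith [hsm1.1]
  have hA0 : 0 < A := by
    rw [hA]
    exact mul_pos hΩ0 hM0
  obtain ⟨h1, h1'⟩ := in4 hs' hs0 hA0 hsM hsm2 hsm3
  -- clusters, first moment
  have h2 : ∀ i, (1 - s') * μ * A ≤ ∑ n ∈ SI X b, V n ^ 2 * Np (AA X b N (α i) ε) n := by
    intro i
    rw [moment1]
    have h3 : ((AA X b N (α i) ε).card : ℝ) * (Ω' * ((1 + c) ^ 2 * M * (1 - 3 * s))) ≤
        ∑ a ∈ AA X b N (α i) ε, ∑ n ∈ SP X b a, V n ^ 2 := by
      rw [← nsmul_eq_mul, ← sum_const]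
      refine sum_le_sum fun a ha => ?_
      exact (E3 hCol hCob hMni h (hcov i a ha).1 (hcov i a ha).2).1
    refine le_trans ?_ h3
    by_cases hs3 : 1 - 3 * s ≤ 0
    · exfalso
      linarith
    · push Not at hs3
      have h4 : (1 - s) * (ε * L * f) * (Ω' * ((1 + c) ^ 2 * M * (1 - 3 * s))) ≤
          ((AA X b N (α i) ε).card : ℝ) * (Ω' * ((1 + c) ^ 2 * M * (1 - 3 * s))) := by
        apply mul_le_mul_of_nonneg_right (hA1 i)
        exact mul_nonneg hΩ'0 (mul_nonneg (mul_nonneg (sq_nonneg _) hM0.le) hs3.le)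
      refine le_trans ?_ h4
      have h5 : (1 - s) * (ε * L * f) * (Ω' * ((1 + c) ^ 2 * M * (1 - 3 * s))) =
          (L * f * Ω') * ((1 - s) * (1 - 3 * s) * (μ * M)) := by
        rw [hμ]; ring
      rw [h5]
      have h6 : (1 - s) * Ω * ((1 - s) * (1 - 3 * s) * (μ * M)) ≤
          (L * f * Ω') * ((1 - s) * (1 - 3 * s) * (μ * M)) := by
        apply mul_le_mul_of_nonneg_right hLf2
        have : 0 ≤ μ * M := by positivity
        have h8 : 0 ≤ (1 - s) * (1 - 3 * s) := mul_nonneg (by linarith) hs3.le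
        exact mul_nonneg h8 this
      refine le_trans ?_ h6
      have h7 : 1 - s' ≤ (1 - s) * ((1 - s) * (1 - 3 * s)) := in1 hs0 hs1 hs'
      calc (1 - s') * μ * A = (1 - s') * (μ * (Ω * M)) := by rw [hA]; ring
        _ ≤ (1 - s) * ((1 - s) * (1 - 3 * s)) * (μ * (Ω * M)) := by
            apply mul_le_mul_of_nonneg_right h7
            positivity
        _ = _ := by ring
  have h2' : ∀ i, ∑ n ∈ SI X b, V n ^ 2 * Np (AA X b N (α i) ε) n ≤ (1 + s') * μ * A := by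
    intro i
    rw [moment1]
    have h3 : ∑ a ∈ AA X b N (α i) ε, ∑ n ∈ SP X b a, V n ^ 2 ≤
        ((AA X b N (α i) ε).card : ℝ) * (Ω' * ((1 + c) ^ 2 * M * (1 + s))) := by
      rw [← nsmul_eq_mul, ← sum_const]
      refine sum_le_sum fun a ha => ?_
      exact (E3 hCol hCob hMni h (hcov i a ha).1 (hcov i a ha).2).2
    refine h3.trans ?_
    have h4 : ((AA X b N (α i) ε).card : ℝ) * (Ω' * ((1 + c) ^ 2 * M * (1 + s))) ≤
        (1 + s) * (ε * L * f) * (Ω' * ((1 + c) ^ 2 * M * (1 + s))) := by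
      apply mul_le_mul_of_nonneg_right (hA2 i)
      exact mul_nonneg hΩ'0 (mul_nonneg (mul_nonneg (sq_nonneg _) hM0.le) (by linarith))
    refine h4.trans ?_
    have h5 : (1 + s) * (ε * L * f) * (Ω' * ((1 + c) ^ 2 * M * (1 + s))) =
        (L * f * Ω') * ((1 + s) * (1 + s) * (μ * M)) := by
      rw [hμ]; ring
    rw [h5]
    have h6 : (L * f * Ω') * ((1 + s) * (1 + s) * (μ * M)) ≤
        (1 + s) * Ω * ((1 + s) * (1 + s) * (μ * M)) := by
      apply mul_le_mul_of_nonneg_right hLf1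
      positivity
    refine h6.trans ?_
    have h7 : (1 + s) * ((1 + s) * (1 + s)) ≤ 1 + s' := in2 hs0 hs1 hs'
    calc (1 + s) * Ω * ((1 + s) * (1 + s) * (μ * M)) =
        (1 + s) * ((1 + s) * (1 + s)) * (μ * (Ω * M)) := by ring
      _ ≤ (1 + s') * (μ * (Ω * M)) := by
          apply mul_le_mul_of_nonneg_right h7
          positivity
      _ = _ := by rw [hA]; ring
  -- clusters, second factorial moment
  have h3 : ∀ i, ∑ n ∈ SI X b, V n ^ 2 * (Np (AA X b N (α i) ε) n *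
      ((Np (AA X b N (α i) ε) n : ℝ) - 1)) ≤ (1 + s) ^ 4 / w4 * μ ^ 2 * A := by
    intro i
    rw [moment2]
    obtain ⟨T, hT⟩ : ∃ T : ℝ, T = Ω' * v * ((1 + c) ^ 4 * M * (1 + s)) := ⟨_, rfl⟩
    have hT0 : 0 ≤ T := by
      rw [hT]
      exact mul_nonneg (mul_nonneg hΩ'0 hv0) (by positivity)
    have h4 : ∑ a ∈ AA X b N (α i) ε, ∑ a' ∈ (AA X b N (α i) ε).erase a,
        ∑ n ∈ (SP X b a).filter (fun n => (n + a').Prime), V n ^ 2 ≤
        ∑ a ∈ AA X b N (α i) ε, ∑ a' ∈ AA X b N (α i) ε, T := by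
      refine sum_le_sum fun a ha => ?_
      refine le_trans ?_ (sum_le_sum_of_subset_of_nonneg (erase_subset a _)
        fun _ _ _ => hT0)
      refine sum_le_sum fun a' ha' => ?_
      rw [mem_erase] at ha'
      rw [hT]
      exact E4 hCol hCob hMni h hX hθ (hcov i a ha).1 (hcov i a' ha'.2).1 ha'.1.symm
        (hcov i a ha).2 (hcov i a' ha'.2).2
    refine h4.trans ?_
    rw [sum_const, sum_const, nsmul_eq_mul, nsmul_eq_mul, ← mul_assoc]
    have hcA0 : (0 : ℝ) ≤ ((AA X b N (α i) ε).card : ℝ) := Nat.cast_nonneg _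
    have h5 : ((AA X b N (α i) ε).card : ℝ) * ((AA X b N (α i) ε).card : ℝ) ≤
        (1 + s) * (ε * L * f) * ((1 + s) * (ε * L * f)) :=
      mul_le_mul (hA2 i) (hA2 i) hcA0 (by positivity)
    refine (mul_le_mul_of_nonneg_right h5 hT0).trans ?_
    have h6 : (1 + s) * (ε * L * f) * ((1 + s) * (ε * L * f)) * T =
        (L * f * Ω') * (v * (f * L)) * ((1 + s) ^ 3 * (μ ^ 2 * M)) := by
      rw [hT, hμ]; ring
    rw [h6]
    have h7 : (L * f * Ω') * (v * (f * L)) ≤ (1 + s) * Ω * (1 / w4) :=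
      mul_le_mul hLf1 hvL (by positivity) (by positivity)
    calc (L * f * Ω') * (v * (f * L)) * ((1 + s) ^ 3 * (μ ^ 2 * M)) ≤
        (1 + s) * Ω * (1 / w4) * ((1 + s) ^ 3 * (μ ^ 2 * M)) :=
          mul_le_mul_of_nonneg_right h7 (by positivity)
      _ = _ := by rw [hA]; ring
  -- the empty part
  have h4 : ∑ n ∈ SI X b, V n ^ 2 * Np (EE X b N α ε) n ≤ (20 * Λ * s) * A := by
    rw [moment1]
    obtain ⟨T, hT⟩ : ∃ T : ℝ, T = Ω * v * ((η + s) * M) := ⟨_, rfl⟩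
    have hη0 := h.η0
    have hT0 : 0 ≤ T := by
      rw [hT]
      exact mul_nonneg (mul_nonneg hΩ0.le hv0) (by positivity)
    have h5 : ∑ a ∈ EE X b N α ε, ∑ n ∈ SP X b a, V n ^ 2 ≤ ∑ a ∈ B, T := by
      have hsub : EE X b N α ε ⊆ B := by
        unfold EE
        exact filter_subset _ _
      refine le_trans ?_ (sum_le_sum_of_subset_of_nonneg hsub fun _ _ _ => hT0)
      refine sum_le_sum fun a ha => ?_
      have haB := hsub ha
      unfold EE at ha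
      rw [mem_filter] at ha
      rw [hT]
      exact E2 hCol hCob hMni h hX hθ haB (by rw [hcf a, if_neg ha.2])
    refine h5.trans ?_
    rw [sum_const, nsmul_eq_mul]
    refine (mul_le_mul_of_nonneg_right hcB hT0).trans ?_
    have h6 : (1 + s) * (Λ * L * f) * T = (v * (f * L)) * ((1 + s) * Λ * (η + s) * A) := by
      rw [hT, hA]; ring
    rw [h6]
    have h7 : v * (f * L) ≤ 32 / 5 := by
      refine hvL.trans ?_
      rw [div_le_iff₀ hw40]
      linarith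
    have h8 : 0 ≤ (1 + s) * Λ * (η + s) * A := by positivity
    refine (mul_le_mul_of_nonneg_right h7 h8).trans ?_
    have h9 : (1 + s) * (η + s) ≤ 3 * s := in3 hs0 hs1 h.ηs
    calc 32 / 5 * ((1 + s) * Λ * (η + s) * A) = 32 / 5 * (Λ * A) * ((1 + s) * (η + s)) := by ring
      _ ≤ 32 / 5 * (Λ * A) * (3 * s) := mul_le_mul_of_nonneg_left h9 (by positivity)
      _ = 96 / 5 * (Λ * A * s) := by ring
      _ ≤ 20 * (Λ * A * s) := mul_le_mul_of_nonneg_right (by norm_num) (by positivity)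
      _ = _ := by ring
  have h5 : ∑ n ∈ SI X b, V n ^ 4 ≤ C * Ω := hsm.2.2.2.2
  have hkey := pv hPz hCs k m (SI X b) V (fun i => Np (AA X b N (α i) ε))
    (Np (EE X b N α ε)) A μ s' ((1 + s) ^ 4 / w4) (20 * Λ * s) (C * Ω) ξ hA0 (by linarith) hs'1
    hμ0 (by positivity) hm h1 h1' h2 h2' h3 h4 h5 (by positivity) hξ hfin
  have h6 : Ω / (16 * (3 * k + 1) ^ 2 * C) ≤ (A / (4 * (3 * k + 1))) ^ 2 / (C * Ω) := by
    have h7 : Ω ≤ A := by rw [hA]; nlinarith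
    have h8 : Ω / (16 * (3 * k + 1) ^ 2 * C) = (Ω / (4 * (3 * k + 1))) ^ 2 / (C * Ω) := by
      field_simp
      ring
    rw [h8]
    gcongr
  refine h6.trans (hkey.trans ?_)
  have h9 : (SI X b).filter (fun n => k ≤ 4 * Gd m (fun i => Np (AA X b N (α i) ε)) n ∧
      Np (EE X b N α ε) n = 0) ⊆ (SI X b).filter (fun n => Good m α ε Λ X n) := by
    intro n hn
    rw [mem_filter] at hn ⊢
    exact ⟨hn.1, good_of m α ε Λ hHX hn.1 hn.2.1 hn.2.2⟩
  exact_mod_cast card_le_card h9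

end Pool.Agent.H361R2.PP
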