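import Pool.Agent.H361R2.PP.Sep

/-! Corollary: positive proportion of `n` with exactly `m` primes in `(n, n + lam log n]` and no
prime in `(n - Lam log n, n]`. -/

set_option autoImplicit false

open Finset

namespace Pool.Agent.H361R2.PP

/-- the element of given rank -/
theorem exists_rank (A : Finset ℕ) (m : ℕ) (h : m < A.card) :
    ∃ x ∈ A, (A.filter (fun y => y < x)).card = m := by
  refine ⟨A.orderEmbOfFin rfl ⟨m, h⟩, orderEmbOfFin_mem _ _ _, ?_⟩
  have h1 : A.filter (fun y => y < A.orderEmbOfFin rfl ⟨m, h⟩) =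
      ((univ : Finset (Fin A.card)).filter (fun i => i < ⟨m, h⟩)).image
        (A.orderEmbOfFin rfl) := by
    ext y
    rw [mem_filter, mem_image]
    constructor
    · rintro ⟨hy, hlt⟩
      have h2 : y ∈ Set.range (A.orderEmbOfFin rfl) := by
        rw [range_orderEmbOfFin]
        exact hy
      obtain ⟨i, rfl⟩ := h2
      refine ⟨i, ?_, rfl⟩
      rw [mem_filter]
      exact ⟨mem_univ _, (A.orderEmbOfFin rfl).lt_iff_lt.1 hlt⟩
    · rintro ⟨i, hi, rfl⟩
      rw [mem_filter] at hi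
      exact ⟨orderEmbOfFin_mem _ _ _, (A.orderEmbOfFin rfl).lt_iff_lt.2 hi.2⟩
  rw [h1, card_image_of_injective _ (A.orderEmbOfFin rfl).injective]
  have h2 : (univ : Finset (Fin A.card)).filter (fun i => i < ⟨m, h⟩) = Iio ⟨m, h⟩ := by
    ext i
    simp
  rw [h2, Fin.card_Iio]

theorem pi_add {a b : ℕ} (h : a ≤ b) :
    Nat.primeCounting b = Nat.primeCounting a + ((Ioc a b).filter Nat.Prime).card := by
  unfold Nat.primeCounting Nat.primeCounting'
  rw [Nat.count_eq_card_filter_range, Nat.count_eq_card_filter_range,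
    ← card_union_of_disjoint]
  · congr 1
    ext p
    simp only [mem_filter, mem_union, mem_range, mem_Ioc]
    constructor
    · rintro ⟨h1, h2⟩
      by_cases h3 : p < a + 1
      · exact Or.inl ⟨h3, h2⟩
      · exact Or.inr ⟨⟨by omega, by omega⟩, h2⟩
    · rintro (⟨h1, h2⟩ | ⟨h1, h2⟩)
      · exact ⟨by omega, h2⟩
      · exact ⟨by omega, h2⟩
  · rw [disjoint_left]
    intro p hp hp'
    rw [mem_filter, mem_range] at hp
    rw [mem_filter, mem_Ioc] at hp'
    omega

/-- the property of the corollary -/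
def Ex (lam Λ : ℝ) (m n : ℕ) : Prop :=
  Nat.primeCounting ⌊(n : ℝ) + lam * Real.log n⌋₊ = Nat.primeCounting n + m ∧
    Nat.primeCounting n = Nat.primeCounting ⌊(n : ℝ) - Λ * Real.log n⌋₊

/-- one good integer produces many -/
theorem one_good {lam Λ κ : ℝ} (m : ℕ) {X n : ℕ} (hlam : 0 < lam) (hΛ : 0 ≤ Λ) (hκ : 0 < κ)
    (hκ1 : κ ≤ lam) (hX : 1 ≤ X) (hn : X ≤ n) (hn2 : n < 2 * X)
    (hG : Good (k := 1) (m + 1) (fun _ => Λ + 2 * lam + 1) (lam / 2) (Λ + 3 * lam + 1) X n)
    (hS : Sep κ (Λ + 3 * lam + 1) X n) (h : ℕ) (hh : lam * Real.log 3 + 2 ≤ h)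
    (hL1 : (Λ + 3 * lam + 1) * Real.log X ≤ X) (hL2 : (h : ℝ) < κ * Real.log X / 2)
    (hL3 : Λ * Real.log 3 + 1 ≤ Real.log X) :
    ∃ a : ℕ, 1 ≤ a ∧ (a : ℝ) ≤ (Λ + 3 * lam + 1) * Real.log X ∧
      ⌊lam * Real.log X⌋₊ + h + ⌊κ * Real.log X / 2⌋₊ ≤ a ∧
      ∀ j < ⌊κ * Real.log X / 2⌋₊, Ex lam Λ m (n + a - (⌊lam * Real.log X⌋₊ + h + j)) := by
  classical
  set L := Real.log X with hL
  have hLpos : 0 < L := by
    by_contra hcon
    push Not at hcon
    have h1 : (0 : ℝ) ≤ h := Nat.cast_nonneg h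
    have : κ * L ≤ 0 := mul_nonpos_of_nonneg_of_nonpos hκ.le hcon
    linarith
  set N := ⌊(Λ + 3 * lam + 1) * L⌋₊ with hN
  obtain ⟨hG1, hG2⟩ := hG
  set A := (Icc 1 N).filter (fun a => CL (Λ + 2 * lam + 1) (lam / 2) L a ∧ (n + a).Prime) with hA
  have hcard : m < A.card := by
    have h1 : ((univ : Finset (Fin 1)).filter (fun _ => m + 1 ≤ A.card)).Nonempty := by
      rw [nonempty_iff_ne_empty]
      intro h2
      have h3 : (1 : ℕ) ≤ 4 * ((univ : Finset (Fin 1)).filter (fun _ => m + 1 ≤ A.card)).card := by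
        convert hG1 using 3
      rw [h2] at h3
      simp at h3
    obtain ⟨i, hi⟩ := h1
    rw [mem_filter] at hi
    exact hi.2
  obtain ⟨a, ha, hrank⟩ := exists_rank A m hcard
  have haA := ha
  rw [hA, mem_filter, mem_Icc] at ha
  obtain ⟨⟨ha1, haN⟩, ⟨hc1, hc2⟩, hp⟩ := ha
  have haL : (a : ℝ) ≤ (Λ + 3 * lam + 1) * L := (Nat.le_floor_iff (by positivity)).1 haN
  have hfl : (⌊lam * L⌋₊ : ℝ) ≤ lam * L := Nat.floor_le (by positivity)
  have hfl2 : lam * L < (⌊lam * L⌋₊ : ℝ) + 1 := Nat.lt_floor_add_one _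
  have hfκ : (⌊κ * L / 2⌋₊ : ℝ) ≤ κ * L / 2 := Nat.floor_le (by positivity)
  have hκL : κ * L ≤ lam * L := mul_le_mul_of_nonneg_right hκ1 hLpos.le
  have hlL : 0 < lam * L := by positivity
  have hΛL : 0 ≤ Λ * L := by positivity
  have hsum : ⌊lam * L⌋₊ + h + ⌊κ * L / 2⌋₊ ≤ a := by
    have h1 : ((⌊lam * L⌋₊ + h + ⌊κ * L / 2⌋₊ : ℕ) : ℝ) ≤ (a : ℝ) := by
      push_cast
      linarith
    exact_mod_cast h1
  refine ⟨a, ha1, haL, hsum, fun j hj => ?_⟩
  have hjR : (j : ℝ) < κ * L / 2 := by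
    have : (j : ℝ) < (⌊κ * L / 2⌋₊ : ℝ) := by exact_mod_cast hj
    linarith
  have hj0 : (0 : ℝ) ≤ j := Nat.cast_nonneg j
  set d := ⌊lam * L⌋₊ + h + j with hd
  have hda : d ≤ a := by omega
  obtain ⟨n', hn'⟩ : ∃ n', n' = n + a - d := ⟨_, rfl⟩
  rw [← hn']
  have hn'1 : n' + d = n + a := by omega
  have hn'R : (n' : ℝ) = n + a - (⌊lam * L⌋₊ + h + j) := by
    have : ((n' + d : ℕ) : ℝ) = ((n + a : ℕ) : ℝ) := by rw [hn'1]
    rw [hd] at this
    push_cast at this
    linarith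
  have hnX : (X : ℝ) ≤ n := by exact_mod_cast hn
  have hn2X : (n : ℝ) < 2 * X := by exact_mod_cast hn2
  have hXpos : (0 : ℝ) < X := by exact_mod_cast hX
  have hn'X : (X : ℝ) ≤ n' := by
    have : (n : ℝ) ≤ n' := by
      have : n ≤ n' := by omega
      exact_mod_cast this
    linarith
  have hn'3 : (n' : ℝ) ≤ 3 * X := by
    have h1 : (0 : ℝ) ≤ (⌊lam * L⌋₊ : ℝ) := Nat.cast_nonneg _
    have h2 : (0 : ℝ) ≤ h := Nat.cast_nonneg _
    rw [hn'R]
    linarith
  have hlog1 : L ≤ Real.log n' := Real.log_le_log hXpos hn'X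
  have hlog2 : Real.log n' ≤ L + Real.log 3 := by
    have h1 := Real.log_le_log (lt_of_lt_of_le hXpos hn'X) hn'3
    rw [Real.log_mul (by norm_num) hXpos.ne'] at h1
    linarith
  set R := ⌊(n' : ℝ) + lam * Real.log n'⌋₊ with hR
  have hlog0 : 0 ≤ Real.log n' := hLpos.le.trans hlog1
  have hRnn : 0 ≤ (n' : ℝ) + lam * Real.log n' := by positivity
  have hRle : (R : ℝ) ≤ n' + lam * Real.log n' := Nat.floor_le hRnn
  have hRge : (n' : ℝ) + lam * Real.log n' < R + 1 := Nat.lt_floor_add_one _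
  have hm1 : lam * Real.log n' ≤ lam * L + lam * Real.log 3 := by
    have := mul_le_mul_of_nonneg_left hlog2 hlam.le
    linarith
  have hm2 : lam * L ≤ lam * Real.log n' := mul_le_mul_of_nonneg_left hlog1 hlam.le
  have hRa : R < n + a := by
    have : (R : ℝ) < ((n + a : ℕ) : ℝ) := by
      push_cast
      linarith
    exact_mod_cast this
  have hn'R' : n' ≤ R := by
    apply Nat.le_floor
    linarith [mul_nonneg hlam.le hlog0]
  have hnn' : n ≤ n' := by omega
  constructor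
  · rw [pi_add hn'R', ← hrank]
    congr 1
    symm
    apply card_bij (fun x _ => n + x)
    · intro x hx
      rw [mem_filter] at hx
      obtain ⟨hxA, hxa⟩ := hx
      rw [hA, mem_filter, mem_Icc] at hxA
      obtain ⟨⟨hx1, hxN⟩, ⟨hxc1, hxc2⟩, hxp⟩ := hxA
      have hsep := hS x (by rw [mem_Icc]; exact ⟨hx1, hxN⟩) a
        (by rw [mem_Icc]; exact ⟨ha1, haN⟩) hxa hxp hp
      rw [mem_filter, mem_Ioc]
      refine ⟨⟨?_, ?_⟩, hxp⟩
      · have : (n' : ℝ) < ((n + x : ℕ) : ℝ) := by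
          push_cast
          rw [hn'R]
          have h2 : (0 : ℝ) ≤ h := Nat.cast_nonneg _
          have h3 : 2 ≤ (h : ℝ) := by
            have : 0 ≤ lam * Real.log 3 := mul_nonneg hlam.le (Real.log_nonneg (by norm_num))
            linarith
          linarith
        exact_mod_cast this
      · have : ((n + x : ℕ) : ℝ) < ((R + 1 : ℕ) : ℝ) := by
          push_cast
          linarith
        have h2 : n + x < R + 1 := by exact_mod_cast this
        omega
    · intro x _ y _ hxy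
      have : n + x = n + y := hxy
      omega
    · intro p hpp
      rw [mem_filter, mem_Ioc] at hpp
      obtain ⟨⟨hp1, hp2⟩, hpr⟩ := hpp
      refine ⟨p - n, ?_, by omega⟩
      have hpn : n + (p - n) = p := by omega
      have hmem : p - n ∈ Icc 1 N := by
        rw [mem_Icc]
        omega
      have hcl := hG2 (p - n) hmem (by rw [hpn]; exact hpr)
      obtain ⟨_, hcl⟩ := hcl
      rw [mem_filter, hA, mem_filter]
      refine ⟨⟨hmem, hcl, by rw [hpn]; exact hpr⟩, by omega⟩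
  · set Q := ⌊(n' : ℝ) - Λ * Real.log n'⌋₊ with hQ
    have hQn : n ≤ Q := by
      apply Nat.le_floor
      have h1 : Λ * Real.log n' ≤ Λ * L + Λ * Real.log 3 := by
        have := mul_le_mul_of_nonneg_left hlog2 hΛ
        linarith
      linarith [hn'R]
    have hQn' : Q ≤ n' := by
      apply Nat.floor_le_of_le
      have : 0 ≤ Λ * Real.log n' := mul_nonneg hΛ hlog0
      linarith
    rw [pi_add hQn']
    have hempty : (Ioc Q n').filter Nat.Prime = ∅ := by
      rw [filter_eq_empty_iff]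
      intro p hp1 hpr
      rw [mem_Ioc] at hp1
      have hpn : n + (p - n) = p := by omega
      have hmem : p - n ∈ Icc 1 N := by
        rw [mem_Icc]
        omega
      have hcl := hG2 (p - n) hmem (by rw [hpn]; exact hpr)
      obtain ⟨_, hcl, -⟩ := hcl
      have h2 : ((p - n : ℕ) : ℝ) ≤ (n' : ℝ) - n := by
        rw [Nat.cast_sub (by omega)]
        have : (p : ℝ) ≤ n' := by exact_mod_cast hp1.2
        linarith
      rw [hn'R] at h2
      have h3 : 2 ≤ (h : ℝ) := by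
        have : 0 ≤ lam * Real.log 3 := mul_nonneg hlam.le (Real.log_nonneg (by norm_num))
        linarith
      linarith
    rw [hempty, card_empty, add_zero]

end Pool.Agent.H361R2.PP
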