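import Pool.Agent.H361R2.PP.Cor1

/-! Corollary: positive proportion of `n` with exactly `m` primes in `(n, n + lam log n]`. -/

set_option autoImplicit false

open Finset

namespace Pool.Agent.H361R2.PP

theorem Sep.mono {κ κ' Λ : ℝ} {X n : ℕ} (h : Sep κ Λ X n) (hk : κ' ≤ κ)
    (hL : 0 ≤ Real.log X) : Sep κ' Λ X n := by
  intro a ha a' ha' hlt hp hp'
  exact lt_of_le_of_lt (mul_le_mul_of_nonneg_right hk hL) (h a ha a' ha' hlt hp hp')

open Classical in
/-- positive proportion of `n` with exactly `m` primes in `(n, n + lam log n]` and none in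
`(n - Lam log n, n]` -/
def PoissonP : Prop := ∀ (lam Λ : ℝ) (m : ℕ), 0 < lam → 0 ≤ Λ → ∃ c : ℝ, 0 < c ∧ ∃ N₀ : ℕ,
  ∀ N : ℕ, N₀ ≤ N → c * N ≤ (((Icc 1 N).filter (fun n => Ex lam Λ m n)).card : ℝ)

open Classical in
theorem poisson_of (hM : MasterU) : PoissonP := by
  intro lam Λ m hlam hΛ
  obtain ⟨c0, κ0, hc0, hκ0, X0, hX0⟩ := hM 1 (m + 1) (fun _ => Λ + 2 * lam + 1) (lam / 2)
    (Λ + 3 * lam + 1) (by positivity) (by positivity) (fun _ => ⟨by positivity, by linarith⟩)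
  obtain ⟨κ, hκd⟩ : ∃ κ : ℝ, κ = min κ0 lam := ⟨_, rfl⟩
  have hκ : 0 < κ := by rw [hκd]; exact lt_min hκ0 hlam
  have hκ1 : κ ≤ lam := by rw [hκd]; exact min_le_right _ _
  have hκ2 : κ ≤ κ0 := by rw [hκd]; exact min_le_left _ _
  obtain ⟨h, hh⟩ := exists_nat_ge (lam * Real.log 3 + 2)
  set Λ' := Λ + 3 * lam + 1 with hΛ'
  have hΛ'0 : 0 < Λ' := by positivity
  have hlog := Real.tendsto_log_atTop.comp (tendsto_natCast_atTop_atTop (R := ℝ))
  have e1 := hlog.eventually_ge_atTop (2 * (h : ℝ) / κ + 1)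
  have e2 := hlog.eventually_ge_atTop (Λ * Real.log 3 + 1)
  have e3 := hlog.eventually_ge_atTop (4 / κ)
  have e4 : ∀ᶠ X : ℕ in Filter.atTop, Λ' * Real.log X ≤ X := by
    have h1 : (fun x : ℝ => Real.log x) =o[Filter.atTop] (fun x : ℝ => x) :=
      Real.isLittleO_log_id_atTop
    have h2 := h1.bound (show (0 : ℝ) < 1 / Λ' by positivity)
    have h3 := tendsto_natCast_atTop_atTop (R := ℝ) |>.eventually h2
    filter_upwards [h3, Filter.eventually_ge_atTop 1] with X hX hX1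
    have hX1' : (1 : ℝ) ≤ X := by exact_mod_cast hX1
    rw [Real.norm_of_nonneg (Real.log_nonneg hX1'), Real.norm_of_nonneg (by linarith)] at hX
    calc Λ' * Real.log X ≤ Λ' * (1 / Λ' * X) := mul_le_mul_of_nonneg_left hX hΛ'0.le
      _ = X := by field_simp
  obtain ⟨X1, hX1⟩ := Filter.eventually_atTop.1
    (((e1.and e2).and (e3.and e4)).and (Filter.eventually_ge_atTop 3))
  refine ⟨c0 * κ / (16 * (Λ' + 1)), by positivity, 3 * (X0 + X1) + 12, fun N hN => ?_⟩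
  obtain ⟨X, hXd⟩ : ∃ X, X = N / 3 := ⟨_, rfl⟩
  have hXa : X0 + X1 ≤ X := by omega
  have hX3 : 3 * X ≤ N := by omega
  have hX4 : N ≤ 4 * X := by omega
  obtain ⟨⟨⟨f1, f2⟩, f3, f4⟩, f5⟩ := hX1 X (by omega)
  simp only [Function.comp_apply] at f1 f2 f3
  set L := Real.log X with hL
  have hXpos : (0 : ℝ) < X := by exact_mod_cast (by omega : 0 < X)
  have hL1 : 1 ≤ L := by
    have : 0 ≤ 2 * (h : ℝ) / κ := by positivity
    linarith
  set G := (Ico X (2 * X)).filter (fun n => Good (k := 1) (m + 1)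
    (fun _ => Λ + 2 * lam + 1) (lam / 2) Λ' X n ∧ Sep κ0 Λ' X n) with hG
  have hGc : c0 * X ≤ (G.card : ℝ) := hX0 X (by omega)
  have hkey : ∀ n ∈ G, ∃ a : ℕ, 1 ≤ a ∧ (a : ℝ) ≤ Λ' * L ∧
      ⌊lam * L⌋₊ + h + ⌊κ * L / 2⌋₊ ≤ a ∧
      ∀ j < ⌊κ * L / 2⌋₊, Ex lam Λ m (n + a - (⌊lam * L⌋₊ + h + j)) := by
    intro n hn
    rw [hG, mem_filter, mem_Ico] at hn
    refine one_good m hlam hΛ hκ hκ1 (by omega) hn.1.1 hn.1.2 hn.2.1
      (hn.2.2.mono hκ2 (by linarith)) h hh f4 ?_ f2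
    have h1 : 2 * (h : ℝ) / κ < L := by linarith
    rw [div_lt_iff₀ hκ] at h1
    linarith
  choose! a ha1 haL hsum hEx using hkey
  set J := ⌊κ * L / 2⌋₊ with hJ
  set f : ℕ × ℕ → ℕ := fun p => p.1 + a p.1 - (⌊lam * L⌋₊ + h + p.2) with hf
  have himg : (G ×ˢ range J).image f ⊆ (Icc 1 N).filter (fun n => Ex lam Λ m n) := by
    intro y hy
    rw [mem_image] at hy
    obtain ⟨⟨n, j⟩, hnj, rfl⟩ := hy
    rw [mem_product, mem_range] at hnj
    obtain ⟨hn, hj⟩ := hnj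
    have hnG := hn
    rw [hG, mem_filter, mem_Ico] at hn
    rw [mem_filter, mem_Icc]
    have h1 := hsum n hnG
    have h2 : (a n : ℝ) ≤ X := (haL n hnG).trans f4
    have h3 : a n ≤ X := by exact_mod_cast h2
    refine ⟨⟨?_, ?_⟩, hEx n hnG j hj⟩
    · simp only [hf]
      simp only at hj
      omega
    · simp only [hf]
      omega
  have hfib : ∀ y ∈ (G ×ˢ range J).image f,
      ((G ×ˢ range J).filter (fun p => f p = y)).card ≤ ⌊Λ' * L⌋₊ + 1 := by
    intro y _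
    have h1 : ((G ×ˢ range J).filter (fun p => f p = y)).card ≤
        (Icc (y - ⌊Λ' * L⌋₊) y).card := by
      apply card_le_card_of_injOn (fun p => p.1)
      · intro p hp
        rw [coe_filter, Set.mem_ofPred_eq, mem_product, mem_range] at hp
        obtain ⟨⟨hn, hj⟩, hpy⟩ := hp
        have h2 := hsum p.1 hn
        have h3 : a p.1 ≤ ⌊Λ' * L⌋₊ := Nat.le_floor (haL p.1 hn)
        simp only [hf] at hpy
        rw [coe_Icc, Set.mem_Icc]
        change y - ⌊Λ' * L⌋₊ ≤ p.1 ∧ p.1 ≤ y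
        constructor <;> omega
      · intro p hp q hq hpq
        rw [coe_filter, Set.mem_ofPred_eq, mem_product, mem_range] at hp hq
        obtain ⟨⟨hn, hj⟩, hpy⟩ := hp
        obtain ⟨⟨hn', hj'⟩, hqy⟩ := hq
        have hpq' : p.1 = q.1 := hpq
        have h2 := hsum p.1 hn
        simp only [hf] at hpy hqy
        rw [← hpq'] at hqy
        apply Prod.ext hpq'
        omega
    refine h1.trans ?_
    rw [Nat.card_Icc]
    omega
  have hcount := card_le_mul_card_image (G ×ˢ range J) (⌊Λ' * L⌋₊ + 1) hfib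
  have hcount2 := hcount.trans (Nat.mul_le_mul_left _ (card_le_card himg))
  rw [card_product, card_range] at hcount2
  have hcount3 : (G.card : ℝ) * J ≤ ((⌊Λ' * L⌋₊ : ℝ) + 1) *
      (((Icc 1 N).filter (fun n => Ex lam Λ m n)).card : ℝ) := by exact_mod_cast hcount2
  have hJ1 : κ * L / 4 ≤ (J : ℝ) := by
    have h1 := Nat.lt_floor_add_one (κ * L / 2)
    rw [← hJ] at h1
    have h2 : 4 ≤ κ * L := by
      rw [div_le_iff₀ hκ] at f3
      linarith
    linarith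
  have hfl : (⌊Λ' * L⌋₊ : ℝ) + 1 ≤ (Λ' + 1) * L := by
    have := Nat.floor_le (show 0 ≤ Λ' * L by positivity)
    nlinarith
  set T := (((Icc 1 N).filter (fun n => Ex lam Λ m n)).card : ℝ) with hT
  have hT0 : 0 ≤ T := Nat.cast_nonneg _
  have h1 : c0 * X * (κ * L / 4) ≤ (Λ' + 1) * L * T := by
    calc c0 * X * (κ * L / 4) ≤ (G.card : ℝ) * J :=
          mul_le_mul hGc hJ1 (by positivity) (Nat.cast_nonneg _)
      _ ≤ ((⌊Λ' * L⌋₊ : ℝ) + 1) * T := hcount3
      _ ≤ _ := mul_le_mul_of_nonneg_right hfl hT0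
  have h2 : c0 * X * κ ≤ 4 * (Λ' + 1) * T := by
    have h3 : (c0 * X * κ) * L ≤ (4 * (Λ' + 1) * T) * L := by linarith
    exact le_of_mul_le_mul_right h3 (by linarith)
  have hNX : (N : ℝ) ≤ 4 * X := by exact_mod_cast hX4
  rw [div_mul_eq_mul_div, div_le_iff₀ (by positivity)]
  have h3 : c0 * κ * N ≤ c0 * κ * (4 * X) := mul_le_mul_of_nonneg_left hNX (by positivity)
  linarith

end Pool.Agent.H361R2.PP
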