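import Pool.Agent.H361R2.PP.Iface4
import Pool.Agent.Helper923.PNT

/-! The normalisation of the gaps by the logarithm of the index. -/

set_option autoImplicit false

open Finset MeasureTheory Filter

namespace Pool.Agent.H361R2.PP

theorem P_tendsto : Tendsto (fun j : ℕ => (P j : ℝ)) atTop atTop :=
  tendsto_natCast_atTop_atTop.comp (Nat.nth_strictMono Nat.infinite_setOfPred_prime).tendsto_atTop

theorem ratio_tendsto : Tendsto (fun j : ℕ => Real.log ((j : ℝ) + 1) / Real.log (P j)) atTop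
    (nhds 1) := by
  have h1 := Pool.Agent.Helper923.PNT.pi_tendsto.comp P_tendsto
  have h2 : Tendsto (fun j : ℕ => ((j : ℝ) + 1) * Real.log (P j) / P j) atTop (nhds 1) := by
    refine h1.congr fun j => ?_
    simp only [Function.comp_apply, Nat.floor_natCast]
    have h3 : Nat.primeCounting (P j) = j + 1 := by
      unfold P Nat.primeCounting Nat.primeCounting'
      rw [Nat.count_succ, Nat.count_nth_of_infinite Nat.infinite_setOfPred_prime,
        if_pos (Nat.prime_nth_prime j)]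
    rw [h3]
    push_cast
    ring
  have h3 : Tendsto (fun j : ℕ => Real.log (((j : ℝ) + 1) * Real.log (P j) / P j)) atTop
      (nhds 0) := by
    have := (Real.continuousAt_log one_ne_zero).tendsto.comp h2
    rw [Real.log_one] at this
    exact this
  have hL : Tendsto (fun j : ℕ => Real.log (P j)) atTop atTop :=
    Real.tendsto_log_atTop.comp P_tendsto
  have h4 : Tendsto (fun j : ℕ => Real.log (Real.log (P j)) / Real.log (P j)) atTop (nhds 0) := by
    have h5 : Tendsto (fun x : ℝ => Real.log x / x) atTop (nhds 0) :=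
      Real.isLittleO_log_id_atTop.tendsto_div_nhds_zero
    exact h5.comp hL
  have h5 : Tendsto (fun j : ℕ => Real.log (((j : ℝ) + 1) * Real.log (P j) / P j) /
      Real.log (P j)) atTop (nhds 0) := h3.div_atTop hL
  have h6 := (h5.sub h4).add_const 1
  rw [sub_zero, zero_add] at h6
  refine h6.congr' ?_
  filter_upwards [hL.eventually_ge_atTop 1] with j hj
  have hP : (0 : ℝ) < P j := by
    have := (Nat.prime_nth_prime j).pos
    unfold P
    exact_mod_cast this
  have hj0 : (0 : ℝ) < (j : ℝ) + 1 := by positivity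
  have hl : 0 < Real.log (P j) := by linarith
  rw [Real.log_div (by positivity) hP.ne', Real.log_mul hj0.ne' hl.ne']
  field_simp
  ring

/-- gap normalised by the logarithm of the index (`P n = p_{n+1}`, `P (n-1) = p_n`) -/
noncomputable def gp (n : ℕ) : ℝ := ((P n : ℝ) - P (n - 1)) / Real.log n

/-- transfer of counts from `range N` to `[2, N]` with the new normalisation -/
theorem count_transfer (A B : ℕ → Prop) [DecidablePred A] [DecidablePred B] (J : ℕ) (hAB : ∀ j, J ≤ j → A j → B (j + 1)) (c : ℝ)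
    (hc : 0 < c) (N : ℕ) (hN : 2 * ((J : ℝ) + 1) / c ≤ N)
    (h : c * N ≤ (((range N).filter A).card : ℝ)) :
    c / 2 * N ≤ (((Icc 2 N).filter B).card : ℝ) := by
  have h1 : ((range N).filter A).card ≤ (J + 1) + ((Icc 2 N).filter B).card := by
    have h2 : (range N).filter A ⊆ range (J + 1) ∪
        ((Icc 2 N).filter B).image (fun n => n - 1) := by
      intro j hj
      rw [mem_filter, mem_range] at hj
      rw [mem_union]
      by_cases hJ : j < J + 1
      · left; exact mem_range.2 hJ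
      · right
        rw [mem_image]
        refine ⟨j + 1, ?_, by omega⟩
        rw [mem_filter, mem_Icc]
        exact ⟨⟨by omega, by omega⟩, hAB j (by omega) hj.2⟩
    refine (card_le_card h2).trans ((card_union_le _ _).trans ?_)
    rw [card_range]
    have := card_image_le (s := (Icc 2 N).filter B) (f := fun n => n - 1)
    omega
  have h2 : (((range N).filter A).card : ℝ) ≤ (J + 1) + (((Icc 2 N).filter B).card : ℝ) := by
    exact_mod_cast h1
  rw [div_le_iff₀ hc] at hN
  nlinarith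

/-- LP with the new normalisation -/
def LP' : Set ℝ := {x : ℝ | 0 ≤ x ∧ ∀ ε : ℝ, 0 < ε → ∃ c : ℝ, 0 < c ∧ ∀ N₀ : ℕ, ∃ N : ℕ, N₀ ≤ N ∧
  c * N ≤ ({n : ℕ | n ∈ Icc 2 N ∧ |gp n - x| < ε}.ncard : ℝ)}

theorem ratio_ev (η : ℝ) (hη : 0 < η) : ∃ J : ℕ, 1 ≤ J ∧ ∀ j : ℕ, J ≤ j →
    |Real.log (P j) / Real.log ((j : ℝ) + 1) - 1| ≤ η ∧ 0 < Real.log (P j) ∧
    0 < Real.log ((j : ℝ) + 1) := by
  have h1 : Tendsto (fun j : ℕ => Real.log (P j) / Real.log ((j : ℝ) + 1)) atTop (nhds 1) := by
    have := ratio_tendsto.inv₀ one_ne_zero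
    rw [inv_one] at this
    refine this.congr fun j => ?_
    rw [inv_div]
  have hL : Tendsto (fun j : ℕ => Real.log (P j)) atTop atTop :=
    Real.tendsto_log_atTop.comp P_tendsto
  have h2 := (Metric.tendsto_atTop.1 h1) η hη
  obtain ⟨J1, hJ1⟩ := h2
  obtain ⟨J2, hJ2⟩ := eventually_atTop.1 (hL.eventually_ge_atTop 1)
  refine ⟨J1 + J2 + 1, by omega, fun j hj => ⟨?_, ?_, ?_⟩⟩
  · have := hJ1 j (by omega)
    rw [Real.dist_eq] at this
    exact this.le
  · have := hJ2 j (by omega)
    linarith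
  · apply Real.log_pos
    have : (1 : ℝ) ≤ j := by exact_mod_cast (by omega : 1 ≤ j)
    linarith

theorem LP_sub : LP ⊆ LP' := by
  classical
  rintro x ⟨hx0, hx⟩
  refine ⟨hx0, fun ε hε => ?_⟩
  obtain ⟨c, hc, hN⟩ := hx (ε / 2) (by linarith)
  obtain ⟨η, hη⟩ : ∃ η : ℝ, η = ε / (4 * (x + 1 + ε)) := ⟨_, rfl⟩
  have hη0 : 0 < η := by rw [hη]; positivity
  have hη1 : η * (x + 1 + ε) = ε / 4 := by rw [hη]; field_simp
  obtain ⟨J, hJ0, hJ⟩ := ratio_ev η hη0
  obtain ⟨M, hM⟩ := exists_nat_ge (2 * ((J : ℝ) + 1) / c)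
  refine ⟨c / 2, by linarith, fun N₀ => ?_⟩
  obtain ⟨N, hN1, hN2⟩ := hN (N₀ + M)
  refine ⟨N, by omega, ?_⟩
  unfold Near at hN2
  have h1 := count_transfer _ (fun n => |gp n - x| < ε) J (by
    intro j hj hA
    obtain ⟨h2, h3, h4⟩ := hJ j hj
    unfold gp
    rw [Nat.add_sub_cancel]
    push_cast
    obtain ⟨g, hg⟩ : ∃ g : ℝ, g = ((P (j + 1) : ℝ) - P j) / Real.log (P j) := ⟨_, rfl⟩
    obtain ⟨ρ, hρ⟩ : ∃ ρ : ℝ, ρ = Real.log (P j) / Real.log ((j : ℝ) + 1) := ⟨_, rfl⟩
    have h5 : ((P (j + 1) : ℝ) - P j) / Real.log ((j : ℝ) + 1) = g * ρ := by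
      rw [hg, hρ]; field_simp
    rw [h5]
    rw [← hg] at hA
    rw [← hρ] at h2
    have h6 : g * ρ - x = (g - x) + g * (ρ - 1) := by ring
    rw [h6]
    have h7 : |g| ≤ x + ε := by
      have := abs_lt.1 hA
      rw [abs_le]
      constructor <;> linarith
    calc |(g - x) + g * (ρ - 1)| ≤ |g - x| + |g * (ρ - 1)| := abs_add_le _ _
      _ ≤ |g - x| + (x + ε) * η := by
          rw [abs_mul]
          have := mul_le_mul h7 h2 (abs_nonneg _) (by linarith)
          linarith
      _ < ε / 2 + ε / 4 + ε / 4 := by nlinarith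
      _ = ε := by ring) c hc N (hM.trans (by exact_mod_cast (by omega : M ≤ N))) hN2
  refine h1.trans (Nat.cast_le.2 ?_)
  rw [← Set.ncard_coe_finset]
  apply Set.ncard_le_ncard
  · intro n hn
    rw [coe_filter] at hn
    exact hn
  · exact (finite_toSet (Icc 2 N)).subset fun n hn => hn.1

end Pool.Agent.H361R2.PP
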