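import Pool.Agent.H361R2.PP.Cor6
import Pool.Agent.H361R2.PP.Asm2
import Pool.Agent.H380R2.PPLeb

/-! The distribution function of the normalised gaps. -/

set_option autoImplicit false

open Finset MeasureTheory Filter

namespace Pool.Agent.H361R2.PP

open Classical in
theorem small_gaps (x : ℝ) (hx : 0 < x) : ∃ c : ℝ, 0 < c ∧ ∃ N₀ : ℕ, ∀ N : ℕ, N₀ ≤ N →
    c * N ≤ (((Icc 2 N).filter (fun n => gp n < x)).card : ℝ) := by
  obtain ⟨c, hc, N₀, h⟩ := icl (x / 4) 1 1 (by linarith) one_pos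
  obtain ⟨J, hJ0, hJ⟩ := ratio_ev 1 one_pos
  obtain ⟨M, hM⟩ := exists_nat_ge (2 * ((J : ℝ) + 1) / c)
  refine ⟨c / 2, by linarith, N₀ + M, fun N hN => ?_⟩
  refine count_transfer _ (fun n => gp n < x) J ?_ c hc N
    (hM.trans (by exact_mod_cast (by omega : M ≤ N))) (h N (by omega))
  rintro j hj ⟨-, hA, -⟩
  obtain ⟨h2, h3, h4⟩ := hJ j hj
  unfold gp
  rw [Nat.add_sub_cancel]
  push_cast
  rw [div_lt_iff₀ h4]
  have h5 := (abs_le.1 h2).2
  have h6 : Real.log (P j) ≤ 2 * Real.log ((j : ℝ) + 1) := by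
    have h7 : Real.log (P j) / Real.log ((j : ℝ) + 1) ≤ 2 := by linarith
    rwa [div_le_iff₀ h4] at h7
  have h8 : x / 4 * Real.log (P j) ≤ x / 4 * (2 * Real.log ((j : ℝ) + 1)) :=
    mul_le_mul_of_nonneg_left h6 (by linarith)
  have h9 : 0 < x * Real.log ((j : ℝ) + 1) := by positivity
  linarith

open Classical in
theorem large_gaps (x : ℝ) : ∃ c : ℝ, 0 < c ∧ ∃ N₀ : ℕ, ∀ N : ℕ, N₀ ≤ N →
    c * N ≤ (((Icc 2 N).filter (fun n => x ≤ gp n)).card : ℝ) := by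
  obtain ⟨c, hc, N₀, h⟩ := rat2 (2 * |x|)
  obtain ⟨J, hJ0, hJ⟩ := ratio_ev (1 / 2) (by norm_num)
  obtain ⟨M, hM⟩ := exists_nat_ge (2 * ((J : ℝ) + 1) / c)
  refine ⟨c / 2, by linarith, N₀ + M, fun N hN => ?_⟩
  refine count_transfer _ (fun n => x ≤ gp n) J ?_ c hc N
    (hM.trans (by exact_mod_cast (by omega : M ≤ N))) (h N (by omega)).2
  rintro j hj ⟨-, hA⟩
  obtain ⟨h2, h3, h4⟩ := hJ j hj
  unfold gp
  rw [Nat.add_sub_cancel]
  push_cast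
  rw [le_div_iff₀ h4]
  have h5 := (abs_le.1 h2).1
  have h6 : Real.log ((j : ℝ) + 1) ≤ 2 * Real.log (P j) := by
    have h7 : 1 / 2 ≤ Real.log (P j) / Real.log ((j : ℝ) + 1) := by linarith
    rw [le_div_iff₀ h4] at h7
    linarith
  have h8 : |x| * Real.log ((j : ℝ) + 1) ≤ |x| * (2 * Real.log (P j)) :=
    mul_le_mul_of_nonneg_left h6 (abs_nonneg x)
  have h9 : x * Real.log ((j : ℝ) + 1) ≤ |x| * Real.log ((j : ℝ) + 1) :=
    mul_le_mul_of_nonneg_right (le_abs_self x) h4.le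
  linarith

theorem leb : Leb := Pool.Agent.H380R2.PPLeb.leb_of fiv

theorem leb' : ∃ C : ℝ, ∀ T : ℝ, 0 ≤ T →
    ENNReal.ofReal ((T - C) / 4) ≤ volume (LP' ∩ Set.Icc 0 T) := by
  obtain ⟨C, h⟩ := leb
  exact ⟨C, fun T hT => (h T hT).trans (measure_mono (Set.inter_subset_inter_left _ LP_sub))⟩

end Pool.Agent.H361R2.PP
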