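import Pool.Agent.H361R2.PP.Iface

/-!
Project PP: the second moment statement `SM` (to be derived from the sieve engine), and the master
theorem `Master`.
-/

set_option autoImplicit false

open Finset

namespace Pool.Agent.H361R2.PP

open Pool.Agent.H410R2.AC (wt GG cfg term WW pos Inj coef)

/-- rough indicator -/
noncomputable def rg (P : Finset ℕ) (a n : ℕ) : ℝ := by
  classical exact if ∀ p ∈ P, ¬ p ∣ n + a then 1 else 0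

/-- Selberg type function of a family of sets of primes, at the shift `a` -/
noncomputable def FS (S : Finset (Finset ℕ)) (a n : ℕ) : ℝ :=
  ∑ R ∈ S, wt R * ∏ p ∈ R, (if p ∣ n + a then 1 - (p : ℝ) else 1)

/-- the integers of the class -/
noncomputable def SI (X b : ℕ) : Finset ℕ := (Ico X (2 * X)).filter (fun n => n % Wm X = b)

/-- the integers of the class with `n + a` prime -/
noncomputable def SP (X b a : ℕ) : Finset ℕ :=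
  (Ico X (2 * X)).filter (fun n => n % Wm X = b ∧ (n + a).Prime)

/-- admissible families, sizes and signs at level `X` -/
structure Dat (t : ℕ) (u : Fin t → ℝ) (c0 δ : ℝ) (X : ℕ) where
  S : Fin t → Finset (Finset ℕ)
  g : Fin t → ℝ
  cf : ℕ → ℝ
  hS : ∀ τ, ∀ R ∈ S τ, R ⊆ P2 (JJ δ X) X ∧ Real.log (∏ p ∈ R, (p : ℝ)) ≤ u τ * Real.log X
  h0 : ∀ τ, ∅ ∉ S τ
  hd : ∀ τ τ', τ ≠ τ' → Disjoint (S τ) (S τ')
  hg : ∀ τ, 0 ≤ g τ ∧ g τ ≤ 1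
  hc : ∀ a, |cf a| ≤ c0

/-- density of the rough numbers (relative to the class) -/
noncomputable def VV (δ : ℝ) (X : ℕ) : ℝ := ∏ p ∈ P1 (HH X) (JJ δ X), (1 - 1 / (p : ℝ))

/-- one-particle functions -/
noncomputable def xx {t : ℕ} {u : Fin t → ℝ} {c0 δ : ℝ} {X : ℕ} (D : Dat t u c0 δ X) (n : ℕ)
    (τ : Fin t) (a : ℕ) : ℝ :=
  D.cf a * D.g τ * (rg (P1 (HH X) (JJ δ X)) a n * FS (D.S τ) a n)

/-- one-particle masses -/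
noncomputable def qq {t : ℕ} {u : Fin t → ℝ} {c0 δ : ℝ} {X : ℕ} (D : Dat t u c0 δ X)
    (τ : Fin t) (a : ℕ) : ℝ :=
  D.cf a ^ 2 * (D.g τ ^ 2 * (VV δ X * GG (D.S τ)))

/-- main term -/
noncomputable def ZZ {t : ℕ} {u : Fin t → ℝ} {c0 δ : ℝ} {X : ℕ} (D : Dat t u c0 δ X)
    (B : Finset ℕ) (c : (Fin t → Option ℕ) → ℝ) : ℝ :=
  ∑ σ ∈ cfg t B, c σ ^ 2 * term (qq D) σ

/-- the spectator family -/
noncomputable def S1 (δ θ : ℝ) (X : ℕ) : Finset (Finset ℕ) :=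
  (P2 (JJ δ X) X).powerset.filter (fun R : Finset ℕ => ∏ p ∈ R, (p : ℝ) ≤ (X : ℝ) ^ (1 / 4 - 2 * θ))

/-- spectator -/
noncomputable def spec (δ θ : ℝ) (X a n : ℕ) : ℝ :=
  rg (P1 (HH X) (JJ δ X)) a n * FS (S1 δ θ X) a n

/-- SM: asymptotic second moments (to be derived from the engine and `EqInt`, `EqPrime`) -/
def SM : Prop := ∀ (t : ℕ) (u : Fin t → ℝ) (c0 Λ θ s : ℝ), (∀ τ, 0 < u τ) → ∑ τ, u τ ≤ θ / 2 →
  0 < θ → θ ≤ 1 / 32 → 1 ≤ c0 → 0 < Λ → 0 < s → ∃ δ₀ : ℝ, 0 < δ₀ ∧ ∀ δ : ℝ, 0 < δ → δ ≤ δ₀ →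
  ∃ (C : ℝ) (X₀ : ℕ), 0 < C ∧ ∀ X : ℕ, X₀ ≤ X → ∀ b : ℕ, b < Wm X → ∀ D : Dat t u c0 δ X,
  ∀ B ⊆ BB X b ⌊Λ * Real.log X⌋₊, ∀ c : (Fin t → Option ℕ) → ℝ, (∀ σ, |c σ| ≤ c0) →
    |∑ n ∈ SI X b, WW B c (xx D n) ^ 2 - (X : ℝ) / Wm X * ZZ D B c| ≤ s * ((X : ℝ) / Wm X) ∧
    (∀ a ∈ BB X b ⌊Λ * Real.log X⌋₊ \ B,
      |∑ n ∈ SI X b, (spec δ θ X a n * WW B c (xx D n)) ^ 2 -
        (X : ℝ) / Wm X * (VV δ X * GG (S1 δ θ X) * ZZ D B c)| ≤ s * ((X : ℝ) / Wm X * VV δ X)) ∧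
    (∀ a ∈ BB X b ⌊Λ * Real.log X⌋₊ \ B,
      |∑ n ∈ SP X b a, WW B c (xx D n) ^ 2 - Pr X / Nat.totient (Wm X) * ZZ D B c| ≤
        s * (Pr X / Nat.totient (Wm X))) ∧
    (∀ a ∈ BB X b ⌊Λ * Real.log X⌋₊ \ B, ∀ a' ∈ BB X b ⌊Λ * Real.log X⌋₊ \ B, a ≠ a' →
      |∑ n ∈ SP X b a, (spec δ θ X a' n * WW B c (xx D n)) ^ 2 -
        Pr X / Nat.totient (Wm X) * (VV δ X * GG (S1 δ θ X) * ZZ D B c)| ≤
        s * (Pr X / Nat.totient (Wm X) * VV δ X)) ∧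
    ∑ n ∈ SI X b, WW B c (xx D n) ^ 4 ≤ C * ((X : ℝ) / Wm X)

/-- the shifts of the `i`-th cluster -/
def CL (α ε L : ℝ) (a : ℕ) : Prop := α * L < a ∧ (a : ℝ) ≤ (α + ε) * L

open Classical in
/-- the master theorem: a positive proportion of the integers `n` have at least `m` primes in at
least a quarter of the clusters, and no further prime in the window -/
def Master : Prop := ∀ (k m : ℕ) (α : Fin k → ℝ) (ε Λ : ℝ), 0 < ε → 0 < Λ →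
  (∀ i, 0 ≤ α i ∧ α i + ε ≤ Λ) → (∀ i j, i ≠ j → α i + ε ≤ α j ∨ α j + ε ≤ α i) →
  ∃ c : ℝ, 0 < c ∧ ∃ X₀ : ℕ, ∀ X : ℕ, X₀ ≤ X →
  c * X ≤ (((Ico X (2 * X)).filter (fun n =>
    k ≤ 4 * ((univ : Finset (Fin k)).filter (fun i => m ≤
      ((Icc 1 ⌊Λ * Real.log X⌋₊).filter (fun a =>
        CL (α i) ε (Real.log X) a ∧ (n + a).Prime)).card)).card ∧
    ∀ a ∈ Icc 1 ⌊Λ * Real.log X⌋₊, (n + a).Prime → ∃ i, CL (α i) ε (Real.log X) a)).card : ℝ)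

end Pool.Agent.H361R2.PP
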