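import Pool.Agent.H361R2.PP.Iface2
import Pool.Agent.H410R2.ENIface

/-!
Project PP: the deduction of `SM` from helper410's engine (`SecondW`, `FourthW`).
-/

set_option autoImplicit false

open Finset

namespace Pool.Agent.H361R2.PP

open Pool.Agent.H410R2

/-- the class of `-a` modulo `p` -/
def rho (p a : ℕ) : ℕ := (p - a % p) % p

/-- the excluded class (`p`, which is no class, if there is none) -/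
def ee (o : Option ℕ) (p : ℕ) : ℕ :=
  match o with
  | none => p
  | some a => rho p a

/-- local densities -/
noncomputable def kk (o : Option ℕ) (p c : ℕ) : ℝ :=
  match o with
  | none => 1 / (p : ℝ)
  | some a => if c = rho p a then 0 else 1 / ((p : ℝ) - 1)

/-- SM1: translation of the notation -/
def Sm1 : Prop :=
  (∀ p a m : ℕ, 1 ≤ p → (m % p = rho p a ↔ p ∣ m + a)) ∧
  (∀ (P : Finset ℕ) (a m : ℕ), (∀ p ∈ P, 1 ≤ p) → EN.rg rho P a m = rg P a m) ∧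
  (∀ (S : Finset (Finset ℕ)) (a m : ℕ), (∀ R ∈ S, ∀ p ∈ R, 1 ≤ p) →
    AC.FF rho S (some a) m = FS S a m)

/-- SM2: the total local deviation tends to zero -/
def Sm2 : Prop := ∀ (k : ℕ) (Λ s : ℝ), 0 < Λ → 0 < s → ∃ X₀ : ℕ, ∀ X : ℕ, X₀ ≤ X →
  ∀ P : Finset ℕ, (∀ p ∈ P, p.Prime ∧ HH X < p) → ∀ U : Finset ℕ, U.card ≤ k →
  (∀ a ∈ U, 1 ≤ a ∧ (a : ℝ) ≤ Λ * Real.log X) → ∀ o : Option ℕ,
  (∀ a ∈ o, 1 ≤ a ∧ (a : ℝ) ≤ Λ * Real.log X ∧ a ∉ U) → EN.dl (ee o) rho P U ≤ s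

/-- SM3: equidistribution in the format of the engine -/
def Sm3 : Prop := ∀ (o : Option ℕ) (P S : Finset ℕ) (Ω : ℝ) (Er : Finset ℕ → ℝ) (M D0 : ℕ),
  (∀ p ∈ P, p.Prime) → Eqd o P S Ω Er → (∀ n ∈ S, n < M) →
  EN.Equid (kk o) (fun n => if n ∈ S then 1 else 0) M Ω P D0 Er ∧ EN.Dens (kk o) (ee o) P

/-- SM4: second moments and fourth moment with signs, for one set of integers.  Pure translation of
the engine (no asymptotics): `cf` is put in the coefficients. -/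
def Sm4 : Prop := ∀ (t : ℕ) (C c0 : ℝ), 1 ≤ C → 1 ≤ c0 → ∃ K : ℕ, 1 ≤ K ∧
  ∀ (o : Option ℕ) (δ : ℝ) (X b J D0 k0 : ℕ) (P2' : Finset ℕ) (S : Finset ℕ) (Ω : ℝ)
    (Er : Finset ℕ → ℝ) (u : Fin t → ℝ) (D : Dat t u c0 δ X) (B : Finset ℕ) (Y : Fin t → ℕ)
    (Y1 : ℕ) (SS : Finset (Finset ℕ)) (V d E : ℝ),
    J = JJ δ X → K ≤ b → K ≤ HH X → HH X < 2 ^ 2 ^ J → 1 ≤ J →
    (∀ p ∈ P2', p.Prime ∧ 2 ^ 2 ^ J ≤ p) → (∀ τ, ∀ R ∈ D.S τ, R ⊆ P2' ∧ ∏ p ∈ R, p ≤ Y τ) →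
    (∀ τ, 1 ≤ Y τ) → 1 ≤ Y1 → (∀ R ∈ SS, R ⊆ P2' ∧ ∏ p ∈ R, p ≤ Y1) →
    0 ≤ Ω → Eqd o (P1 (HH X) J ∪ P2') S Ω Er →
    ∑ T ∈ (P1 (HH X) J ∪ P2').powerset.filter (fun T : Finset ℕ => ∏ p ∈ T, p ≤ D0),
      (K : ℝ) ^ T.card * Er T ≤ E →
    (2 ^ 2 ^ J) ^ (K * b) * (Y1 * ∏ τ, Y τ) ^ 2 ≤ D0 → 0 < V → V ≤ 1 → d ≤ 1 →
    AC.Pi1 P2' ≤ C / V → (B.card : ℝ) * VV δ X ≤ C / V →
    (∀ U ⊆ B, U.card ≤ 4 * t + 2 → EN.dl (ee o) rho (P1 (HH X) J ∪ P2') U ≤ d) →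
    (∀ n ∈ S, ∀ a ∈ B, ((P2'.filter (fun p => p ∣ n + a)).card ≤ k0)) →
    (∀ c : (Fin t → Option ℕ) → ℝ, (∀ σ, |c σ| ≤ c0) →
      |∑ n ∈ S, AC.WW B c (xx D n) ^ 2 - Ω * ZZ D B c| ≤
        c0 ^ (2 * t + 2) * EN.EF t K b J B.card Ω V d E ∧
      (∀ a ∈ B, |∑ n ∈ S, (rg (P1 (HH X) J) a n * FS SS a n * AC.WW (B.erase a) c (xx D n)) ^ 2 -
        Ω * (VV δ X * AC.GG SS * ZZ D (B.erase a) c)| ≤
        c0 ^ (2 * t + 2) * EN.EF t K b J B.card (Ω * VV δ X) V d E) ∧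
      ∑ n ∈ S, AC.WW B c (xx D n) ^ 4 ≤ c0 ^ (4 * t + 4) * ((K / V) ^ K * 2 ^ (4 * t * k0) *
        (Ω + (B.card + 1 : ℝ) ^ (4 * t) * (((J : ℝ) + 2) * E))))

end Pool.Agent.H361R2.PP
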