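import Pool.Agent.H361R2.PP.Sep

/-!
Project PP: corollaries of the master theorem (interface).
`P j` is the prime number with index `j` (`P 0 = 2`).
-/

set_option autoImplicit false

open Finset MeasureTheory

namespace Pool.Agent.H361R2.PP

/-- the `j`-th prime, `P 0 = 2` -/
noncomputable def P (j : ℕ) : ℕ := Nat.nth Nat.Prime j

open Classical in
/-- TRA: from integers to indices of primes (`R` may depend on the dyadic scale) -/
def Tra : Prop := ∀ (c Λ : ℝ), 0 < c → 0 < Λ → ∃ c' : ℝ, 0 < c' ∧ ∀ X₀ : ℕ, ∃ N₀ : ℕ, ∀ N : ℕ,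
  N₀ ≤ N → ∃ X : ℕ, X₀ ≤ X ∧ ∀ R : ℕ → Prop,
  c * X ≤ (((Ico X (2 * X)).filter (fun n => ∃ a ∈ Icc 1 ⌊Λ * Real.log X⌋₊,
    (n + a).Prime ∧ R (n + a))).card : ℝ) →
  c' * N ≤ (((range N).filter (fun j => R (P j))).card : ℝ)

open Classical in
/-- ICL: isolated clusters.  A positive proportion of the primes `q` begins a cluster of more than
`m` primes in `[q, q + ε log q]`, and there is no other prime within `K log q` of `q`. -/
def Icl : Prop := ∀ (ε K : ℝ) (m : ℕ), 0 < ε → 0 < K → ∃ c : ℝ, 0 < c ∧ ∃ N₀ : ℕ, ∀ N : ℕ, N₀ ≤ N →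
  c * N ≤ (((range N).filter (fun j =>
    (∀ q : ℕ, q.Prime → (P j : ℝ) - K * Real.log (P j) ≤ q → P j ≤ q) ∧
    (P (j + m) : ℝ) ≤ P j + ε * Real.log (P j) ∧
    (∀ q : ℕ, q.Prime → (q : ℝ) ≤ P j + K * Real.log (P j) →
      (q : ℝ) ≤ P j + ε * Real.log (P j)))).card : ℝ)

open Classical in
/-- RAT: positive proportion of indices with a large ratio of consecutive gaps, both ways -/
def Rat2 : Prop := ∀ K : ℝ, ∃ c : ℝ, 0 < c ∧ ∃ N₀ : ℕ, ∀ N : ℕ, N₀ ≤ N →
  c * N ≤ (((range N).filter (fun j =>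
    K * ((P (j + 1) : ℝ) - P j) ≤ (P (j + 2) : ℝ) - P (j + 1) ∧
    K * Real.log (P j) ≤ (P (j + 2) : ℝ) - P (j + 1))).card : ℝ) ∧
  c * N ≤ (((range N).filter (fun j =>
    K * ((P (j + 2) : ℝ) - P (j + 1)) ≤ (P (j + 1) : ℝ) - P j ∧
    K * Real.log (P j) ≤ (P (j + 1) : ℝ) - P j)).card : ℝ)

open Classical in
/-- the proportion of indices below `N` whose normalised gap is within `ε` of `x` is at least `c` -/
def Near (x ε c : ℝ) (N : ℕ) : Prop :=
  c * N ≤ (((range N).filter (fun j =>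
    |((P (j + 1) : ℝ) - P j) / Real.log (P j) - x| < ε)).card : ℝ)

/-- FIV: among the differences of any five real numbers one is approximated by a positive
proportion of the normalised gaps, for every large `N` -/
def Fiv : Prop := ∀ (β : Fin 5 → ℝ), StrictMono β → ∀ ε : ℝ, 0 < ε → ∃ c : ℝ, 0 < c ∧ ∃ N₀ : ℕ,
  ∀ N : ℕ, N₀ ≤ N → ∃ i j : Fin 5, i < j ∧ Near (β j - β i) ε c N

/-- the values approximated by normalised gaps with positive upper density -/
def LP : Set ℝ := {x : ℝ | 0 ≤ x ∧ ∀ ε : ℝ, 0 < ε → ∃ c : ℝ, 0 < c ∧ ∀ N₀ : ℕ, ∃ N : ℕ, N₀ ≤ N ∧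
  Near x ε c N}

/-- LEB: these values have lower density at least one quarter -/
def Leb : Prop := ∃ C : ℝ, ∀ T : ℝ, 0 ≤ T →
  ENNReal.ofReal ((T - C) / 4) ≤ volume (LP ∩ Set.Icc 0 T)

end Pool.Agent.H361R2.PP
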