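import Pool.Agent.H361R2.PP.Cls3

/-! Parameters: elementary inequalities. -/

set_option autoImplicit false

open Finset

namespace Pool.Agent.H361R2.PP

theorem xi_aux {ξ s : ℝ} (h0 : 0 < ξ) (h1 : ξ ≤ 1 / 8) (hs0 : 0 ≤ s) (hs : s ≤ ξ / 3000) :
    (1 + s) ^ 4 / (1 / 4 - 3 * (ξ / 96)) ≤ 4 * (1 + ξ) := by
  have h2 : 0 < 1 / 4 - 3 * (ξ / 96) := by linarith
  rw [div_le_iff₀ h2]
  have h3 : (1 + s) ^ 4 ≤ (1 + ξ / 3000) ^ 4 := by gcongr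
  have h4 : (1 + ξ / 3000) ^ 2 ≤ 1 + ξ / 1000 := by nlinarith
  have h5 : (1 + ξ / 3000) ^ 4 ≤ (1 + ξ / 1000) ^ 2 := by
    calc (1 + ξ / 3000) ^ 4 = ((1 + ξ / 3000) ^ 2) ^ 2 := by ring
      _ ≤ _ := by gcongr
  have h6 : (1 + ξ / 1000) ^ 2 ≤ 1 + ξ / 100 := by nlinarith
  nlinarith

theorem xi_ineq {ξ s s' μ : ℝ} {m : ℕ} (h0 : 0 < ξ) (h1 : ξ ≤ 1 / 8) (hs' : s' = ξ / 16)
    (hs0 : 0 ≤ s) (hs : s ≤ ξ / 3000) (hμ : 2 * ((m : ℝ) + 1) / s' ≤ μ) :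
    (1 + s') * (m : ℝ) ≤ (1 - s') * μ ∧ 0 < μ ∧
    1 / 4 - ξ ≤ ((1 - s') * μ - (1 + s') * m) ^ 2 /
      ((1 + s) ^ 4 / (1 / 4 - 3 * (ξ / 96)) * μ ^ 2 + (1 + s') * μ) := by
  have hs'0 : 0 < s' := by rw [hs']; linarith
  have hs'1 : s' ≤ 1 / 128 := by rw [hs']; linarith
  have hm0 : (0 : ℝ) ≤ m := Nat.cast_nonneg m
  rw [div_le_iff₀ hs'0] at hμ
  have hμ0 : 0 < μ := by
    by_contra hcon
    push Not at hcon
    nlinarith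
  have h3 : (1 + s') * (m : ℝ) ≤ μ * s' := by nlinarith
  have h4 : (1 - 2 * s') * μ ≤ (1 - s') * μ - (1 + s') * m := by nlinarith
  have h5 : (1 + s') * μ ≤ ξ * μ ^ 2 := by
    have h6 : 1 + s' ≤ ξ * μ := by
      have : ξ * μ = 16 * (μ * s') := by rw [hs']; ring
      rw [this]
      nlinarith
    nlinarith
  refine ⟨by nlinarith, hμ0, ?_⟩
  have hq := xi_aux h0 h1 hs0 hs
  have hq0 : 0 < (1 + s) ^ 4 / (1 / 4 - 3 * (ξ / 96)) := by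
    apply div_pos (by positivity)
    linarith
  rw [le_div_iff₀ (by positivity)]
  have h7 : ((1 - 2 * s') * μ) ^ 2 ≤ ((1 - s') * μ - (1 + s') * m) ^ 2 := by
    apply pow_le_pow_left₀ _ h4
    have : 0 ≤ 1 - 2 * s' := by linarith
    positivity
  refine le_trans ?_ h7
  have h8 : (1 + s) ^ 4 / (1 / 4 - 3 * (ξ / 96)) * μ ^ 2 + (1 + s') * μ ≤
      (4 + 5 * ξ) * μ ^ 2 := by
    have := mul_le_mul_of_nonneg_right hq (sq_nonneg μ)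
    nlinarith
  have h9 : 0 ≤ 1 / 4 - ξ := by linarith
  calc (1 / 4 - ξ) * ((1 + s) ^ 4 / (1 / 4 - 3 * (ξ / 96)) * μ ^ 2 + (1 + s') * μ) ≤
      (1 / 4 - ξ) * ((4 + 5 * ξ) * μ ^ 2) := mul_le_mul_of_nonneg_left h8 h9
    _ = ((1 / 4 - ξ) * (4 + 5 * ξ)) * μ ^ 2 := by ring
    _ ≤ ((1 - 2 * s') ^ 2) * μ ^ 2 := by
        apply mul_le_mul_of_nonneg_right _ (sq_nonneg μ)
        rw [hs']
        nlinarith
    _ = _ := by ring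

theorem fin_ineq {k : ℕ} {ξ s s' Λ : ℝ} (hξ : ξ = 1 / (8 * ((k : ℝ) + 1))) (hs' : s' = ξ / 16)
    (hΛ : 0 < Λ) (hs : s = ξ / (3000 * (Λ + 1))) :
    4 * k * ξ + (k + 1) * s' + 4 * (k + 1) * (20 * Λ * s) ≤ 3 / 4 := by
  have hk : (0 : ℝ) ≤ k := Nat.cast_nonneg k
  have h1 : ((k : ℝ) + 1) * ξ = 1 / 8 := by
    rw [hξ]
    field_simp
  have hξ0 : 0 < ξ := by rw [hξ]; positivity
  have h2 : 4 * (k : ℝ) * ξ ≤ 1 / 2 := by nlinarith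
  have h3 : ((k : ℝ) + 1) * s' = 1 / 128 := by
    rw [hs']
    calc ((k : ℝ) + 1) * (ξ / 16) = ((k : ℝ) + 1) * ξ / 16 := by ring
      _ = _ := by rw [h1]; norm_num
  have h4 : Λ * s ≤ ξ / 3000 := by
    rw [hs, mul_div_assoc', div_le_div_iff₀ (by positivity) (by norm_num)]
    nlinarith
  have h5 : 4 * ((k : ℝ) + 1) * (20 * Λ * s) ≤ 80 / 24000 := by
    calc 4 * ((k : ℝ) + 1) * (20 * Λ * s) = 80 * ((k : ℝ) + 1) * (Λ * s) := by ring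
      _ ≤ 80 * ((k : ℝ) + 1) * (ξ / 3000) := mul_le_mul_of_nonneg_left h4 (by positivity)
      _ = 80 / 3000 * (((k : ℝ) + 1) * ξ) := by ring
      _ = _ := by rw [h1]; norm_num
  linarith

/-- the floor of a power -/
theorem log_floor {a θ : ℝ} (ha : 0 ≤ a) (hθ : 0 < θ) : ∃ X₀ : ℕ, ∀ X : ℕ, X₀ ≤ X →
    (a - θ) * Real.log X ≤ Real.log (⌊(X : ℝ) ^ a⌋₊ : ℝ) ∧ 1 ≤ ⌊(X : ℝ) ^ a⌋₊ := by
  obtain ⟨X₀, hX₀⟩ := exists_nat_ge (Real.exp (Real.log 2 / θ))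
  refine ⟨max X₀ 1, fun X hX => ?_⟩
  have h1 : (1 : ℝ) ≤ X := by exact_mod_cast (le_max_right _ _).trans hX
  have h2 : (X₀ : ℝ) ≤ X := by exact_mod_cast (le_max_left _ _).trans hX
  have hX0 : (0 : ℝ) < X := by linarith
  have h3 : Real.log 2 / θ ≤ Real.log X := by
    rw [Real.le_log_iff_exp_le hX0]
    linarith
  rw [div_le_iff₀ hθ] at h3
  have h4 : (1 : ℝ) ≤ (X : ℝ) ^ a := Real.one_le_rpow h1 ha
  have h5 : 1 ≤ ⌊(X : ℝ) ^ a⌋₊ := Nat.le_floor (by simpa using h4)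
  refine ⟨?_, h5⟩
  have h6 : (X : ℝ) ^ a / 2 ≤ (⌊(X : ℝ) ^ a⌋₊ : ℝ) := by
    have h7 := Nat.lt_floor_add_one ((X : ℝ) ^ a)
    have h8 : (1 : ℝ) ≤ (⌊(X : ℝ) ^ a⌋₊ : ℝ) := by exact_mod_cast h5
    linarith
  calc (a - θ) * Real.log X ≤ a * Real.log X - Real.log 2 := by nlinarith
    _ = Real.log ((X : ℝ) ^ a / 2) := by
        rw [Real.log_div (by positivity) (by norm_num), Real.log_rpow hX0]
    _ ≤ _ := Real.log_le_log (by positivity) h6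

end Pool.Agent.H361R2.PP
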