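import Pool.Agent.H361R2.PP.Main1

/-! The data for one class. -/

set_option autoImplicit false

open Finset

namespace Pool.Agent.H361R2.PP

open Pool.Agent.H410R2.AC (wt GG cfg term WW pos Inj coef)

/-- the families from `Types` -/
theorem fam_of {t : ℕ} {u β : Fin t → ℝ} {η' δ CT T : ℝ} {X : ℕ} (hδ : 0 < δ)
    (hL : 0 < Real.log X) (hT : T ≤ 1 / 8)
    (hty : ∀ (Ω : Finset (Finset ℕ)) (ω sz : Finset ℕ → ℝ),
      (∀ R ∈ Ω, 0 ≤ ω R ∧ ω R ≤ 1) →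
      (∀ t : ℝ, δ ≤ t → t ≤ T → t / (CT * δ) ≤ ∑ R ∈ Ω.filter (fun R => sz R ≤ t), ω R ∧
        ∑ R ∈ Ω.filter (fun R => sz R ≤ t), ω R ≤ CT * t / δ) →
      ∃ S : Fin t → Finset (Finset ℕ),
        (∀ τ, S τ ⊆ Ω.filter (fun R => δ < sz R ∧ sz R ≤ u τ)) ∧
        (∀ τ τ', τ ≠ τ' → Disjoint (S τ) (S τ')) ∧
        ∀ τ, β τ ^ 2 / (η' * δ) ≤ ∑ R ∈ S τ, ω R)
    (hG : ∀ t : ℝ, δ ≤ t → t ≤ 1 / 8 →
      t / (CT * δ) ≤ ∑ R ∈ (P2 (JJ δ X) X).powerset.filter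
        (fun R : Finset ℕ => Real.log (∏ p ∈ R, (p : ℝ)) ≤ t * Real.log X), wt R ∧
      ∑ R ∈ (P2 (JJ δ X) X).powerset.filter
        (fun R : Finset ℕ => Real.log (∏ p ∈ R, (p : ℝ)) ≤ t * Real.log X), wt R ≤ CT * t / δ) :
    ∃ S : Fin t → Finset (Finset ℕ),
      (∀ τ, ∀ R ∈ S τ, R ⊆ P2 (JJ δ X) X ∧
        Real.log (∏ p ∈ R, (p : ℝ)) ≤ u τ * Real.log X) ∧
      (∀ τ, ∅ ∉ S τ) ∧ (∀ τ τ', τ ≠ τ' → Disjoint (S τ) (S τ')) ∧
      (∀ τ, β τ ^ 2 / (η' * δ) ≤ GG (S τ)) := by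
  obtain ⟨S, h1, h2, h3⟩ := hty (P2 (JJ δ X) X).powerset wt
    (fun R => Real.log (∏ p ∈ R, (p : ℝ)) / Real.log X) (by
      intro R hR
      rw [mem_powerset] at hR
      refine ⟨wt_nonneg P2_prime hR, ?_⟩
      unfold wt
      apply prod_le_one
      · intro p hp
        have := (P2_prime (δ := δ) (X := X) p (hR hp)).two_le
        have h2 : (2 : ℝ) ≤ p := by exact_mod_cast this
        apply one_div_nonneg.2
        linarith
      · intro p hp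
        have := (P2_prime (δ := δ) (X := X) p (hR hp)).two_le
        have h2 : (2 : ℝ) ≤ p := by exact_mod_cast this
        rw [div_le_one (by linarith)]
        linarith) (by
      intro t' ht1 ht2
      have h4 := hG t' ht1 (ht2.trans hT)
      have h5 : (P2 (JJ δ X) X).powerset.filter
          (fun R : Finset ℕ => Real.log (∏ p ∈ R, (p : ℝ)) / Real.log X ≤ t') =
          (P2 (JJ δ X) X).powerset.filter
          (fun R : Finset ℕ => Real.log (∏ p ∈ R, (p : ℝ)) ≤ t' * Real.log X) := by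
        apply filter_congr
        intro R _
        rw [div_le_iff₀ hL]
      rw [h5]
      exact h4)
  refine ⟨S, ?_, ?_, h2, h3⟩
  · intro τ R hR
    have h4 := h1 τ hR
    rw [mem_filter, mem_powerset, div_le_iff₀ hL] at h4
    exact ⟨h4.1, h4.2.2⟩
  · intro τ hR
    have h4 := h1 τ hR
    rw [mem_filter, prod_empty, Real.log_one, zero_div] at h4
    linarith [h4.2.1]

/-- the situation -/
theorem sit_of {t : ℕ} {u β : Fin t → ℝ} {η' δ s c Λ θ C CM : ℝ} {X b : ℕ}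
    (hc : 0 ≤ c) (hs : 0 < s) (hs1 : s ≤ 1) (hδ : 0 < δ) (hη' : 0 < η') (hΛ : 0 < Λ)
    (hCM : 0 < CM) (hηd : η' = s / 2 / (2 * (1 + c) ^ 2 * Λ * CM))
    (hβ : ∀ τ, 0 < β τ) (hβ1 : ∑ τ, β τ = 1) (hδβ : ∀ τ, δ ≤ β τ / η')
    (hL : 0 < Real.log X)
    (S : Fin t → Finset (Finset ℕ))
    (hS : ∀ τ, ∀ R ∈ S τ, R ⊆ P2 (JJ δ X) X ∧
        Real.log (∏ p ∈ R, (p : ℝ)) ≤ u τ * Real.log X)
    (h0 : ∀ τ, ∅ ∉ S τ) (hd : ∀ τ τ', τ ≠ τ' → Disjoint (S τ) (S τ'))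
    (hG : ∀ τ, β τ ^ 2 / (η' * δ) ≤ GG (S τ))
    (cf : ℕ → ℝ) (hcf : ∀ a, cf a = c ∨ cf a = -1)
    (hSM : ∀ D : Dat t u ((1 + c) ^ 2) δ X, SMc Λ θ s C b D)
    (hB : ((BB X b ⌊Λ * Real.log X⌋₊).card : ℝ) ≤
      (1 + s) * (Λ * Real.log X * (Nat.totient (Wm X) / Wm X)))
    (hV0 : 0 < VV δ X)
    (hM : VV δ X * ((Nat.totient (Wm X) : ℝ) / Wm X) * (δ * Real.log X) ≤ CM)
    (hV1 : VV δ X ≤ s / ((1 + c) ^ 2 * η' * δ * t + 1))
    (hJ : 2 ^ 2 ^ JJ δ X ≤ X) :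
    ∃ D : Dat t u ((1 + c) ^ 2) δ X, Sit Λ θ s C (s / 2) c b β D ∧ D.cf = cf := by
  have h1c : (1 : ℝ) ≤ (1 + c) ^ 2 := by nlinarith
  have hG0 : ∀ τ, 0 < GG (S τ) := fun τ => lt_of_lt_of_le (by have := hβ τ; positivity) (hG τ)
  have hcf1 : ∀ a, |cf a| ≤ (1 + c) ^ 2 := by
    intro a
    rcases hcf a with h | h
    · rw [h, abs_of_nonneg hc]; nlinarith
    · rw [h, abs_neg, abs_one]; exact h1c
  have hcf2 : ∀ a, cf a ^ 2 ≤ (1 + c) ^ 2 := by
    intro a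
    rcases hcf a with h | h
    · rw [h]; nlinarith
    · rw [h]; nlinarith
  let D : Dat t u ((1 + c) ^ 2) δ X :=
    { S := S
      g := fun τ => β τ / GG (S τ)
      cf := cf
      hS := hS
      h0 := h0
      hd := hd
      hg := by
        intro τ
        have h1 := hβ τ
        refine ⟨(div_pos h1 (hG0 τ)).le, ?_⟩
        rw [div_le_one (hG0 τ)]
        refine le_trans ?_ (hG τ)
        rw [le_div_iff₀ (by positivity)]
        have h2 := hδβ τ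
        rw [le_div_iff₀ hη'] at h2
        nlinarith
      hc := hcf1 }
  have hqq : ∀ τ a, qq D τ a ≤ (1 + c) ^ 2 * (η' * δ) * VV δ X := by
    intro τ a
    have h1 : qq D τ a = cf a ^ 2 * ((β τ ^ 2 / GG (S τ)) * VV δ X) := by
      change cf a ^ 2 * ((β τ / GG (S τ)) ^ 2 * (VV δ X * GG (S τ))) = _
      have := (hG0 τ).ne'
      field_simp
    rw [h1]
    have h2 : β τ ^ 2 / GG (S τ) ≤ η' * δ := by
      rw [div_le_iff₀ (hG0 τ)]
      have := hG τ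
      rw [div_le_iff₀ (by positivity)] at this
      linarith
    have h3 : β τ ^ 2 / GG (S τ) * VV δ X ≤ η' * δ * VV δ X :=
      mul_le_mul_of_nonneg_right h2 hV0.le
    calc cf a ^ 2 * (β τ ^ 2 / GG (S τ) * VV δ X) ≤ (1 + c) ^ 2 * (η' * δ * VV δ X) := by
          apply mul_le_mul (hcf2 a) h3 _ (by positivity)
          have := (hG0 τ).le
          positivity
      _ = _ := by ring
  refine ⟨D, ?_, rfl⟩
  refine
    { sm := hSM D
      s0 := hs.le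
      s1 := hs1
      c00 := hc
      cc0 := le_rfl
      β0 := fun τ => (hβ τ).le
      β1 := hβ1
      gg := hG0
      g := fun τ => rfl
      η0 := by linarith
      hη := ?_
      hq := ?_
      pJ := hJ
      v0 := hV0.le
      ηs := le_rfl }
  · intro τ
    calc ∑ a ∈ BB X b ⌊Λ * Real.log X⌋₊, qq D τ a ≤
        ∑ a ∈ BB X b ⌊Λ * Real.log X⌋₊, (1 + c) ^ 2 * (η' * δ) * VV δ X :=
          sum_le_sum fun a _ => hqq τ a
      _ = ((BB X b ⌊Λ * Real.log X⌋₊).card : ℝ) * ((1 + c) ^ 2 * (η' * δ) * VV δ X) := by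
          rw [sum_const, nsmul_eq_mul]
      _ ≤ (1 + s) * (Λ * Real.log X * (Nat.totient (Wm X) / Wm X)) *
            ((1 + c) ^ 2 * (η' * δ) * VV δ X) :=
          mul_le_mul_of_nonneg_right hB (by positivity)
      _ = (1 + s) * Λ * (1 + c) ^ 2 * η' *
            (VV δ X * ((Nat.totient (Wm X) : ℝ) / Wm X) * (δ * Real.log X)) := by ring
      _ ≤ (1 + s) * Λ * (1 + c) ^ 2 * η' * CM :=
          mul_le_mul_of_nonneg_left hM (by positivity)
      _ ≤ 2 * Λ * (1 + c) ^ 2 * η' * CM := by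
          have : 0 ≤ Λ * (1 + c) ^ 2 * η' * CM := by positivity
          nlinarith
      _ = s / 2 := by
          rw [hηd]
          field_simp
  · intro a
    calc ∑ τ, qq D τ a ≤ ∑ τ : Fin t, (1 + c) ^ 2 * (η' * δ) * VV δ X :=
          sum_le_sum fun τ _ => hqq τ a
      _ = ((1 + c) ^ 2 * η' * δ * t) * VV δ X := by
          rw [sum_const, card_univ, Fintype.card_fin, nsmul_eq_mul]
          ring
      _ ≤ ((1 + c) ^ 2 * η' * δ * t + 1) * VV δ X := by nlinarith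
      _ ≤ s := by
          rw [le_div_iff₀ (by positivity)] at hV1
          linarith

end Pool.Agent.H361R2.PP
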