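import Pool.Agent.H361R2.PP.Main3

/-! Close pairs of primes are rare (an upper bound from `SM` without particles), and the master
theorem with separated primes. -/

set_option autoImplicit false

open Finset

namespace Pool.Agent.H361R2.PP

open Pool.Agent.H410R2.AC (wt GG cfg term WW pos Inj coef)

/-- the primes of the window are separated -/
def Sep (κ Λ : ℝ) (X n : ℕ) : Prop :=
  ∀ a ∈ Icc 1 ⌊Λ * Real.log X⌋₊, ∀ a' ∈ Icc 1 ⌊Λ * Real.log X⌋₊, a < a' → (n + a).Prime →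
    (n + a').Prime → κ * Real.log X < (a' : ℝ) - a

/-- the trivial data -/
noncomputable def D0 (δ : ℝ) (X : ℕ) : Dat 0 (fun i => i.elim0) 1 δ X where
  S := fun i => i.elim0
  g := fun i => i.elim0
  cf := fun _ => 1
  hS := fun i => i.elim0
  h0 := fun i => i.elim0
  hd := fun i => i.elim0
  hg := fun i => i.elim0
  hc := fun _ => by rw [abs_one]

theorem WW_zero (B : Finset ℕ) (x : Fin 0 → ℕ → ℝ) : WW B (fun _ => 1) x = 1 := by
  classical
  unfold WW
  have h : cfg 0 B = {fun i => i.elim0} := by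
    ext σ
    constructor
    · intro _
      rw [mem_singleton]
      funext i
      exact i.elim0
    · intro _
      unfold cfg
      rw [mem_filter]
      refine ⟨?_, ?_⟩
      · rw [Fintype.mem_piFinset]
        intro i
        exact i.elim0
      · intro i
        exact i.elim0
  rw [h, sum_singleton]
  unfold term
  simp

theorem ZZ_zero (δ : ℝ) (X : ℕ) (B : Finset ℕ) : ZZ (D0 δ X) B (fun _ => 1) = 1 := by
  have h := WW_zero B (qq (D0 δ X))
  unfold WW at h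
  unfold ZZ
  refine Eq.trans (sum_congr rfl fun σ _ => ?_) h
  ring

open Classical in
/-- one class -/
theorem close_class {δ Λ κ : ℝ} {X b : ℕ} (hX : 1 ≤ X) (hHX : HH X < X) (hL : 0 < Real.log X)
    (hΛ : 0 < Λ) (hκ : 0 < κ) (hJ : 2 ^ 2 ^ JJ δ X ≤ X) (hV0 : 0 < VV δ X)
    (hsm : ∀ a ∈ BB X b ⌊Λ * Real.log X⌋₊, ∀ a' ∈ BB X b ⌊Λ * Real.log X⌋₊, a ≠ a' →
      |∑ n ∈ SP X b a, (spec δ (1 / 32) X a' n) ^ 2 -
        Pr X / Nat.totient (Wm X) * (VV δ X * GG (S1 δ (1 / 32) X))| ≤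
        1 * (Pr X / Nat.totient (Wm X) * VV δ X))
    (hcB : ((BB X b ⌊Λ * Real.log X⌋₊).card : ℝ) ≤
      2 * (Λ * Real.log X * (Nat.totient (Wm X) / Wm X)))
    (hcA : ∀ a ∈ BB X b ⌊Λ * Real.log X⌋₊,
      (((BB X b ⌊Λ * Real.log X⌋₊).filter (fun a' : ℕ => a < a' ∧
        (a' : ℝ) ≤ a + κ * Real.log X)).card : ℝ) ≤
        2 * (κ * Real.log X * (Nat.totient (Wm X) / Wm X)))
    (hpnt : |Pr X * Real.log X - X| ≤ 1 * X)
    (hVG : VV δ X / GG (S1 δ (1 / 32) X) * (((Nat.totient (Wm X) : ℝ) / Wm X) *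
      ((1 / 4 - 3 * (1 / 32)) * Real.log X)) ≤ 1) :
    (((SI X b).filter (fun n => ¬ Sep κ Λ X n)).card : ℝ) ≤ 128 * Λ * κ * ((X : ℝ) / Wm X) := by
  set B := BB X b ⌊Λ * Real.log X⌋₊ with hB
  set Ω' := Pr X / Nat.totient (Wm X) with hΩ'
  have hΩ'0 : 0 ≤ Ω' := Om'_nonneg X
  set G := GG (S1 δ (1 / 32) X) with hG
  have hG1 : 1 ≤ G := GG1_ge hX le_rfl
  set v := VV δ X / G with hv
  have hv0 : 0 ≤ v := div_nonneg hV0.le (by linarith)
  set f := (Nat.totient (Wm X) : ℝ) / Wm X with hf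
  set L := Real.log X with hLd
  -- one pair
  have hpair : ∀ a ∈ B, ∀ a' ∈ B, a ≠ a' →
      (((SP X b a).filter (fun n => (n + a').Prime)).card : ℝ) ≤ 2 * (Ω' * v) := by
    intro a ha a' ha' hne
    have ha1 : 1 ≤ a' := (mem_BB.1 ha').1
    have h1 := (abs_le.1 (hsm a ha a' ha' hne)).2
    have h2 : (((SP X b a).filter (fun n => (n + a').Prime)).card : ℝ) * G ^ 2 ≤
        ∑ n ∈ SP X b a, (spec δ (1 / 32) X a' n) ^ 2 := by
      calc (((SP X b a).filter (fun n => (n + a').Prime)).card : ℝ) * G ^ 2 =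
          ∑ n ∈ (SP X b a).filter (fun n => (n + a').Prime), (spec δ (1 / 32) X a' n) ^ 2 := by
            rw [← nsmul_eq_mul, ← sum_const]
            refine sum_congr rfl fun n hn => ?_
            rw [mem_filter, mem_SP] at hn
            unfold spec
            rw [rg_prime (P1_lt hJ hn.1.1 ha1) hn.2, FS_prime (P2_lt hn.1.1 ha1) S1_sub hn.2,
              one_mul]
        _ ≤ _ := sum_le_sum_of_subset_of_nonneg (filter_subset _ _) fun n _ _ => sq_nonneg _
    have h3 : (((SP X b a).filter (fun n => (n + a').Prime)).card : ℝ) * G ^ 2 ≤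
        Ω' * VV δ X * (G + 1) := by linarith
    have h4 : Ω' * VV δ X * (G + 1) ≤ Ω' * VV δ X * (2 * G) := by
      apply mul_le_mul_of_nonneg_left (by linarith)
      exact mul_nonneg hΩ'0 hV0.le
    have h5 : (((SP X b a).filter (fun n => (n + a').Prime)).card : ℝ) * G ^ 2 ≤
        2 * (Ω' * v) * G ^ 2 := by
      refine (h3.trans h4).trans (le_of_eq ?_)
      rw [hv]
      have : G ≠ 0 := by linarith
      field_simp
    exact le_of_mul_le_mul_right h5 (by positivity)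
  -- the union bound
  have hsub : (SI X b).filter (fun n => ¬ Sep κ Λ X n) ⊆
      B.biUnion (fun a => (B.filter (fun a' : ℕ => a < a' ∧ (a' : ℝ) ≤ a + κ * L)).biUnion
        (fun a' => (SP X b a).filter (fun n => (n + a').Prime))) := by
    intro n hn
    rw [mem_filter] at hn
    obtain ⟨hnS, hn2⟩ := hn
    unfold Sep at hn2
    push Not at hn2
    obtain ⟨a, ha, a', ha', hlt, hp, hp', hle⟩ := hn2
    rw [mem_Icc] at ha ha'
    have haB : a ∈ B := prime_BB hHX hnS ha.1 ha.2 hp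
    have haB' : a' ∈ B := prime_BB hHX hnS ha'.1 ha'.2 hp'
    rw [mem_biUnion]
    refine ⟨a, haB, ?_⟩
    rw [mem_biUnion]
    refine ⟨a', ?_, ?_⟩
    · rw [mem_filter]
      exact ⟨haB', hlt, by linarith⟩
    · rw [mem_filter, SP_eq, mem_filter]
      exact ⟨⟨hnS, hp⟩, hp'⟩
  have hcard : (((SI X b).filter (fun n => ¬ Sep κ Λ X n)).card : ℝ) ≤
      ∑ a ∈ B, ∑ a' ∈ B.filter (fun a' : ℕ => a < a' ∧ (a' : ℝ) ≤ a + κ * L),
        (((SP X b a).filter (fun n => (n + a').Prime)).card : ℝ) := by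
    have h1 := (card_le_card hsub).trans card_biUnion_le
    have h2 : ∀ a ∈ B, ((B.filter (fun a' : ℕ => a < a' ∧ (a' : ℝ) ≤ a + κ * L)).biUnion
        (fun a' => (SP X b a).filter (fun n => (n + a').Prime))).card ≤
        ∑ a' ∈ B.filter (fun a' : ℕ => a < a' ∧ (a' : ℝ) ≤ a + κ * L),
        ((SP X b a).filter (fun n => (n + a').Prime)).card := fun a _ => card_biUnion_le
    exact_mod_cast h1.trans (sum_le_sum h2)
  refine hcard.trans ?_
  have hT0 : 0 ≤ 2 * (Ω' * v) := mul_nonneg (by norm_num) (mul_nonneg hΩ'0 hv0)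
  have hf0 : 0 ≤ f := by rw [hf]; positivity
  have h6 : ∑ a ∈ B, ∑ a' ∈ B.filter (fun a' : ℕ => a < a' ∧ (a' : ℝ) ≤ a + κ * L),
        (((SP X b a).filter (fun n => (n + a').Prime)).card : ℝ) ≤
      ∑ a ∈ B, (2 * (κ * L * f)) * (2 * (Ω' * v)) := by
    refine sum_le_sum fun a ha => ?_
    calc ∑ a' ∈ B.filter (fun a' : ℕ => a < a' ∧ (a' : ℝ) ≤ a + κ * L),
        (((SP X b a).filter (fun n => (n + a').Prime)).card : ℝ) ≤
        ∑ a' ∈ B.filter (fun a' : ℕ => a < a' ∧ (a' : ℝ) ≤ a + κ * L), 2 * (Ω' * v) := by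
          refine sum_le_sum fun a' ha' => ?_
          rw [mem_filter] at ha'
          exact hpair a ha a' ha'.1 (by omega)
      _ = ((B.filter (fun a' : ℕ => a < a' ∧ (a' : ℝ) ≤ a + κ * L)).card : ℝ) *
            (2 * (Ω' * v)) := by rw [sum_const, nsmul_eq_mul]
      _ ≤ _ := mul_le_mul_of_nonneg_right (hcA a ha) hT0
  refine h6.trans ?_
  rw [sum_const, nsmul_eq_mul]
  have h7 : (B.card : ℝ) * ((2 * (κ * L * f)) * (2 * (Ω' * v))) ≤
      (2 * (Λ * L * f)) * ((2 * (κ * L * f)) * (2 * (Ω' * v))) := by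
    apply mul_le_mul_of_nonneg_right hcB
    exact mul_nonneg (by positivity) hT0
  refine h7.trans ?_
  have hφ0 : (0 : ℝ) < Nat.totient (Wm X) := by exact_mod_cast Nat.totient_pos.2 (Wm_pos X)
  have hW0 : (0 : ℝ) < Wm X := by exact_mod_cast Wm_pos X
  have h8 : L * f * Ω' ≤ 2 * ((X : ℝ) / Wm X) := by
    have h9 : L * f * Ω' = Pr X * L / Wm X := by
      rw [hf, hΩ']
      field_simp
    rw [h9, ← mul_div_assoc]
    apply div_le_div_of_nonneg_right _ hW0.le
    have := (abs_le.1 hpnt).2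
    linarith
  have h9 : v * (f * L) ≤ 32 / 5 := by
    have h10 : v * (f * L) * (5 / 32) ≤ 1 := by
      calc v * (f * L) * (5 / 32) = v * (f * ((1 / 4 - 3 * (1 / 32)) * L)) := by ring
        _ ≤ 1 := hVG
    linarith
  have h11 : (L * f * Ω') * (v * (f * L)) ≤ (2 * ((X : ℝ) / Wm X)) * (32 / 5) := by
    apply mul_le_mul h8 h9
    · exact mul_nonneg hv0 (by positivity)
    · positivity
  calc (2 * (Λ * L * f)) * ((2 * (κ * L * f)) * (2 * (Ω' * v))) =
      (8 * Λ * κ) * ((L * f * Ω') * (v * (f * L))) := by ring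
    _ ≤ (8 * Λ * κ) * ((2 * ((X : ℝ) / Wm X)) * (32 / 5)) :=
        mul_le_mul_of_nonneg_left h11 (by positivity)
    _ = 512 / 5 * (Λ * κ * ((X : ℝ) / Wm X)) := by ring
    _ ≤ 128 * (Λ * κ * ((X : ℝ) / Wm X)) := by
        apply mul_le_mul_of_nonneg_right (by norm_num)
        positivity
    _ = _ := by ring

open Classical in
/-- close pairs are rare -/
def CloseRare : Prop := ∀ (Λ κ : ℝ), 0 < Λ → 0 < κ → ∃ X₀ : ℕ, ∀ X : ℕ, X₀ ≤ X →
  (((Ico X (2 * X)).filter (fun n => ¬ Sep κ Λ X n)).card : ℝ) ≤ 128 * Λ * κ * X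

open Classical in
theorem close_of (hSM : SM) (hGGS : GGSharp) (hMer : Mer) (hCnt : Cnt) (hPnt : PntX)
    (hWtx : Wtx) : CloseRare := by
  intro Λ κ hΛ hκ
  obtain ⟨δ₀, hδ₀, hsm⟩ := hSM 0 (fun i => i.elim0) 1 Λ (1 / 32) 1 (fun i => i.elim0)
    (by rw [univ_eq_empty, sum_empty]; norm_num) (by norm_num) le_rfl le_rfl hΛ one_pos
  obtain ⟨CM, hCM1, hCM⟩ := hMer
  obtain ⟨δ, hδd⟩ : ∃ δ : ℝ, δ = min δ₀ (1 / 8) := ⟨_, rfl⟩
  have hδ0 : 0 < δ := by rw [hδd]; exact lt_min hδ₀ (by norm_num)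
  have hδ1 : δ ≤ δ₀ := by rw [hδd]; exact min_le_left _ _
  have hδ3 : δ ≤ 1 / 8 := by rw [hδd]; exact min_le_right _ _
  obtain ⟨C, X1, hC, hSMX⟩ := hsm δ hδ0 hδ1
  obtain ⟨X3, hMX⟩ := hCM δ hδ0 (by linarith)
  obtain ⟨X5, hCX⟩ := hCnt 1 Λ Λ one_pos hΛ hΛ
  obtain ⟨X9, hCX'⟩ := hCnt 1 κ (Λ + κ) one_pos hκ (by linarith)
  obtain ⟨X6, hPX⟩ := hPnt 1 one_pos
  obtain ⟨X7, hWX⟩ := hWtx.2 δ hδ0 (by linarith)
  obtain ⟨X8, hFX⟩ := log_floor (a := 1 / 4 - 2 * (1 / 32)) (θ := 1 / 32) (by norm_num)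
    (by norm_num)
  refine ⟨X1 + X3 + X5 + X6 + X7 + X8 + X9 + 2, fun X hX => ?_⟩
  have hX2 : 2 ≤ X := by omega
  have hX1 : 1 ≤ X := by omega
  have hL : 0 < Real.log X := Real.log_pos (by exact_mod_cast hX2)
  obtain ⟨hw1, -, hw3⟩ := hWX X (by omega)
  have hJ : 2 ^ 2 ^ JJ δ X ≤ X := by
    have h1 : (X : ℝ) ^ δ ≤ (X : ℝ) ^ (1 : ℝ) :=
      Real.rpow_le_rpow_of_exponent_le (by exact_mod_cast hX1) (by linarith)
    rw [Real.rpow_one] at h1
    exact_mod_cast hw1.trans h1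
  have hHX : HH X < X := lt_of_lt_of_le hw3 hJ
  obtain ⟨hV0, hM1, hM2⟩ := hMX X (by omega)
  obtain ⟨hF1, hF2⟩ := hFX X (by omega)
  have hW := Wm_pos X
  have h1 : ((Ico X (2 * X)).filter (fun n => ¬ Sep κ Λ X n)).card =
      ∑ b ∈ range (Wm X), ((SI X b).filter (fun n => ¬ Sep κ Λ X n)).card := by
    rw [card_eq_sum_card_fiberwise (f := fun n => n % Wm X) (t := range (Wm X))]
    · refine sum_congr rfl fun b _ => ?_
      congr 1
      ext n
      simp only [mem_filter, mem_SI, mem_Ico]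
      tauto
    · intro n _
      simp only [coe_range, Set.mem_Iio]
      exact Nat.mod_lt _ hW
  rw [h1]
  push_cast
  calc ∑ b ∈ range (Wm X), (((SI X b).filter (fun n => ¬ Sep κ Λ X n)).card : ℝ) ≤
      ∑ b ∈ range (Wm X), 128 * Λ * κ * ((X : ℝ) / Wm X) := by
        refine sum_le_sum fun b hb => ?_
        have hb' := mem_range.1 hb
        refine close_class (δ := δ) hX1 hHX hL hΛ hκ hJ hV0 ?_ ?_ ?_ (hPX X (by omega))
          (VG_le hGGS (by norm_num) le_rfl hX1 hM2 hV0 hF1 hF2)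
        · intro a ha a' ha' hne
          have h2 := (hSMX X (by omega) b hb' (D0 δ X) ∅ (empty_subset _) (fun _ => 1)
            (fun σ => by rw [abs_one])).2.2.2.1 a (by rw [sdiff_empty]; exact ha) a'
            (by rw [sdiff_empty]; exact ha') hne
          simp only [WW_zero, ZZ_zero, mul_one] at h2
          exact h2
        · have h2 := hCX X (by omega) b 0 (Λ * Real.log X) le_rfl (by rw [zero_add]) le_rfl
          rw [sub_zero] at h2
          have h3 : (BB X b ⌊Λ * Real.log X⌋₊).filter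
              (fun a : ℕ => (0 : ℝ) < a ∧ (a : ℝ) ≤ Λ * Real.log X) =
              BB X b ⌊Λ * Real.log X⌋₊ := by
            apply filter_true_of_mem
            intro a ha
            rw [mem_BB] at ha
            refine ⟨by exact_mod_cast ha.1, ?_⟩
            exact (Nat.le_floor_iff (by positivity)).1 ha.2.1
          rw [h3] at h2
          linarith [(abs_le.1 h2).2]
        · intro a ha
          rw [mem_BB] at ha
          have haL : (a : ℝ) ≤ Λ * Real.log X := (Nat.le_floor_iff (by positivity)).1 ha.2.1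
          have h2 := hCX' X (by omega) b a (a + κ * Real.log X) (Nat.cast_nonneg a) le_rfl (by
            linarith)
          have h3 : (a : ℝ) + κ * Real.log X - a = κ * Real.log X := by ring
          rw [h3] at h2
          have h4 : (((BB X b ⌊Λ * Real.log X⌋₊).filter (fun a' : ℕ => a < a' ∧
              (a' : ℝ) ≤ a + κ * Real.log X)).card : ℝ) ≤
              (((BB X b ⌊(Λ + κ) * Real.log X⌋₊).filter (fun a' : ℕ => (a : ℝ) < a' ∧
              (a' : ℝ) ≤ a + κ * Real.log X)).card : ℝ) := by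
            have h5 : (BB X b ⌊Λ * Real.log X⌋₊).filter (fun a' : ℕ => a < a' ∧
              (a' : ℝ) ≤ a + κ * Real.log X) ⊆ (BB X b ⌊(Λ + κ) * Real.log X⌋₊).filter
                (fun a' : ℕ => (a : ℝ) < a' ∧ (a' : ℝ) ≤ a + κ * Real.log X) := by
              intro x hx
              rw [mem_filter, mem_BB] at hx ⊢
              refine ⟨⟨hx.1.1, ?_, hx.1.2.2⟩, by exact_mod_cast hx.2.1, hx.2.2⟩
              apply Nat.le_floor
              linarith [hx.2.2]
            exact_mod_cast card_le_card h5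
          refine h4.trans ?_
          linarith [(abs_le.1 h2).2]
    _ = 128 * Λ * κ * X := by
        rw [sum_const, card_range, nsmul_eq_mul]
        have : (Wm X : ℝ) ≠ 0 := by exact_mod_cast hW.ne'
        field_simp

open Classical in
/-- the master theorem with separated primes -/
def MasterU : Prop := ∀ (k m : ℕ) (α : Fin k → ℝ) (ε Λ : ℝ), 0 < ε → 0 < Λ →
  (∀ i, 0 ≤ α i ∧ α i + ε ≤ Λ) → ∃ c κ : ℝ, 0 < c ∧ 0 < κ ∧ ∃ X₀ : ℕ, ∀ X : ℕ, X₀ ≤ X →
  c * X ≤ (((Ico X (2 * X)).filter (fun n => Good m α ε Λ X n ∧ Sep κ Λ X n)).card : ℝ)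

open Classical in
theorem masterU_of (hM : MasterT) (hC : CloseRare) : MasterU := by
  intro k m α ε Λ hε hΛ hα
  obtain ⟨c, hc, X1, h1⟩ := hM k m α ε Λ hε hΛ hα
  obtain ⟨κ, hκ⟩ : ∃ κ : ℝ, κ = c / (256 * Λ) := ⟨_, rfl⟩
  have hκ0 : 0 < κ := by rw [hκ]; positivity
  obtain ⟨X2, h2⟩ := hC Λ κ hΛ hκ0
  refine ⟨c / 2, κ, by positivity, hκ0, X1 + X2, fun X hX => ?_⟩
  have h3 := h1 X (by omega)
  have h4 := h2 X (by omega)
  have h5 : 128 * Λ * κ = c / 2 := by
    rw [hκ]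
    field_simp
    norm_num
  rw [h5] at h4
  have h6 : (Ico X (2 * X)).filter (fun n => Good m α ε Λ X n) ⊆
      (Ico X (2 * X)).filter (fun n => Good m α ε Λ X n ∧ Sep κ Λ X n) ∪
      (Ico X (2 * X)).filter (fun n => ¬ Sep κ Λ X n) := by
    intro n hn
    rw [mem_filter] at hn
    rw [mem_union, mem_filter, mem_filter]
    by_cases hS : Sep κ Λ X n
    · exact Or.inl ⟨hn.1, hn.2, hS⟩
    · exact Or.inr ⟨hn.1, hS⟩
  have h7 : (((Ico X (2 * X)).filter (fun n => Good m α ε Λ X n)).card : ℝ) ≤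
      (((Ico X (2 * X)).filter (fun n => Good m α ε Λ X n ∧ Sep κ Λ X n)).card : ℝ) +
      (((Ico X (2 * X)).filter (fun n => ¬ Sep κ Λ X n)).card : ℝ) := by
    exact_mod_cast (card_le_card h6).trans (card_union_le _ _)
  linarith

end Pool.Agent.H361R2.PP
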